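import Pool.Agent.W805.ER.Defs
import Pool.Agent.W805.ER.Statement

/-!
# Damped waves on the flat 2-torus with rough damping: basic definitions (MP_4ccfbf_an, Q2)

All torus integrals below are with respect to `tmu`, the normalised Haar measure on
`Torus = UnitAddTorus (Fin 2)`.
-/

set_option autoImplicit false

open MeasureTheory Complex Filter Topology Set
open scoped ENNReal Real

namespace Pool.Agent.TH281.DW

noncomputable section

local instance msD : MeasureSpace UnitAddCircle := ⟨AddCircle.haarAddCircle⟩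
local instance haD : Measure.IsAddHaarMeasure (volume : Measure UnitAddCircle) :=
  inferInstanceAs (Measure.IsAddHaarMeasure AddCircle.haarAddCircle)
local instance pmD : IsProbabilityMeasure (volume : Measure UnitAddCircle) :=
  inferInstanceAs (IsProbabilityMeasure AddCircle.haarAddCircle)

abbrev Torus := UnitAddTorus (Fin 2)
abbrev Z2 := Fin 2 → ℤ

/-- normalised Haar measure on the torus -/
def tmu : Measure Torus := volume

instance : IsProbabilityMeasure tmu := by unfold tmu; infer_instance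
instance : Measure.IsAddHaarMeasure tmu := by unfold tmu; infer_instance

/-- characters -/
def E (k : Z2) (x : Torus) : ℂ := UnitAddTorus.mFourier k x

/-- trigonometric polynomials -/
def tr (F : Finset Z2) (c : Z2 → ℂ) (x : Torus) : ℂ := ∑ k ∈ F, c k * E k x

/-- `k · d` -/
def dt (k d : Z2) : ℤ := k 0 * d 0 + k 1 * d 1
/-- `k × d` -/
def cr (k d : Z2) : ℤ := k 0 * d 1 - k 1 * d 0
/-- `|k|²` -/
def fq (k : Z2) : ℤ := k 0 ^ 2 + k 1 ^ 2

/-- real vectors act as translations of the torus -/
def toT (h : Fin 2 → ℝ) : Torus := fun i => (h i : UnitAddCircle)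

/-- Fourier coefficients of a real function -/
def ft (χ : Torus → ℝ) (n : Z2) : ℂ := ∫ x, (χ x : ℂ) * E n x ∂tmu

theorem dt_cr (k d : Z2) : dt k d ^ 2 + cr k d ^ 2 = fq k * fq d := by
  unfold dt cr fq; ring

theorem continuous_E (k : Z2) : Continuous (E k) := (UnitAddTorus.mFourier k).continuous

theorem norm_E (k : Z2) (x : Torus) : ‖E k x‖ = 1 := by
  unfold E
  simp [UnitAddTorus.mFourier, Circle.norm_coe]

theorem E_add (k : Z2) (x y : Torus) : E k (x + y) = E k x * E k y := by
  unfold E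
  simp only [UnitAddTorus.mFourier, ContinuousMap.coe_mk, Pi.add_apply,
    ← Finset.prod_mul_distrib]
  refine Finset.prod_congr rfl fun i _ => ?_
  simp [fourier_apply, AddCircle.toCircle_add]

theorem E_zero (x : Torus) : E 0 x = 1 := by
  unfold E; rw [UnitAddTorus.mFourier_zero]; rfl

theorem E_neg (k : Z2) (x : Torus) : E (-k) x = (starRingEnd ℂ) (E k x) :=
  UnitAddTorus.mFourier_neg

theorem E_add' (k l : Z2) (x : Torus) : E (k + l) x = E k x * E l x :=
  UnitAddTorus.mFourier_add

theorem E_sub' (k l : Z2) (x : Torus) : E (k - l) x = E k x * (starRingEnd ℂ) (E l x) := by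
  rw [sub_eq_add_neg, E_add', E_neg]

theorem E_toT (k : Z2) (h : Fin 2 → ℝ) :
    E k (toT h) = cexp (2 * π * I * ((k 0 : ℝ) * h 0 + (k 1 : ℝ) * h 1 : ℝ)) := by
  unfold E toT
  simp only [UnitAddTorus.mFourier, ContinuousMap.coe_mk, Fin.prod_univ_two, fourier_coe_apply]
  rw [← Complex.exp_add]
  congr 1
  push_cast
  ring

theorem continuous_tr (F : Finset Z2) (c : Z2 → ℂ) : Continuous (tr F c) := by
  unfold tr
  exact continuous_finsetSum _ fun k _ => continuous_const.mul (continuous_E k)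

theorem tr_add (F : Finset Z2) (c : Z2 → ℂ) (x y : Torus) :
    tr F c (x + y) = tr F (fun k => E k y * c k) x := by
  unfold tr
  refine Finset.sum_congr rfl fun k _ => ?_
  rw [E_add]; ring

theorem int_cont {G : Type*} [NormedAddCommGroup G] {g : Torus → G} (hg : Continuous g) :
    Integrable g tmu :=
  hg.integrable_of_hasCompactSupport (HasCompactSupport.of_compactSpace g)

theorem integral_add_right (g : Torus → ℂ) (y : Torus) :
    ∫ x, g (x + y) ∂tmu = ∫ x, g x ∂tmu := MeasureTheory.integral_add_right_eq_self g y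

theorem integral_E (n : Z2) : ∫ x, E n x ∂tmu = if n = 0 then 1 else 0 := by
  split_ifs with h
  · subst h
    simp [E_zero]
  · obtain ⟨i, hi⟩ : ∃ i, n i ≠ 0 := by
      by_contra hc; push Not at hc; exact h (funext hc)
    have hni : (n i : ℝ) ≠ 0 := by exact_mod_cast hi
    set y : Torus := toT (fun j => if j = i then 1 / (2 * (n i : ℝ)) else 0) with hy
    have hE : E n y = -1 := by
      rw [hy, E_toT]
      have hval : ((n 0 : ℝ) * (if (0 : Fin 2) = i then 1 / (2 * (n i : ℝ)) else 0) +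
          (n 1 : ℝ) * (if (1 : Fin 2) = i then 1 / (2 * (n i : ℝ)) else 0) : ℝ) = 1 / 2 := by
        fin_cases i
        · simp only [Fin.zero_eta, if_true, Fin.isValue] at *
          simp; field_simp
        · simp only [Fin.mk_one, Fin.isValue] at *
          simp; field_simp
      rw [hval]
      have : (2 * π * I * ((1 / 2 : ℝ) : ℂ)) = π * I := by push_cast; ring
      rw [this, Complex.exp_pi_mul_I]
    have h1 := integral_add_right (E n) y
    simp only [E_add, hE] at h1
    rw [MeasureTheory.integral_mul_const] at h1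
    linear_combination (-1 / 2 : ℂ) * h1

/-- Parseval -/
theorem integral_tr_mul (F G : Finset Z2) (c c' : Z2 → ℂ) :
    ∫ x, tr F c x * (starRingEnd ℂ) (tr G c' x) ∂tmu =
      ∑ k ∈ F, ∑ l ∈ G, if k = l then c k * (starRingEnd ℂ) (c' l) else 0 := by
  have h1 : ∀ x, tr F c x * (starRingEnd ℂ) (tr G c' x) =
      ∑ k ∈ F, ∑ l ∈ G, (c k * (starRingEnd ℂ) (c' l)) * E (k - l) x := by
    intro x
    unfold tr
    rw [map_sum, Finset.sum_mul_sum]
    refine Finset.sum_congr rfl fun k _ => Finset.sum_congr rfl fun l _ => ?_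
    rw [E_sub', map_mul]; ring
  simp only [h1]
  have hi : ∀ k l, Integrable (fun x => (c k * (starRingEnd ℂ) (c' l)) * E (k - l) x) tmu :=
    fun k l => int_cont (continuous_const.mul (continuous_E _))
  rw [integral_finsetSum _ fun k _ => integrable_finsetSum _ fun l _ => hi k l]
  refine Finset.sum_congr rfl fun k _ => ?_
  rw [integral_finsetSum _ fun l _ => hi k l]
  refine Finset.sum_congr rfl fun l _ => ?_
  rw [integral_const_mul, integral_E]
  by_cases hkl : k = l
  · subst hkl; simp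
  · rw [if_neg hkl, if_neg (sub_ne_zero.2 hkl), mul_zero]

theorem integral_norm_sq_tr (F : Finset Z2) (c : Z2 → ℂ) :
    ∫ x, ‖tr F c x‖ ^ 2 ∂tmu = ∑ k ∈ F, ‖c k‖ ^ 2 := by
  have h1 : ((∫ x, ‖tr F c x‖ ^ 2 ∂tmu : ℝ) : ℂ) = ((∑ k ∈ F, ‖c k‖ ^ 2 : ℝ) : ℂ) := by
    have h2 := integral_tr_mul F F c c
    have h3 : ∀ x, tr F c x * (starRingEnd ℂ) (tr F c x) = ((‖tr F c x‖ ^ 2 : ℝ) : ℂ) := by
      intro x; rw [Complex.mul_conj, Complex.normSq_eq_norm_sq]
    simp only [h3] at h2
    have h4 : ∫ x, ((‖tr F c x‖ ^ 2 : ℝ) : ℂ) ∂tmu =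
        ((∫ x, ‖tr F c x‖ ^ 2 ∂tmu : ℝ) : ℂ) := integral_ofReal
    rw [← h4, h2]
    push_cast
    refine Finset.sum_congr rfl fun k hk => ?_
    rw [Finset.sum_ite_eq, if_pos hk, Complex.mul_conj, Complex.normSq_eq_norm_sq]
    push_cast; rfl
  exact_mod_cast h1

/-- The stationary functional `‖(-Δ - τ² + iτ b) u‖²` for the trigonometric polynomial
`u = tr F c`. -/
def St (b : Torus → ℝ) (τ : ℝ) (F : Finset Z2) (c : Z2 → ℂ) : ℝ :=
  ∫ x, ‖tr F (fun k => (((fq k : ℝ) - τ ^ 2 : ℝ) : ℂ) * c k) x +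
    (((τ * b x : ℝ) : ℂ) * I) * tr F c x‖ ^ 2 ∂tmu

end

end Pool.Agent.TH281.DW
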