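import Pool.Agent.TH281.DW.Defs

/-!
# Damped waves on the flat 2-torus with rough damping: task statements (MP_4ccfbf_an, Q2)
-/

set_option autoImplicit false

open MeasureTheory Complex Filter Topology Set
open scoped ENNReal Real
open Pool.Agent.W805.ER (Mult Sol mulOp e2 fsq)

namespace Pool.Agent.TH281.DW

noncomputable section

local instance msS : MeasureSpace UnitAddCircle := ⟨AddCircle.haarAddCircle⟩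
local instance pmS : IsProbabilityMeasure (volume : Measure UnitAddCircle) :=
  inferInstanceAs (IsProbabilityMeasure AddCircle.haarAddCircle)

/-! ### abstract part -/

/-- resolvent bound of order `β`: `‖(a,w)‖ ≤ C ⟨η⟩^β ‖(iη - A)(a,w)‖` (squared) for
`A (a,w) = (S w, - S a - D w)` -/
def REB {ι H : Type} [NormedAddCommGroup H] [InnerProductSpace ℂ H] [CompleteSpace H]
    (e : HilbertBasis ι ℂ H) (d : ι → ℝ) (D : H →L[ℂ] H) (C β : ℝ) : Prop :=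
  ∀ (η : ℝ) (a w g h : H), Mult e d w h → Mult e d a g → (∀ k, d k = 0 → e.repr a k = 0) →
    ‖a‖ ^ 2 + ‖w‖ ^ 2 ≤ C * (1 + η ^ 2) ^ β *
      (‖((η : ℂ) * I) • a - h‖ ^ 2 + ‖((η : ℂ) * I) • w + g + D w‖ ^ 2)

/-- resolvent bound of order `β ≥ 1` implies decay at rate `T^(-1/β)` -/
def TaskDec : Prop :=
  ∀ (ι H : Type) [Countable ι] [NormedAddCommGroup H] [InnerProductSpace ℂ H] [CompleteSpace H]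
    (e : HilbertBasis ι ℂ H) (d : ι → ℝ) (D : H →L[ℂ] H) (C β : ℝ), 1 ≤ β →
    (∀ w : H, 0 ≤ (inner ℂ w (D w)).re) → REB e d D C β →
    ∃ K : ℝ, 0 < K ∧ ∀ a w a₁ w₁ : ℝ → H, Sol e d D a w a₁ w₁ →
      (∀ t, 0 ≤ t → ∀ k, d k = 0 → e.repr (a t) k = 0) →
      ∀ T : ℝ, 0 < T → ‖a T‖ ^ 2 + ‖w T‖ ^ 2 ≤
        K * T ^ (-(2 / β)) * (‖a 0‖ ^ 2 + ‖w 0‖ ^ 2 + ‖a₁ 0‖ ^ 2 + ‖w₁ 0‖ ^ 2)

/-- from a lower bound of the stationary operator to the resolvent bound -/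
def TaskRes : Prop :=
  ∀ (ι H : Type) [NormedAddCommGroup H] [InnerProductSpace ℂ H] [CompleteSpace H]
    (e : HilbertBasis ι ℂ H) (d : ι → ℝ) (D : H →L[ℂ] H) (κ : ι) (γ : ℝ), 0 ≤ γ →
    (∀ k, 0 ≤ d k) → d κ = 0 → (∀ k, k ≠ κ → 1 ≤ d k) →
    (∀ w : H, (inner ℂ w (D w)).im = 0) → (∀ w : H, 0 ≤ (inner ℂ w (D w)).re) →
    0 < (inner ℂ (e κ) (D (e κ))).re →
    (∀ s > 0, ∃ c > 0, ∀ τ : ℝ, s ≤ |τ| → ∀ u g : H, Mult e (fun k => d k ^ 2) u g →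
      c * |τ| ^ (-γ) * ‖u‖ ≤ ‖g - ((τ ^ 2 : ℝ) : ℂ) • u + ((τ : ℂ) * I) • D u‖) →
    ∃ C, 0 ≤ C ∧ REB e d D C (1 + γ)

/-- resolvent bound of order `β` on the torus implies stability at rate `t^(-1/β)` -/
def TaskStab : Prop :=
  ∀ (b : Torus → ℝ) (M : ℝ), Measurable b → (∀ x, 0 ≤ b x) → (∀ x, b x ≤ M) →
    ∀ C β : ℝ, 1 ≤ β →
    REB e2 Pool.Agent.W805.DampedTorus.freq (mulOp (volume : Measure Torus) b) C β →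
    Pool.Agent.W805.DampedTorus.StableAt b (fun t => t ^ (-(1 / β)))

/-! ### stationary estimates -/

/-- `b` is a bounded damping which is at least `c0` on the nonempty open set `U` -/
structure Damp (b : Torus → ℝ) (M : ℝ) (U : Set Torus) (c0 : ℝ) : Prop where
  meas : Measurable b
  nonneg : ∀ x, 0 ≤ b x
  le : ∀ x, b x ≤ M
  one_le : 1 ≤ M
  isOpen : IsOpen U
  nonempty : U.Nonempty
  pos : 0 < c0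
  low : ∀ x ∈ U, c0 ≤ b x

/-- bounded frequencies -/
def TaskLow : Prop :=
  ∀ (b : Torus → ℝ) (M : ℝ) (U : Set Torus) (c0 : ℝ), Damp b M U c0 →
    ∀ s τ0 : ℝ, 0 < s → ∃ c > 0, ∀ τ : ℝ, s ≤ |τ| → |τ| ≤ τ0 →
      ∀ (F : Finset Z2) (c' : Z2 → ℂ), c * ∑ k ∈ F, ‖c' k‖ ^ 2 ≤ St b τ F c'

/-- high frequencies (main estimate) -/
def TaskHigh : Prop :=
  ∀ (b : Torus → ℝ) (M : ℝ) (U : Set Torus) (c0 : ℝ), Damp b M U c0 →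
    ∃ δ : ℝ, 0 < δ ∧ δ < 1 ∧ ∃ τ0 : ℝ, 1 ≤ τ0 ∧ ∀ τ : ℝ, τ0 ≤ |τ| →
      ∀ (F : Finset Z2) (c' : Z2 → ℂ), |τ| ^ (-2 * (1 - δ)) * ∑ k ∈ F, ‖c' k‖ ^ 2 ≤ St b τ F c'

/-- from trigonometric polynomials to `H²` -/
def TaskDense : Prop :=
  ∀ (b : Torus → ℝ) (M : ℝ), Measurable b → (∀ x, 0 ≤ b x) → (∀ x, b x ≤ M) → ∀ τ κ : ℝ,
    (∀ (F : Finset Z2) (c' : Z2 → ℂ), κ * ∑ k ∈ F, ‖c' k‖ ^ 2 ≤ St b τ F c') →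
    ∀ u g : Lp ℂ 2 (volume : Measure Torus), Mult e2 fsq u g →
      κ * ‖u‖ ^ 2 ≤
        ‖g - ((τ ^ 2 : ℝ) : ℂ) • u + ((τ : ℂ) * I) • mulOp (volume : Measure Torus) b u‖ ^ 2

/-! ### cut-off and almost orthogonality -/

/-- tail bound of the Fourier coefficients of `χ` -/
def Tail (χ : Torus → ℝ) : Prop :=
  ∃ C > 0, ∀ L : ℝ, 1 ≤ L → ∀ G : Finset Z2, (∀ n ∈ G, L ^ 2 < (fq n : ℝ)) →
    ∑ n ∈ G, ‖ft χ n‖ ≤ C / L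

def TaskCut : Prop :=
  ∀ U : Set Torus, IsOpen U → U.Nonempty → ∃ χ : Torus → ℝ, Continuous χ ∧ (∀ x, 0 ≤ χ x) ∧
    (∀ x, χ x ≤ 1) ∧ (∀ x, x ∉ U → χ x = 0) ∧ 0 < ∫ x, χ x ∂tmu ∧ Tail χ

open Classical in
/-- Schur test -/
def TaskSchur : Prop :=
  ∀ (a : Z2 → ℝ) (F G : Finset Z2) (c c' : Z2 → ℂ) (P : Z2 → Z2 → Prop) (η : ℝ),
    (∀ n, 0 ≤ a n) →
    (∀ H : Finset Z2, (∀ n ∈ H, ∃ k ∈ F, ∃ l ∈ G, P k l ∧ n = k - l) → ∑ n ∈ H, a n ≤ η) →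
    ∑ k ∈ F, ∑ l ∈ G, (if P k l then ‖c k‖ * ‖c' l‖ * a (k - l) else 0) ≤
      η * Real.sqrt (∑ k ∈ F, ‖c k‖ ^ 2) * Real.sqrt (∑ l ∈ G, ‖c' l‖ ^ 2)

/-! ### lattice points near the circle of radius `T` -/

/-- `k` lies in the annulus `||k|² - T²| ≤ T^(1/8)` -/
def An (T : ℝ) (k : Z2) : Prop := |(fq k : ℝ) - T ^ 2| ≤ T ^ (1 / 8 : ℝ)

/-- `|k - l|² ≤ T^(1/4)` -/
def nb (T : ℝ) (k l : Z2) : Prop := (fq (k - l) : ℝ) ≤ T ^ (1 / 4 : ℝ)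

/-- the height of the relevant line in direction `d` -/
def md (T : ℝ) (d : Z2) : ℤ := round (T * Real.sqrt (fq d : ℝ))

/-- directions: primitive and pairwise non-parallel -/
structure Dirs (𝒟 : Finset Z2) : Prop where
  prim : ∀ d ∈ 𝒟, IsCoprime (d 0) (d 1)
  sep : ∀ d ∈ 𝒟, ∀ d' ∈ 𝒟, d ≠ d' → cr d d' ≠ 0

/-- a line is a direction and a sign -/
def Lines (𝒟 : Finset Z2) : Finset (Z2 × ℤ) := 𝒟 ×ˢ {1, -1}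

/-- `k` lies on the line `l = (d, ±1)`: `k × d = ± md T d` -/
def onl (T : ℝ) (l : Z2 × ℤ) (k : Z2) : Prop := cr k l.1 = l.2 * md T l.1

instance (T : ℝ) (l : Z2 × ℤ) (k : Z2) : Decidable (onl T l k) := by unfold onl; infer_instance

/-- the point of the (real) line `l` closest to the origin -/
def kap (T : ℝ) (l : Z2 × ℤ) (i : Fin 2) : ℝ :=
  ((l.2 * md T l.1 : ℤ) : ℝ) / (fq l.1 : ℝ) * (if i = 0 then (l.1 1 : ℝ) else -(l.1 0 : ℝ))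

def TaskDir : Prop :=
  ∀ D0 : ℕ, ∃ 𝒟 : Finset Z2, Dirs 𝒟 ∧ ∀ n : Z2, n ≠ 0 → fq n ≤ D0 ^ 2 → ∃ d ∈ 𝒟, cr n d = 0

/-- three neighbouring lattice points in the annulus are collinear -/
def TaskLat1 : Prop :=
  ∃ T0 : ℝ, 1 ≤ T0 ∧ ∀ T : ℝ, T0 ≤ T → ∀ k1 k2 k3 : Z2, An T k1 → An T k2 → An T k3 →
    nb T k1 k2 → nb T k3 k2 → cr (k1 - k2) (k3 - k2) = 0

/-- two neighbouring points of the annulus whose difference is parallel to `d` lie on the line -/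
def TaskLat2 : Prop :=
  ∀ d : Z2, IsCoprime (d 0) (d 1) → ∃ T0 : ℝ, 1 ≤ T0 ∧ ∀ T : ℝ, T0 ≤ T → ∀ k l : Z2,
    An T k → An T l → k ≠ l → nb T k l → cr (k - l) d = 0 → ∃ ε : ℤ, (ε = 1 ∨ ε = -1) ∧
      onl T (d, ε) k

/-- the lines are far apart -/
def TaskSep : Prop :=
  ∀ 𝒟 : Finset Z2, Dirs 𝒟 → ∃ B > 0, ∃ T0 : ℝ, 1 ≤ T0 ∧ ∀ T : ℝ, T0 ≤ T →
    ∀ l ∈ Lines 𝒟, ∀ l' ∈ Lines 𝒟, l ≠ l' →
      (B * T) ^ 2 ≤ (kap T l 0 - kap T l' 0) ^ 2 + (kap T l 1 - kap T l' 1) ^ 2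

/-- neighbouring points of the annulus do not lie on different lines -/
def TaskLat3 : Prop :=
  ∀ 𝒟 : Finset Z2, Dirs 𝒟 → ∃ T0 : ℝ, 1 ≤ T0 ∧ ∀ T : ℝ, T0 ≤ T → ∀ k k' : Z2,
    An T k → An T k' → nb T k k' → ∀ l ∈ Lines 𝒟, ∀ l' ∈ Lines 𝒟, onl T l k → onl T l' k' → l = l'

open Classical in
/-- frequency decomposition: outside the finitely many lines everything is small, and the part on
each line is small in the mean of `χ` -/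
def TaskFreq : Prop :=
  ∀ χ : Torus → ℝ, Continuous χ → (∀ x, 0 ≤ χ x) → (∀ x, χ x ≤ 1) → 0 < ∫ x, χ x ∂tmu → Tail χ →
    ∃ 𝒟 : Finset Z2, Dirs 𝒟 ∧ ∃ C > 0, ∃ T0 : ℝ, 1 ≤ T0 ∧ ∀ T : ℝ, T0 ≤ T →
      ∀ (F : Finset Z2) (c : Z2 → ℂ) (e0 : ℝ), ∑ k ∈ F, ‖c k‖ ^ 2 ≤ 1 → T ^ (-(1 / 8) : ℝ) ≤ e0 →
      ∑ k ∈ F.filter (fun k => ¬ An T k), ‖c k‖ ^ 2 ≤ e0 →
      ∫ x, χ x * ‖tr F c x‖ ^ 2 ∂tmu ≤ e0 →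
      (∀ l ∈ Lines 𝒟, ∫ x, χ x * ‖tr (F.filter (onl T l)) c x‖ ^ 2 ∂tmu ≤ C * e0) ∧
      ∫ x, ‖tr F c x - ∑ l ∈ Lines 𝒟, tr (F.filter (onl T l)) c x‖ ^ 2 ∂tmu ≤ C * e0

/-! ### sublevel sets of sums of modulated functions -/

def TaskSL : Prop :=
  ∀ n : ℕ, ∃ C > 0, ∃ N : ℕ, 1 ≤ N ∧ ∀ (ι : Type) (s : Finset ι) (V : ι → Torus → ℂ)
    (κ : ι → Fin 2 → ℝ) (A B : ℝ), s.card = n → (∀ i ∈ s, Continuous (V i)) → 0 ≤ A → 0 < B →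
    (∀ i ∈ s, ∀ h : Fin 2 → ℝ, ∫ x, ‖V i (x + toT h) -
      cexp (2 * π * I * (κ i 0 * h 0 + κ i 1 * h 1 : ℝ)) * V i x‖ ^ 2 ∂tmu ≤
        A ^ 2 * (h 0 ^ 2 + h 1 ^ 2)) →
    (∀ i ∈ s, ∀ j ∈ s, i ≠ j → B ^ 2 ≤ (κ i 0 - κ j 0) ^ 2 + (κ i 1 - κ j 1) ^ 2) →
    ∀ (S : Set Torus), MeasurableSet S → ∀ i ∈ s, ∀ lam : ℝ, 0 < lam → (∀ x ∈ S, lam ≤ ‖V i x‖) →
      lam ^ 2 * (tmu.real S) ^ N ≤ C * ((∫ x in S, ‖∑ j ∈ s, V j x‖ ^ 2 ∂tmu) + (A / B) ^ 2)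

/-! ### one-dimensional lemmas -/

def TaskL1 : Prop :=
  ∀ (y y1 y2 : ℝ → ℂ) (ω : ℂ) (lam : ℝ), (∀ s, HasDerivAt y (y1 s) s) →
    (∀ s, HasDerivAt y1 (y2 s) s) → Continuous y2 → ‖ω‖ = 1 → y 1 = ω * y 0 → y1 1 = ω * y1 0 →
    0 < lam → ∫ s in (0 : ℝ)..1, (if ‖y s‖ < lam then ‖y1 s‖ ^ 2 else 0) ≤
      3 * lam * ∫ s in (0 : ℝ)..1, ‖y2 s‖

def TaskL2 : Prop :=
  ∀ (y y1 g : ℝ → ℂ) (ν : ℝ), (∀ s, HasDerivAt y (y1 s) s) →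
    (∀ s, HasDerivAt y1 (-(ν : ℂ) * y s + g s) s) → Continuous g → 0 ≤ ν →
    ∀ s ∈ Icc (0 : ℝ) 1, ‖y1 s‖ ^ 2 + ν * ‖y s‖ ^ 2 ≤
      2 * (∫ t in (0 : ℝ)..1, (‖y1 t‖ ^ 2 + ν * ‖y t‖ ^ 2)) + 2 * ∫ t in (0 : ℝ)..1, ‖g t‖ ^ 2

/-- sup bound and Poincaré inequality -/
def TaskL3 : Prop :=
  ∀ (y y1 : ℝ → ℂ), (∀ s, HasDerivAt y (y1 s) s) → Continuous y1 →
    ∀ θ : ℝ → ℝ, Continuous θ → (∀ s, 0 ≤ θ s) → ∫ s in (0 : ℝ)..1, θ s = 1 →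
    ∀ s ∈ Icc (0 : ℝ) 1, ‖y s‖ ^ 2 ≤ 2 * (∫ t in (0 : ℝ)..1, θ t * ‖y t‖ ^ 2) +
      2 * ∫ t in (0 : ℝ)..1, ‖y1 t‖ ^ 2

/-- the energy identity -/
def TaskL4 : Prop :=
  ∀ (y y1 g : ℝ → ℂ) (ν : ℝ) (ω : ℂ), (∀ s, HasDerivAt y (y1 s) s) →
    (∀ s, HasDerivAt y1 (-(ν : ℂ) * y s + g s) s) → Continuous g →
    ‖ω‖ = 1 → y 1 = ω * y 0 → y1 1 = ω * y1 0 →
    (∫ s in (0 : ℝ)..1, ‖y1 s‖ ^ 2) - ν * (∫ s in (0 : ℝ)..1, ‖y s‖ ^ 2) =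
      -(∫ s in (0 : ℝ)..1, g s * (starRingEnd ℂ) (y s)).re

/-- the multiplier identity -/
def TaskL5 : Prop :=
  ∀ (y y1 g : ℝ → ℂ) (ν : ℝ) (ω : ℂ) (a θ θ1 θ2 : ℝ → ℝ), (∀ s, HasDerivAt y (y1 s) s) →
    (∀ s, HasDerivAt y1 (-(ν : ℂ) * y s + g s) s) → Continuous g →
    ‖ω‖ = 1 → y 1 = ω * y 0 → y1 1 = ω * y1 0 →
    (∀ s, HasDerivAt a (1 - θ s) s) → (∀ s, HasDerivAt θ (θ1 s) s) →
    (∀ s, HasDerivAt θ1 (θ2 s) s) → Continuous θ2 → a 1 = a 0 → θ 1 = θ 0 → θ1 1 = θ1 0 →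
    ∫ s in (0 : ℝ)..1, (‖y1 s‖ ^ 2 + ν * ‖y s‖ ^ 2) =
      2 * ν * (∫ s in (0 : ℝ)..1, θ s * ‖y s‖ ^ 2) +
      (1 / 2) * (∫ s in (0 : ℝ)..1, θ2 s * ‖y s‖ ^ 2) -
      (∫ s in (0 : ℝ)..1, g s * (starRingEnd ℂ) ((θ s : ℂ) * y s)).re -
      2 * (∫ s in (0 : ℝ)..1, g s * (starRingEnd ℂ) ((a s : ℂ) * y1 s)).re

/-! ### from the torus to the line and back -/

/-- the one-dimensional profile of a trigonometric polynomial with frequencies on a line of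
direction `d` -/
def yv (F : Finset Z2) (c : Z2 → ℂ) (d : Z2) (s : ℝ) : ℂ :=
  ∑ k ∈ F, c k * cexp (2 * π * I * ((dt k d : ℝ) / (fq d : ℝ) * s : ℝ))

/-- moduli on the torus and on the circle -/
def TaskTr1 : Prop :=
  ∀ d : Z2, IsCoprime (d 0) (d 1) → ∀ (m : ℤ) (F : Finset Z2), (∀ k ∈ F, cr k d = m) →
    (∀ x : Torus, ∃ s ∈ Icc (0 : ℝ) 1, ∀ c : Z2 → ℂ, ‖tr F c x‖ = ‖yv F c d s‖) ∧
    ∀ (c c' : Z2 → ℂ) (Φ : ℝ × ℝ → ℝ), Measurable Φ →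
      ∫ x, Φ (‖tr F c x‖, ‖tr F c' x‖) ∂tmu =
        ∫ s in (0 : ℝ)..1, Φ (‖yv F c d s‖, ‖yv F c' d s‖)

/-- pairings on the torus and on the circle -/
def TaskTr2 : Prop :=
  ∀ d : Z2, IsCoprime (d 0) (d 1) → ∀ θ : ℝ → ℝ, Continuous θ → (∀ s, θ (s + 1) = θ s) →
    ∃ Θ : Torus → ℝ, Continuous Θ ∧ (∀ x, ∃ s ∈ Icc (0 : ℝ) 1, Θ x = θ s) ∧
      ∀ (m : ℤ) (F G : Finset Z2) (c g : Z2 → ℂ), (∀ k ∈ F, cr k d = m) →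
        ∫ x, tr G g x * (starRingEnd ℂ) ((Θ x : ℂ) * tr F c x) ∂tmu =
          ∫ s in (0 : ℝ)..1, yv (G.filter (fun k => cr k d = m)) g d s *
            (starRingEnd ℂ) ((θ s : ℂ) * yv F c d s)

/-- one-dimensional cut-offs controlled by `χ` -/
def TaskBump : Prop :=
  ∀ d : Z2, IsCoprime (d 0) (d 1) → ∀ χ : Torus → ℝ, Continuous χ → (∀ x, 0 ≤ χ x) →
    0 < ∫ x, χ x ∂tmu → ∃ a θ θ1 θ2 : ℝ → ℝ, (∀ s, HasDerivAt a (1 - θ s) s) ∧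
      (∀ s, HasDerivAt θ (θ1 s) s) ∧ (∀ s, HasDerivAt θ1 (θ2 s) s) ∧ Continuous θ2 ∧
      (∀ s, a (s + 1) = a s) ∧ (∀ s, θ (s + 1) = θ s) ∧ (∀ s, θ1 (s + 1) = θ1 s) ∧
      (∀ s, 0 ≤ θ s) ∧ ∫ s in (0 : ℝ)..1, θ s = 1 ∧ ∃ C > 0, ∀ (m : ℤ) (F : Finset Z2) (c : Z2 → ℂ),
        (∀ k ∈ F, cr k d = m) →
        ∫ s in (0 : ℝ)..1, (θ s + |θ2 s|) * ‖yv F c d s‖ ^ 2 ≤
          C * ∫ x, χ x * ‖tr F c x‖ ^ 2 ∂tmu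

end

end Pool.Agent.TH281.DW
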