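import Pool.Agent.TH281.DW.High
import Pool.Agent.W805.ER.Final
import Pool.Agent.TH324.J2099
import Pool.Agent.TH293.J2100
import Pool.Agent.TH494.J2101
import Pool.Agent.TH828.J2102
import Pool.Agent.TH952.J2103
import Pool.Agent.TH592.J2104
import Pool.Agent.TH480.J2105
import Pool.Agent.TH611.J2106
import Pool.Agent.TH611.J2107
import Pool.Agent.TH113.J2108
import Pool.Agent.TH416.J2109
import Pool.Agent.TH480.J2110
import Pool.Agent.TH480.J2111
import Pool.Agent.TH480.J2112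
import Pool.Agent.TH740.J2113
import Pool.Agent.TH740.J2114
import Pool.Agent.TH740.J2115

/-!
# Damped waves on the flat 2-torus with rough damping: final assembly (MP_4ccfbf_an, Q2)
-/

set_option autoImplicit false

open MeasureTheory Complex Filter Topology Set
open scoped ENNReal Real
open Pool.Agent.W805.ER (Mult mulOp e2 fsq BM)
open Pool.Agent.W805.DampedTorus

namespace Pool.Agent.TH281.DW

noncomputable section

local instance msF : MeasureSpace UnitAddCircle := ⟨AddCircle.haarAddCircle⟩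
local instance pmF : IsProbabilityMeasure (volume : Measure UnitAddCircle) :=
  inferInstanceAs (IsProbabilityMeasure AddCircle.haarAddCircle)

theorem high : TaskHigh :=
  taskHigh Pool.Agent.TH592.J2104.main
    (Pool.Agent.TH113.J2108.main Pool.Agent.TH480.J2105.main Pool.Agent.TH611.J2106.taskDir
      Pool.Agent.TH611.J2106.taskLat1 Pool.Agent.TH611.J2106.taskLat2
      (Pool.Agent.TH611.J2107.taskLat3 Pool.Agent.TH611.J2107.taskSep))
    Pool.Agent.TH611.J2107.taskSep Pool.Agent.TH416.J2109.main Pool.Agent.TH480.J2110.main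
    Pool.Agent.TH480.J2111.taskL2 Pool.Agent.TH480.J2111.taskL3 Pool.Agent.TH480.J2112.taskL4
    Pool.Agent.TH480.J2112.taskL5 Pool.Agent.TH740.J2113.main Pool.Agent.TH740.J2114.main
    Pool.Agent.TH740.J2115.main

/-- a damping bounded below on an open set is nontrivial -/
theorem Damp.isDamping {b : DW.Torus → ℝ} {M : ℝ} {U : Set DW.Torus} {c0 : ℝ}
    (D : Damp b M U c0) : IsDamping b := by
  refine ⟨D.meas, ⟨M, D.le⟩, D.nonneg, fun h => ?_⟩
  have h1 : (volume : Measure DW.Torus) U = 0 := by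
    refine measure_mono_null (fun x hx => ?_) (ae_iff.1 h)
    have h2 := D.low x hx
    have h3 := D.pos
    show ¬ b x = 0
    linarith
  have h4 : 0 < tmu U := D.isOpen.measure_pos tmu D.nonempty
  exact h4.ne' h1

/-- the stationary estimate, all frequencies -/
theorem stationary {b : DW.Torus → ℝ} {M : ℝ} {U : Set DW.Torus} {c0 : ℝ}
    (D : Damp b M U c0) : ∃ δ : ℝ, 0 < δ ∧ δ < 1 ∧
      ∀ s > 0, ∃ c > 0, ∀ τ : ℝ, s ≤ |τ| → ∀ u g : L2, Mult e2 (fun k => freq k ^ 2) u g →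
        c * |τ| ^ (-(1 - δ)) * ‖u‖ ≤
          ‖g - ((τ ^ 2 : ℝ) : ℂ) • u + ((τ : ℂ) * I) • mulOp (volume : Measure DW.Torus) b u‖ := by
  obtain ⟨δ, δ0, δ1, τ0, τ1, hh⟩ := high b M U c0 D
  refine ⟨δ, δ0, δ1, fun s hs => ?_⟩
  obtain ⟨c, hc, hl⟩ := Pool.Agent.TH828.J2102.main b M U c0 D s τ0 hs
  have hden := Pool.Agent.TH952.J2103.main b M D.meas D.nonneg D.le
  refine ⟨min 1 (Real.sqrt c * s ^ (1 - δ)), lt_min one_pos (by positivity),
    fun τ hτ u g hug => ?_⟩
  have hfun : (fun k => freq k ^ 2) = fsq := funext freq_sq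
  rw [hfun] at hug
  have t0 : 0 < |τ| := lt_of_lt_of_le hs hτ
  set R := ‖g - ((τ ^ 2 : ℝ) : ℂ) • u +
    ((τ : ℂ) * I) • mulOp (volume : Measure DW.Torus) b u‖ with hR
  have R0 : 0 ≤ R := norm_nonneg _
  have hp : 0 < |τ| ^ (-(1 - δ)) := Real.rpow_pos_of_pos t0 _
  rcases le_total τ0 |τ| with h1 | h1
  · have h2 := hden τ (|τ| ^ (-2 * (1 - δ))) (hh τ h1) u g hug
    have h3 : |τ| ^ (-2 * (1 - δ)) * ‖u‖ ^ 2 = (|τ| ^ (-(1 - δ)) * ‖u‖) ^ 2 := by
      rw [mul_pow, ← Real.rpow_natCast (|τ| ^ (-(1 - δ))), ← Real.rpow_mul t0.le]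
      congr 2
      push_cast; ring
    rw [h3] at h2
    have h4 : |τ| ^ (-(1 - δ)) * ‖u‖ ≤ R := le_of_sq_le_sq h2 R0
    calc min 1 (Real.sqrt c * s ^ (1 - δ)) * |τ| ^ (-(1 - δ)) * ‖u‖ ≤
          1 * |τ| ^ (-(1 - δ)) * ‖u‖ :=
          mul_le_mul_of_nonneg_right (mul_le_mul_of_nonneg_right (min_le_left _ _) hp.le)
            (norm_nonneg _)
      _ = |τ| ^ (-(1 - δ)) * ‖u‖ := by rw [one_mul]
      _ ≤ R := h4
  · have h2 := hden τ c (hl τ hτ h1) u g hug
    have h3 : c * ‖u‖ ^ 2 = (Real.sqrt c * ‖u‖) ^ 2 := by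
      rw [mul_pow, Real.sq_sqrt hc.le]
    rw [h3] at h2
    have h4 : Real.sqrt c * ‖u‖ ≤ R := le_of_sq_le_sq h2 R0
    have h5 : s ^ (1 - δ) * |τ| ^ (-(1 - δ)) ≤ 1 := by
      rw [Real.rpow_neg t0.le, ← div_eq_mul_inv, div_le_one (Real.rpow_pos_of_pos t0 _)]
      exact Real.rpow_le_rpow hs.le hτ (by linarith)
    calc min 1 (Real.sqrt c * s ^ (1 - δ)) * |τ| ^ (-(1 - δ)) * ‖u‖ ≤
          (Real.sqrt c * s ^ (1 - δ)) * |τ| ^ (-(1 - δ)) * ‖u‖ :=
          mul_le_mul_of_nonneg_right (mul_le_mul_of_nonneg_right (min_le_right _ _) hp.le)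
            (norm_nonneg _)
      _ = (s ^ (1 - δ) * |τ| ^ (-(1 - δ))) * (Real.sqrt c * ‖u‖) := by ring
      _ ≤ 1 * (Real.sqrt c * ‖u‖) := mul_le_mul_of_nonneg_right h5 (by positivity)
      _ = Real.sqrt c * ‖u‖ := one_mul _
      _ ≤ R := h4

/-- pointwise version of the main theorem -/
theorem main_damp {b : DW.Torus → ℝ} {M : ℝ} {U : Set DW.Torus} {c0 : ℝ}
    (D : Damp b M U c0) :
    WellPosed b ∧ ∃ α : ℝ, 1 / 2 < α ∧ StableAt b (fun t => t ^ (-α)) := by
  have hd := D.isDamping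
  refine ⟨wellPosed hd, ?_⟩
  obtain ⟨δ, δ0, δ1, hst⟩ := stationary D
  have hb : BM b M := ⟨D.meas, fun x => by rw [abs_of_nonneg (D.nonneg x)]; exact D.le x⟩
  obtain ⟨C, C0, hC⟩ := Pool.Agent.TH293.J2100.main (Fin 2 → ℤ) L2 e2 freq
    (mulOp (volume : Measure DW.Torus) b) 0 (1 - δ) (by linarith) freq_nonneg freq_zero
    (fun k hk => one_le_freq hk)
    (fun w => by rw [Pool.Agent.W805.ER.inner_mulOp hb]; exact Complex.ofReal_im _)
    (re_inner_nonneg hb D.nonneg) (qf_pos hd) hst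
  refine ⟨1 / (1 + (1 - δ)), ?_, ?_⟩
  · rw [div_lt_div_iff₀ (by norm_num) (by linarith)]; linarith
  · exact Pool.Agent.TH494.J2101.main Pool.Agent.TH324.J2099.main b M D.meas D.nonneg D.le C
      (1 + (1 - δ)) (by linarith) hC

/-! ### almost everywhere versions -/

theorem isSolution_congr {b b' : DW.Torus → ℝ} (h : b =ᵐ[(volume : Measure DW.Torus)] b')
    {u v : ℝ → L2} (hs : IsSolution b u v) : IsSolution b' u v := by
  obtain ⟨Gu, Gv, Lu, bv, h1, h2, h3, h4, h5⟩ := hs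
  refine ⟨Gu, Gv, Lu, bv, h1, h2, h3, fun t ht => ?_, h5⟩
  filter_upwards [h4 t ht, h] with x hx1 hx2
  rw [hx1, hx2]

theorem wellPosed_congr {b b' : DW.Torus → ℝ} (h : b =ᵐ[(volume : Measure DW.Torus)] b')
    (hw : WellPosed b) : WellPosed b' := by
  intro u₀ u₁ h0 h1
  obtain ⟨u, v, huv, e0, e1, hun⟩ := hw u₀ u₁ h0 h1
  exact ⟨u, v, isSolution_congr h huv, e0, e1,
    fun u' v' hs => hun u' v' (isSolution_congr h.symm hs)⟩

theorem stableAt_congr {b b' : DW.Torus → ℝ} (h : b =ᵐ[(volume : Measure DW.Torus)] b')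
    {f : ℝ → ℝ} (hw : StableAt b f) : StableAt b' f := by
  obtain ⟨C, hC, hs⟩ := hw
  exact ⟨C, hC, fun u v huv => hs u v (isSolution_congr h.symm huv)⟩

/-- a good representative -/
theorem exists_damp {b : DW.Torus → ℝ} (hm : AEMeasurable b (volume : Measure DW.Torus))
    {M : ℝ} (hM : ∀ᵐ x ∂(volume : Measure DW.Torus), b x ≤ M)
    (h0 : ∀ᵐ x ∂(volume : Measure DW.Torus), 0 ≤ b x) {U : Set DW.Torus} (hU : IsOpen U)
    (hne : U.Nonempty) {c : ℝ} (hc : 0 < c)
    (hcU : ∀ᵐ x ∂(volume : Measure DW.Torus), x ∈ U → c ≤ b x) :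
    ∃ b' M', Damp b' M' U c ∧ b' =ᵐ[(volume : Measure DW.Torus)] b := by
  classical
  set g := hm.mk b with hg
  have gm : Measurable g := hm.measurable_mk
  set M' : ℝ := max 1 (max M c) with hM'
  have M1 : 1 ≤ M' := le_max_left _ _
  have MM : M ≤ M' := (le_max_left _ _).trans (le_max_right _ _)
  have Mc : c ≤ M' := (le_max_right _ _).trans (le_max_right _ _)
  have m1 : Measurable fun x => min (max (g x) 0) M' := (gm.max measurable_const).min measurable_const
  refine ⟨fun x => if x ∈ U then max c (min (max (g x) 0) M') else min (max (g x) 0) M', M',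
    ⟨Measurable.ite hU.measurableSet (measurable_const.max m1) m1, fun x => ?_, fun x => ?_, M1, hU,
      hne, hc, fun x hx => ?_⟩, ?_⟩
  · have : 0 ≤ min (max (g x) 0) M' := le_min (le_max_right _ _) (by linarith)
    show 0 ≤ if x ∈ U then max c (min (max (g x) 0) M') else min (max (g x) 0) M'
    split_ifs
    · exact hc.le.trans (le_max_left _ _)
    · exact this
  · show (if x ∈ U then max c (min (max (g x) 0) M') else min (max (g x) 0) M') ≤ M'
    split_ifs
    · exact max_le Mc (min_le_right _ _)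
    · exact min_le_right _ _
  · show c ≤ if x ∈ U then max c (min (max (g x) 0) M') else min (max (g x) 0) M'
    rw [if_pos hx]
    exact le_max_left _ _
  · filter_upwards [hM, h0, hcU, hm.ae_eq_mk] with x h1 h2 h3 h4
    have h5 : min (max (g x) 0) M' = b x := by
      rw [hg, ← h4, max_eq_left h2, min_eq_left (h1.trans MM)]
    rw [h5]
    split_ifs with hx
    · exact max_eq_right (h3 hx)
    · rfl

/-- **Main theorem.** -/
theorem main_ae {b : DW.Torus → ℝ} (hm : AEMeasurable b (volume : Measure DW.Torus))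
    {M : ℝ} (hM : ∀ᵐ x ∂(volume : Measure DW.Torus), b x ≤ M)
    (h0 : ∀ᵐ x ∂(volume : Measure DW.Torus), 0 ≤ b x) {U : Set DW.Torus} (hU : IsOpen U)
    (hne : U.Nonempty) {c : ℝ} (hc : 0 < c)
    (hcU : ∀ᵐ x ∂(volume : Measure DW.Torus), x ∈ U → c ≤ b x) :
    WellPosed b ∧ ∃ α : ℝ, 1 / 2 < α ∧ StableAt b (fun t => t ^ (-α)) := by
  obtain ⟨b', M', D, hbb⟩ := exists_damp hm hM h0 hU hne hc hcU
  obtain ⟨hw, α, hα, hs⟩ := main_damp D
  exact ⟨wellPosed_congr hbb hw, α, hα, stableAt_congr hbb hs⟩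

end

end Pool.Agent.TH281.DW
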