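import Pool.Agent.TH281.DW.Tor

/-!
# Damped waves on the flat 2-torus with rough damping: sublevel sets on the lines
-/

set_option autoImplicit false

open MeasureTheory Complex Filter Topology Set
open scoped ENNReal Real

namespace Pool.Agent.TH281.DW

noncomputable section

theorem norm_exp_sub_exp_le (α β : ℝ) :
    ‖cexp (2 * π * I * (α : ℝ)) - cexp (2 * π * I * (β : ℝ))‖ ≤ 2 * π * |α - β| := by
  have h1 : cexp (2 * π * I * (α : ℝ)) - cexp (2 * π * I * (β : ℝ)) =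
      cexp (((2 * π * β : ℝ) : ℂ) * I) * (cexp (I * ((2 * π * (α - β) : ℝ) : ℂ)) - 1) := by
    rw [mul_sub, mul_one, ← Complex.exp_add]
    congr 1
    · congr 1; push_cast; ring
    · congr 1; push_cast; ring
  rw [h1, norm_mul, Complex.norm_exp_ofReal_mul_I, one_mul]
  refine Real.norm_exp_I_mul_ofReal_sub_one_le.trans (le_of_eq ?_)
  rw [Real.norm_eq_abs, abs_mul, abs_of_pos Real.two_pi_pos]

/-- translations on a line -/
theorem line_lip (T : ℝ) (l : Z2 × ℤ) (hd : 1 ≤ fq l.1) (F : Finset Z2) (c : Z2 → ℂ) (R : ℝ) (hR : ∑ k ∈ F.filter (onl T l), ((dt k l.1 : ℝ) ^ 2 / (fq l.1 : ℝ)) * ‖c k‖ ^ 2 ≤ R)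
    (h : Fin 2 → ℝ) :
    ∫ x, ‖tr (F.filter (onl T l)) c (x + toT h) -
      cexp (2 * π * I * (kap T l 0 * h 0 + kap T l 1 * h 1 : ℝ)) *
        tr (F.filter (onl T l)) c x‖ ^ 2 ∂tmu ≤
      (Real.sqrt ((2 * π) ^ 2 * R)) ^ 2 * (h 0 ^ 2 + h 1 ^ 2) := by
  have hq : (0 : ℝ) < (fq l.1 : ℝ) := by exact_mod_cast hd
  have hR0 : 0 ≤ R := le_trans (Finset.sum_nonneg fun k _ => by positivity) hR
  rw [Real.sq_sqrt (by positivity)]
  have e1 : ∀ x, tr (F.filter (onl T l)) c (x + toT h) -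
      cexp (2 * π * I * (kap T l 0 * h 0 + kap T l 1 * h 1 : ℝ)) *
        tr (F.filter (onl T l)) c x =
      tr (F.filter (onl T l)) (fun k => (E k (toT h) -
        cexp (2 * π * I * (kap T l 0 * h 0 + kap T l 1 * h 1 : ℝ))) * c k) x := by
    intro x
    rw [tr_add]
    unfold tr
    rw [Finset.mul_sum, ← Finset.sum_sub_distrib]
    refine Finset.sum_congr rfl fun k _ => ?_
    ring
  simp only [e1]
  rw [integral_norm_sq_tr]
  calc ∑ k ∈ F.filter (onl T l), ‖(E k (toT h) -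
        cexp (2 * π * I * (kap T l 0 * h 0 + kap T l 1 * h 1 : ℝ))) * c k‖ ^ 2
      ≤ ∑ k ∈ F.filter (onl T l), (2 * π) ^ 2 * (h 0 ^ 2 + h 1 ^ 2) *
        (((dt k l.1 : ℝ) ^ 2 / (fq l.1 : ℝ)) * ‖c k‖ ^ 2) := by
        refine Finset.sum_le_sum fun k hk => ?_
        have hk' : cr k l.1 = l.2 * md T l.1 := (Finset.mem_filter.1 hk).2
        rw [norm_mul, mul_pow, ← mul_assoc]
        refine mul_le_mul_of_nonneg_right ?_ (sq_nonneg _)
        rw [E_toT]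
        have h1 := norm_exp_sub_exp_le ((k 0 : ℝ) * h 0 + (k 1 : ℝ) * h 1)
          (kap T l 0 * h 0 + kap T l 1 * h 1)
        have h2 := pow_le_pow_left₀ (norm_nonneg _) h1 2
        refine h2.trans ?_
        rw [mul_pow, sq_abs, mul_assoc]
        refine mul_le_mul_of_nonneg_left ?_ (by positivity)
        have e2 : ((k 0 : ℝ) - kap T l 0) ^ 2 + ((k 1 : ℝ) - kap T l 1) ^ 2 =
            (dt k l.1 : ℝ) ^ 2 / (fq l.1 : ℝ) := by
          have e3 : (dt k l.1 : ℝ) ^ 2 + (cr k l.1 : ℝ) ^ 2 = (fq k : ℝ) * (fq l.1 : ℝ) := by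
            exact_mod_cast dt_cr k l.1
          have e4 : kap T l 0 = (cr k l.1 : ℝ) / (fq l.1 : ℝ) * (l.1 1 : ℝ) := by
            unfold kap; rw [hk']; simp
          have e5 : kap T l 1 = -((cr k l.1 : ℝ) / (fq l.1 : ℝ) * (l.1 0 : ℝ)) := by
            unfold kap; rw [hk']; simp
          have e6 : (cr k l.1 : ℝ) = (k 0 : ℝ) * (l.1 1 : ℝ) - (k 1 : ℝ) * (l.1 0 : ℝ) := by
            unfold cr; push_cast; ring
          have e7 : (fq l.1 : ℝ) = (l.1 0 : ℝ) ^ 2 + (l.1 1 : ℝ) ^ 2 := by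
            unfold fq; push_cast; ring
          have e8 : (fq k : ℝ) = (k 0 : ℝ) ^ 2 + (k 1 : ℝ) ^ 2 := by
            unfold fq; push_cast; ring
          have e9 : (dt k l.1 : ℝ) ^ 2 = (fq k : ℝ) * (fq l.1 : ℝ) - (cr k l.1 : ℝ) ^ 2 := by
            linarith
          rw [e4, e5, e9]
          field_simp
          rw [e8]
          have : (cr k l.1 : ℝ) ^ 2 * ((l.1 0 : ℝ) ^ 2 + (l.1 1 : ℝ) ^ 2) =
            (cr k l.1 : ℝ) ^ 2 * (fq l.1 : ℝ) := by rw [e7]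
          have h7 : 2 * (cr k l.1 : ℝ) * ((k 0 : ℝ) * (l.1 1 : ℝ) - (k 1 : ℝ) * (l.1 0 : ℝ)) *
            (fq l.1 : ℝ) = 2 * (cr k l.1 : ℝ) * (cr k l.1 : ℝ) * (fq l.1 : ℝ) := by rw [← e6]
          nlinarith
        have e10 : ((k 0 : ℝ) * h 0 + (k 1 : ℝ) * h 1 - (kap T l 0 * h 0 + kap T l 1 * h 1)) ^ 2 ≤
            (h 0 ^ 2 + h 1 ^ 2) * (((k 0 : ℝ) - kap T l 0) ^ 2 + ((k 1 : ℝ) - kap T l 1) ^ 2) := by
          nlinarith [sq_nonneg (((k 0 : ℝ) - kap T l 0) * h 1 - ((k 1 : ℝ) - kap T l 1) * h 0)]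
        rw [e2] at e10
        exact e10
    _ = (2 * π) ^ 2 * (h 0 ^ 2 + h 1 ^ 2) *
        ∑ k ∈ F.filter (onl T l), ((dt k l.1 : ℝ) ^ 2 / (fq l.1 : ℝ)) * ‖c k‖ ^ 2 := by
        rw [Finset.mul_sum]
    _ ≤ (2 * π) ^ 2 * (h 0 ^ 2 + h 1 ^ 2) * R := mul_le_mul_of_nonneg_left hR (by positivity)
    _ = _ := by ring

/-- the rounding error -/
theorem round_bound (T : ℝ) (hT : 1 ≤ T) (l : Z2 × ℤ) (hl : l.2 = 1 ∨ l.2 = -1)
    (hd : 1 ≤ fq l.1) :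
    T ^ 2 - ((l.2 * md T l.1 : ℤ) : ℝ) ^ 2 / (fq l.1 : ℝ) ≤ 2 * T := by
  have hq : (1 : ℝ) ≤ (fq l.1 : ℝ) := by exact_mod_cast hd
  have hq0 : (0 : ℝ) < (fq l.1 : ℝ) := by linarith
  have e1 : ((l.2 * md T l.1 : ℤ) : ℝ) ^ 2 = (md T l.1 : ℝ) ^ 2 := by
    rcases hl with h | h <;> rw [h] <;> push_cast <;> ring
  rw [e1]
  set r := Real.sqrt (fq l.1 : ℝ) with hr
  have hr1 : 1 ≤ r := by rw [hr]; exact Real.one_le_sqrt.2 hq
  have hr2 : r ^ 2 = (fq l.1 : ℝ) := Real.sq_sqrt hq0.le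
  have h2 := abs_sub_round (T * r)
  have h3 : (md T l.1 : ℝ) = (round (T * r) : ℝ) := rfl
  rw [← h3] at h2
  obtain ⟨h4, h5⟩ := abs_le.1 h2
  have h6 : T * r - 1 / 2 ≤ (md T l.1 : ℝ) := by linarith
  have h7 : (T * r - 1 / 2) ^ 2 ≤ (md T l.1 : ℝ) ^ 2 := by
    have : 0 ≤ T * r - 1 / 2 := by nlinarith
    exact pow_le_pow_left₀ this h6 2
  rw [sub_le_iff_le_add, ← sub_le_iff_le_add', le_div_iff₀ hq0, ← hr2]
  have h8 : 0 ≤ T * r * (r - 1) :=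
    mul_nonneg (mul_nonneg (by linarith) (by linarith)) (by linarith)
  have h9 : 0 ≤ T * r ^ 2 := mul_nonneg (by linarith) (sq_nonneg _)
  nlinarith

/-- measure of the sublevel sets -/
theorem sublevel {n N : ℕ} {CS : ℝ}
    (hSL : ∀ (ι : Type) (s : Finset ι) (V : ι → Torus → ℂ)
      (κ : ι → Fin 2 → ℝ) (A B : ℝ), s.card = n → (∀ i ∈ s, Continuous (V i)) → 0 ≤ A → 0 < B →
      (∀ i ∈ s, ∀ h : Fin 2 → ℝ, ∫ x, ‖V i (x + toT h) -
        cexp (2 * π * I * (κ i 0 * h 0 + κ i 1 * h 1 : ℝ)) * V i x‖ ^ 2 ∂tmu ≤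
          A ^ 2 * (h 0 ^ 2 + h 1 ^ 2)) →
      (∀ i ∈ s, ∀ j ∈ s, i ≠ j → B ^ 2 ≤ (κ i 0 - κ j 0) ^ 2 + (κ i 1 - κ j 1) ^ 2) →
      ∀ (S : Set Torus), MeasurableSet S → ∀ i ∈ s, ∀ lam : ℝ, 0 < lam → (∀ x ∈ S, lam ≤ ‖V i x‖) →
        lam ^ 2 * (tmu.real S) ^ N ≤ CS * ((∫ x in S, ‖∑ j ∈ s, V j x‖ ^ 2 ∂tmu) + (A / B) ^ 2))
    (hCS : 0 < CS) {b : Torus → ℝ} {M : ℝ} (bm : Measurable b) (b0 : ∀ x, 0 ≤ b x)
    (bM : ∀ x, b x ≤ M)
    {𝒟 : Finset Z2} (hD : Dirs 𝒟) (hn : (Lines 𝒟).card = n) (T B : ℝ) (hT : 0 < T) (hB : 0 < B)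
    (hsep : ∀ l ∈ Lines 𝒟, ∀ l' ∈ Lines 𝒟, l ≠ l' →
      (B * T) ^ 2 ≤ (kap T l 0 - kap T l' 0) ^ 2 + (kap T l 1 - kap T l' 1) ^ 2)
    (F : Finset Z2) (c : Z2 → ℂ) (R : ℝ)
    (hR0 : 0 ≤ R)
    (hR : ∀ l ∈ Lines 𝒟, ∑ k ∈ F.filter (onl T l), ((dt k l.1 : ℝ) ^ 2 / (fq l.1 : ℝ)) * ‖c k‖ ^ 2 ≤
      R * T)
    (w e1 β lam : ℝ) (hβ : 0 < β) (hlam : 0 < lam)
    (hw : ∫ x, b x * ‖tr F c x‖ ^ 2 ∂tmu ≤ w)
    (he1 : ∫ x, ‖tr F c x - ∑ l ∈ Lines 𝒟, tr (F.filter (onl T l)) c x‖ ^ 2 ∂tmu ≤ e1)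
    (l : Z2 × ℤ) (hl : l ∈ Lines 𝒟) :
    lam ^ 2 * (tmu.real {x | β ≤ b x ∧ lam ≤ ‖tr (F.filter (onl T l)) c x‖}) ^ N ≤
      CS * (2 * w / β + 2 * e1 + 40 * R / (B ^ 2 * T)) := by
  have hLs : ∀ l ∈ Lines 𝒟, (l.2 = 1 ∨ l.2 = -1) ∧ 1 ≤ fq l.1 := by
    intro l hl
    unfold Lines at hl
    rw [Finset.mem_product] at hl
    refine ⟨by simpa using hl.2, fq_pos (hD.prim l.1 hl.1)⟩
  set S : Set Torus := {x | β ≤ b x ∧ lam ≤ ‖tr (F.filter (onl T l)) c x‖} with hS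
  have mS : MeasurableSet S :=
    (measurableSet_le measurable_const bm).inter
      (measurableSet_le measurable_const (continuous_tr _ _).norm.measurable)
  have h1 := hSL (Z2 × ℤ) (Lines 𝒟) (fun l => tr (F.filter (onl T l)) c) (kap T)
    (Real.sqrt ((2 * π) ^ 2 * (R * T))) (B * T) hn (fun _ _ => continuous_tr _ _)
    (Real.sqrt_nonneg _) (by positivity)
    (fun l hl h => line_lip T l (hLs l hl).2 F c (R * T) (hR l hl) h)
    hsep S mS l hl lam hlam (fun x hx => hx.2)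
  refine h1.trans (mul_le_mul_of_nonneg_left ?_ hCS.le)
  have h2 : (Real.sqrt ((2 * π) ^ 2 * (R * T)) / (B * T)) ^ 2 ≤ 40 * R / (B ^ 2 * T) := by
    rw [div_pow, Real.sq_sqrt (by positivity), div_le_div_iff₀ (by positivity) (by positivity)]
    have hpi : (2 * π) ^ 2 ≤ 40 := by
      have h3 : π < 3.15 := Real.pi_lt_d2
      have h4 : 0 < π := Real.pi_pos
      nlinarith
    calc (2 * π) ^ 2 * (R * T) * (B ^ 2 * T) = (2 * π) ^ 2 * (R * B ^ 2 * T ^ 2) := by ring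
      _ ≤ 40 * (R * B ^ 2 * T ^ 2) := mul_le_mul_of_nonneg_right hpi (by positivity)
      _ = _ := by ring
  have h3 : ∫ x in S, ‖∑ j ∈ Lines 𝒟, tr (F.filter (onl T j)) c x‖ ^ 2 ∂tmu ≤
      2 * w / β + 2 * e1 := by
    set W : Torus → ℂ := fun x => ∑ j ∈ Lines 𝒟, tr (F.filter (onl T j)) c x with hW
    have cW : Continuous W := continuous_finsetSum _ fun _ _ => continuous_tr _ _
    have cu : Continuous (tr F c) := continuous_tr _ _
    have hM : 0 ≤ M := (b0 0).trans (bM 0)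
    obtain ⟨C2, h20, h2⟩ := cont_bdd cu
    have ib : Integrable (fun x => b x * ‖tr F c x‖ ^ 2) tmu := by
      refine int_bdd (bm.mul (cu.norm.pow 2).measurable).aestronglyMeasurable
        (M * C2 ^ 2) fun x => ?_
      rw [Real.norm_of_nonneg (mul_nonneg (b0 x) (sq_nonneg _))]
      exact mul_le_mul (bM x) (pow_le_pow_left₀ (norm_nonneg _) (h2 x) 2) (sq_nonneg _) hM
    have i2 : Integrable (fun x => ‖tr F c x - W x‖ ^ 2) tmu := int_cont ((cu.sub cW).norm.pow 2)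
    have i3 : Integrable (fun x => (2 / β) * (b x * ‖tr F c x‖ ^ 2) +
        2 * ‖tr F c x - W x‖ ^ 2) tmu := (ib.const_mul _).add (i2.const_mul _)
    calc ∫ x in S, ‖W x‖ ^ 2 ∂tmu ≤ ∫ x in S, ((2 / β) * (b x * ‖tr F c x‖ ^ 2) +
          2 * ‖tr F c x - W x‖ ^ 2) ∂tmu := by
          refine setIntegral_mono_on (int_cont (cW.norm.pow 2)).integrableOn i3.integrableOn mS
            fun x hx => ?_
          have g1 : β ≤ b x := hx.1
          have g2 : ‖W x‖ ≤ ‖tr F c x‖ + ‖tr F c x - W x‖ := by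
            have := norm_sub_le (tr F c x) (tr F c x - W x)
            simpa using this
          have g3 : ‖W x‖ ^ 2 ≤ 2 * ‖tr F c x‖ ^ 2 + 2 * ‖tr F c x - W x‖ ^ 2 := by
            nlinarith [sq_nonneg (‖tr F c x‖ - ‖tr F c x - W x‖), norm_nonneg (W x)]
          have g4 : ‖tr F c x‖ ^ 2 ≤ (1 / β) * (b x * ‖tr F c x‖ ^ 2) := by
            rw [← mul_assoc, one_div_mul_eq_div]
            exact le_mul_of_one_le_left (sq_nonneg _) ((one_le_div hβ).2 g1)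
          have g5 : 2 * ‖tr F c x‖ ^ 2 ≤ (2 / β) * (b x * ‖tr F c x‖ ^ 2) := by
            calc 2 * ‖tr F c x‖ ^ 2 ≤ 2 * ((1 / β) * (b x * ‖tr F c x‖ ^ 2)) := by linarith
              _ = _ := by ring
          linarith
      _ ≤ ∫ x, ((2 / β) * (b x * ‖tr F c x‖ ^ 2) + 2 * ‖tr F c x - W x‖ ^ 2) ∂tmu := by
          refine setIntegral_le_integral i3 (Filter.Eventually.of_forall fun x => ?_)
          have := b0 x
          show 0 ≤ (2 / β) * (b x * ‖tr F c x‖ ^ 2) + 2 * ‖tr F c x - W x‖ ^ 2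
          positivity
      _ = (2 / β) * (∫ x, b x * ‖tr F c x‖ ^ 2 ∂tmu) + 2 * ∫ x, ‖tr F c x - W x‖ ^ 2 ∂tmu := by
          rw [integral_add (ib.const_mul _) (i2.const_mul _), integral_const_mul,
            integral_const_mul]
      _ ≤ (2 / β) * w + 2 * e1 := by
          refine add_le_add (mul_le_mul_of_nonneg_left hw (by positivity)) (by linarith)
      _ = _ := by ring
  linarith

end

end Pool.Agent.TH281.DW
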