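import Pool.Agent.TH281.DW.LineEst
import Pool.Agent.TH281.DW.Sub

/-!
# Damped waves on the flat 2-torus with rough damping: the high frequency estimate
-/

set_option autoImplicit false

open MeasureTheory Complex Filter Topology Set
open scoped ENNReal Real

namespace Pool.Agent.TH281.DW

noncomputable section

/-- the line estimate with constant `H` -/
def LP (b χ : Torus → ℝ) (d : Z2) (H : ℝ) : Prop :=
  ∀ (m : ℤ) (τ : ℝ) (F : Finset Z2) (c : Z2 → ℂ), ∑ k ∈ F, ‖c k‖ ^ 2 ≤ 1 →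
    ∀ X K lam : ℝ, 1 ≤ X → 1 ≤ K → X ^ 6 ≤ |τ| → St b τ F c ≤ (X ^ 2 / |τ|) ^ 2 →
    ∫ x, b x * ‖tr F c x‖ ^ 2 ∂tmu ≤ (X / |τ|) ^ 2 →
    1600 * ∑ k ∈ F, ((fq k : ℝ) - τ ^ 2) ^ 2 * ‖c k‖ ^ 2 ≤ K * X ^ 2 → 0 < lam →
    lam * X ^ 10 ≤ 1 →
    tmu.real {x | (X ^ 10)⁻¹ ≤ b x ∧
      lam ≤ ‖tr (F.filter (fun k => cr k d = m)) c x‖} ≤ K / X ^ 10 →
    ∀ e, 0 ≤ e → ∫ x, χ x * ‖tr (F.filter (fun k => cr k d = m)) c x‖ ^ 2 ∂tmu ≤ e →
    ∑ k ∈ F.filter (fun k => cr k d = m), ‖c k‖ ^ 2 ≤ H * (e + K ^ 2 / X ^ 3)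

theorem LP.mono {b χ : Torus → ℝ} {d : Z2} {H H' : ℝ} (h : LP b χ d H) (hH : H ≤ H') :
    LP b χ d H' := by
  intro m τ F c hc X K lam hX hK hXτ hSt hbu hG hlam hlamX hS e he hb
  refine (h m τ F c hc X K lam hX hK hXτ hSt hbu hG hlam hlamX hS e he hb).trans ?_
  exact mul_le_mul_of_nonneg_right hH (by positivity)

theorem line_unif (L1 : TaskL1) (L2 : TaskL2) (L3 : TaskL3) (L4 : TaskL4) (L5 : TaskL5)
    (Tr1 : TaskTr1) (Tr2 : TaskTr2) (Bump : TaskBump) {b : Torus → ℝ} {M : ℝ}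
    (bm : Measurable b) (b0 : ∀ x, 0 ≤ b x) (bM : ∀ x, b x ≤ M) (M1 : 1 ≤ M) {χ : Torus → ℝ}
    (cχ : Continuous χ) (χ0 : ∀ x, 0 ≤ χ x) (χi : 0 < ∫ x, χ x ∂tmu)
    {d : Z2} (hd : IsCoprime (d 0) (d 1)) : ∃ H : ℝ, 0 < H ∧ LP b χ d H := by
  obtain ⟨a, θ, θ1, θ2, ha, hθ, hθ1, hθ2, pa, pθ, pθ1, θ0, θi, CB, CB0, hB⟩ :=
    Bump d hd χ cχ χ0 χi
  have cθ : Continuous θ := continuous_iff_continuousAt.2 fun s => (hθ s).continuousAt
  have ca : Continuous a := continuous_iff_continuousAt.2 fun s => (ha s).continuousAt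
  obtain ⟨Ca, hCa⟩ := (isCompact_Icc (a := (0 : ℝ)) (b := 1)).exists_bound_of_continuousOn
    ca.continuousOn
  obtain ⟨Ct, hCt⟩ := (isCompact_Icc (a := (0 : ℝ)) (b := 1)).exists_bound_of_continuousOn
    cθ.continuousOn
  have hCa0 : 0 ≤ Ca := (norm_nonneg _).trans (hCa 0 (by simp))
  have hCt0 : 0 ≤ Ct := (norm_nonneg _).trans (hCt 0 (by simp))
  set h : ℝ := 1 + Ca + Ct with hh
  refine ⟨12 * (CB + 200 * h * M), by positivity, ?_⟩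
  intro m τ F c hc X K lam hX hK hXτ hSt hbu hG hlam hlamX hS e he hb
  have h1 := hB m (F.filter (fun k => cr k d = m)) c (fun k hk => (Finset.mem_filter.1 hk).2)
  have h2 : ∫ s in (0 : ℝ)..1, (θ s + |θ2 s|) *
      ‖yv (F.filter (fun k => cr k d = m)) c d s‖ ^ 2 ≤ CB * e :=
    h1.trans (mul_le_mul_of_nonneg_left hb CB0.le)
  have h3 := line_est L1 L2 L3 L4 L5 Tr1 Tr2 bm b0 bM M1 hd m τ F c hc X K lam hX hK hXτ hSt hbu
    hG hlam hlamX hS ha hθ hθ1 hθ2 pa pθ pθ1 θ0 θi h (by linarith)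
    (fun s hs => (hCa s hs).trans (by linarith)) (fun s hs => (hCt s hs).trans (by linarith))
    (CB * e) (by positivity) h2
  refine h3.trans ?_
  have h4 : 0 ≤ K ^ 2 / X ^ 3 := by positivity
  have h5 : 200 * h * M * K ^ 2 / X ^ 3 = 200 * h * M * (K ^ 2 / X ^ 3) := by ring
  rw [h5]
  have h6 : 0 ≤ 200 * h * M * e := by positivity
  have h7 : 0 ≤ CB * (K ^ 2 / X ^ 3) := by positivity
  have h8 : 12 * (CB + 200 * h * M) * (e + K ^ 2 / X ^ 3) =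
      12 * (CB * e + 200 * h * M * (K ^ 2 / X ^ 3)) + 12 * (200 * h * M * e) +
        12 * (CB * (K ^ 2 / X ^ 3)) := by ring
  rw [h8]
  linarith

theorem St_smul (b : Torus → ℝ) (τ : ℝ) (F : Finset Z2) (c : Z2 → ℂ) (r : ℝ) :
    St b τ F (fun k => (r : ℂ) * c k) = r ^ 2 * St b τ F c := by
  unfold St
  rw [← integral_const_mul]
  refine integral_congr_ae (Filter.Eventually.of_forall fun x => ?_)
  show ‖tr F (fun k => (((fq k : ℝ) - τ ^ 2 : ℝ) : ℂ) * ((r : ℂ) * c k)) x +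
    (((τ * b x : ℝ) : ℂ) * I) * tr F (fun k => (r : ℂ) * c k) x‖ ^ 2 = _
  have h1 : ∀ cc : Z2 → ℂ, tr F (fun k => (r : ℂ) * cc k) x = (r : ℂ) * tr F cc x := by
    intro cc
    unfold tr
    rw [Finset.mul_sum]
    refine Finset.sum_congr rfl fun k _ => ?_
    ring
  have h2 : tr F (fun k => (((fq k : ℝ) - τ ^ 2 : ℝ) : ℂ) * ((r : ℂ) * c k)) x =
      (r : ℂ) * tr F (fun k => (((fq k : ℝ) - τ ^ 2 : ℝ) : ℂ) * c k) x := by
    rw [← h1]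
    unfold tr
    refine Finset.sum_congr rfl fun k _ => ?_
    ring
  rw [h1, h2]
  have h3 : (r : ℂ) * tr F (fun k => (((fq k : ℝ) - τ ^ 2 : ℝ) : ℂ) * c k) x +
      (((τ * b x : ℝ) : ℂ) * I) * ((r : ℂ) * tr F c x) =
      (r : ℂ) * (tr F (fun k => (((fq k : ℝ) - τ ^ 2 : ℝ) : ℂ) * c k) x +
      (((τ * b x : ℝ) : ℂ) * I) * tr F c x) := by ring
  rw [h3, norm_mul, mul_pow, Complex.norm_real, Real.norm_eq_abs, sq_abs]

/-- mass outside the annulus -/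
theorem mass_out (T : ℝ) (F : Finset Z2) (c : Z2 → ℂ) (Y G : ℝ) (hY : 0 < Y)
    (hTY : T ^ (1 / 8 : ℝ) = Y) (P : Z2 → Prop) [DecidablePred P] (hP : ∀ k, P k → ¬ An T k)
    (hG : ∑ k ∈ F, ((fq k : ℝ) - T ^ 2) ^ 2 * ‖c k‖ ^ 2 ≤ G) :
    ∑ k ∈ F.filter P, ‖c k‖ ^ 2 ≤ G / Y ^ 2 := by
  rw [le_div_iff₀ (by positivity), Finset.sum_mul]
  refine le_trans (Finset.sum_le_sum fun k hk => ?_)
    ((Finset.sum_le_sum_of_subset_of_nonneg (Finset.filter_subset P F)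
      fun k _ _ => by positivity).trans hG)
  have h1 := hP k (Finset.mem_filter.1 hk).2
  unfold An at h1
  rw [hTY, not_le] at h1
  have h2 : Y ^ 2 ≤ ((fq k : ℝ) - T ^ 2) ^ 2 := by
    rw [← sq_abs ((fq k : ℝ) - T ^ 2)]
    exact pow_le_pow_left₀ hY.le h1.le 2
  rw [mul_comm]
  exact mul_le_mul_of_nonneg_right h2 (sq_nonneg _)

/-- the Lipschitz constants of the lines -/
theorem lip_const (T : ℝ) (hT : 1 ≤ T) (l : Z2 × ℤ) (hl : l.2 = 1 ∨ l.2 = -1) (hd : 1 ≤ fq l.1)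
    (F : Finset Z2) (c : Z2 → ℂ) (hc : ∑ k ∈ F, ‖c k‖ ^ 2 ≤ 1) (G : ℝ)
    (hG : ∑ k ∈ F, ((fq k : ℝ) - T ^ 2) ^ 2 * ‖c k‖ ^ 2 ≤ G) :
    ∑ k ∈ F.filter (onl T l), ((dt k l.1 : ℝ) ^ 2 / (fq l.1 : ℝ)) * ‖c k‖ ^ 2 ≤ 1 + 2 * T + G := by
  have hq : (0 : ℝ) < (fq l.1 : ℝ) := by exact_mod_cast hd
  have h1 := round_bound T hT l hl hd
  calc ∑ k ∈ F.filter (onl T l), ((dt k l.1 : ℝ) ^ 2 / (fq l.1 : ℝ)) * ‖c k‖ ^ 2
      ≤ ∑ k ∈ F.filter (onl T l), ((1 + 2 * T) * ‖c k‖ ^ 2 +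
          ((fq k : ℝ) - T ^ 2) ^ 2 * ‖c k‖ ^ 2) := by
        refine Finset.sum_le_sum fun k hk => ?_
        have hk' : cr k l.1 = l.2 * md T l.1 := (Finset.mem_filter.1 hk).2
        rw [← add_mul]
        refine mul_le_mul_of_nonneg_right ?_ (sq_nonneg _)
        have e3 : (dt k l.1 : ℝ) ^ 2 + (cr k l.1 : ℝ) ^ 2 = (fq k : ℝ) * (fq l.1 : ℝ) := by
          exact_mod_cast dt_cr k l.1
        have e4 : (dt k l.1 : ℝ) ^ 2 / (fq l.1 : ℝ) =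
            (fq k : ℝ) - ((l.2 * md T l.1 : ℤ) : ℝ) ^ 2 / (fq l.1 : ℝ) := by
          rw [← hk']
          rw [show (dt k l.1 : ℝ) ^ 2 = (fq k : ℝ) * (fq l.1 : ℝ) - (cr k l.1 : ℝ) ^ 2 by linarith]
          field_simp
        rw [e4]
        nlinarith [sq_nonneg ((fq k : ℝ) - T ^ 2 - 1)]
    _ = (1 + 2 * T) * ∑ k ∈ F.filter (onl T l), ‖c k‖ ^ 2 +
          ∑ k ∈ F.filter (onl T l), ((fq k : ℝ) - T ^ 2) ^ 2 * ‖c k‖ ^ 2 := by
        rw [Finset.sum_add_distrib, Finset.mul_sum]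
    _ ≤ (1 + 2 * T) * 1 + G := by
        refine add_le_add (mul_le_mul_of_nonneg_left ?_ (by linarith)) ?_
        · exact (Finset.sum_le_sum_of_subset_of_nonneg (Finset.filter_subset _ _)
            fun _ _ _ => sq_nonneg _).trans hc
        · exact (Finset.sum_le_sum_of_subset_of_nonneg (Finset.filter_subset _ _)
            fun _ _ _ => by positivity).trans hG
    _ = _ := by ring

/-- adding up the lines -/
theorem sum_lines (𝒟 : Finset Z2) (T : ℝ) (F : Finset Z2) (c : Z2 → ℂ) (e1 Z : ℝ)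
    (hc : ∑ k ∈ F, ‖c k‖ ^ 2 = 1)
    (he1 : ∫ x, ‖tr F c x - ∑ l ∈ Lines 𝒟, tr (F.filter (onl T l)) c x‖ ^ 2 ∂tmu ≤ e1)
    (hZ : ∀ l ∈ Lines 𝒟, ∑ k ∈ F.filter (onl T l), ‖c k‖ ^ 2 ≤ Z) :
    1 ≤ 2 * e1 + 2 * ((Lines 𝒟).card : ℝ) ^ 2 * Z := by
  set W : Torus → ℂ := fun x => ∑ j ∈ Lines 𝒟, tr (F.filter (onl T j)) c x with hW
  have cW : Continuous W := continuous_finsetSum _ fun _ _ => continuous_tr _ _
  have cu : Continuous (tr F c) := continuous_tr _ _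
  have i2 : Integrable (fun x => ‖tr F c x - W x‖ ^ 2) tmu := int_cont ((cu.sub cW).norm.pow 2)
  have i4 : ∀ l, Integrable (fun x => ‖tr (F.filter (onl T l)) c x‖ ^ 2) tmu :=
    fun l => int_cont ((continuous_tr _ _).norm.pow 2)
  have i5 : Integrable (fun x => ∑ l ∈ Lines 𝒟, ‖tr (F.filter (onl T l)) c x‖ ^ 2) tmu :=
    integrable_finsetSum _ fun l _ => i4 l
  rw [← hc, ← integral_norm_sq_tr]
  calc ∫ x, ‖tr F c x‖ ^ 2 ∂tmu ≤ ∫ x, (2 * ‖tr F c x - W x‖ ^ 2 +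
        2 * ((Lines 𝒟).card : ℝ) * ∑ l ∈ Lines 𝒟, ‖tr (F.filter (onl T l)) c x‖ ^ 2) ∂tmu := by
        refine integral_mono (int_cont (cu.norm.pow 2))
          ((i2.const_mul _).add (i5.const_mul _)) fun x => ?_
        show ‖tr F c x‖ ^ 2 ≤ 2 * ‖tr F c x - W x‖ ^ 2 +
          2 * ((Lines 𝒟).card : ℝ) * ∑ l ∈ Lines 𝒟, ‖tr (F.filter (onl T l)) c x‖ ^ 2
        have g1 : ‖W x‖ ^ 2 ≤
            ((Lines 𝒟).card : ℝ) * ∑ l ∈ Lines 𝒟, ‖tr (F.filter (onl T l)) c x‖ ^ 2 := by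
          refine (pow_le_pow_left₀ (norm_nonneg _) (norm_sum_le _ _) 2).trans ?_
          exact sq_sum_le_card_mul_sum_sq
        have g2 : ‖tr F c x‖ ≤ ‖tr F c x - W x‖ + ‖W x‖ := by
          have := norm_add_le (tr F c x - W x) (W x)
          simpa using this
        nlinarith [sq_nonneg (‖tr F c x - W x‖ - ‖W x‖), norm_nonneg (tr F c x)]
    _ = 2 * (∫ x, ‖tr F c x - W x‖ ^ 2 ∂tmu) +
        2 * ((Lines 𝒟).card : ℝ) * ∑ l ∈ Lines 𝒟, ∫ x, ‖tr (F.filter (onl T l)) c x‖ ^ 2 ∂tmu := by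
        rw [integral_add (i2.const_mul _) (i5.const_mul _), integral_const_mul,
          integral_const_mul, integral_finsetSum _ fun l _ => i4 l]
    _ ≤ 2 * e1 + 2 * ((Lines 𝒟).card : ℝ) * (((Lines 𝒟).card : ℝ) * Z) := by
        refine add_le_add (by linarith) (mul_le_mul_of_nonneg_left ?_ (by positivity))
        rw [← nsmul_eq_mul]
        refine Finset.sum_le_card_nsmul _ _ _ fun l hl => ?_
        rw [integral_norm_sq_tr]
        exact hZ l hl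
    _ = _ := by ring

/-- the core estimate -/
theorem core {b χ : Torus → ℝ} {M : ℝ} {U : Set Torus} {c0 : ℝ} (D : Damp b M U c0)
    (cχ : Continuous χ) (χ1 : ∀ x, χ x ≤ 1) (χU : ∀ x, x ∉ U → χ x = 0)
    {𝒟 : Finset Z2} (hD : Dirs 𝒟) {CF : ℝ} (CF0 : 0 < CF)
    {B : ℝ} (B0 : 0 < B) {CS : ℝ} (CS0 : 0 < CS) {N : ℕ} (N1 : 1 ≤ N)
    (hSL : ∀ (ι : Type) (s : Finset ι) (V : ι → Torus → ℂ)
      (κ : ι → Fin 2 → ℝ) (A B : ℝ), s.card = (Lines 𝒟).card → (∀ i ∈ s, Continuous (V i)) →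
      0 ≤ A → 0 < B →
      (∀ i ∈ s, ∀ h : Fin 2 → ℝ, ∫ x, ‖V i (x + toT h) -
        cexp (2 * π * I * (κ i 0 * h 0 + κ i 1 * h 1 : ℝ)) * V i x‖ ^ 2 ∂tmu ≤
          A ^ 2 * (h 0 ^ 2 + h 1 ^ 2)) →
      (∀ i ∈ s, ∀ j ∈ s, i ≠ j → B ^ 2 ≤ (κ i 0 - κ j 0) ^ 2 + (κ i 1 - κ j 1) ^ 2) →
      ∀ (S : Set Torus), MeasurableSet S → ∀ i ∈ s, ∀ lam : ℝ, 0 < lam → (∀ x ∈ S, lam ≤ ‖V i x‖) →
        lam ^ 2 * (tmu.real S) ^ N ≤ CS * ((∫ x in S, ‖∑ j ∈ s, V j x‖ ^ 2 ∂tmu) + (A / B) ^ 2))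
    {H : ℝ} (H0 : 0 < H) (hH : ∀ d ∈ 𝒟, LP b χ d H)
    {C0 R C1 K C2 : ℝ} (hC0 : C0 = 1 + 4 * M + c0⁻¹) (hR : R = 4 * M + 3)
    (hC1 : C1 = CS * (2 + 2 * CF * C0 + 40 * R / B ^ 2)) (hK : K = 6400 * M + C1)
    (hC2 : C2 = 2 * CF * C0 + 2 * ((Lines 𝒟).card : ℝ) ^ 2 * (H * (CF * C0 + K ^ 2)))
    (τ T X : ℝ) (hT : |τ| = T) (X1 : 1 ≤ X) (hXT : X ^ (800 * N) = T)
    (F : Finset Z2) (c : Z2 → ℂ) (hc : ∑ k ∈ F, ‖c k‖ ^ 2 = 1)
    (hFr : ∀ e0 : ℝ, T ^ (-(1 / 8) : ℝ) ≤ e0 →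
      (∀ (P : Z2 → Prop) [DecidablePred P], (∀ k, P k → ¬ An T k) →
        ∑ k ∈ F.filter P, ‖c k‖ ^ 2 ≤ e0) →
      ∫ x, χ x * ‖tr F c x‖ ^ 2 ∂tmu ≤ e0 →
      (∀ l ∈ Lines 𝒟, ∫ x, χ x * ‖tr (F.filter (onl T l)) c x‖ ^ 2 ∂tmu ≤ CF * e0) ∧
      ∫ x, ‖tr F c x - ∑ l ∈ Lines 𝒟, tr (F.filter (onl T l)) c x‖ ^ 2 ∂tmu ≤ CF * e0)
    (hsep : ∀ l ∈ Lines 𝒟, ∀ l' ∈ Lines 𝒟, l ≠ l' →
      (B * T) ^ 2 ≤ (kap T l 0 - kap T l' 0) ^ 2 + (kap T l 1 - kap T l' 1) ^ 2)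
    (hSt : St b τ F c ≤ (X ^ 2 / T) ^ 2) : X ^ 3 ≤ C2 := by
  have bm := D.meas
  have b0 := D.nonneg
  have bM := D.le
  have M1 := D.one_le
  have c00 := D.pos
  have X0 : 0 < X := by linarith
  have xp : ∀ j : ℕ, 1 ≤ X ^ j := fun j => one_le_pow₀ X1
  have T1 : 1 ≤ T := hXT ▸ xp _
  have T0 : 0 < T := by linarith
  have hτ2 : τ ^ 2 = T ^ 2 := by rw [← hT, sq_abs]
  have hc' : ∑ k ∈ F, ‖c k‖ ^ 2 ≤ 1 := hc.le
  -- powers of `X`
  set Y : ℝ := X ^ (100 * N) with hY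
  have Y1 : 1 ≤ Y := xp _
  have Y0 : 0 < Y := by linarith
  have hTY : T ^ (1 / 8 : ℝ) = Y := by
    rw [← hXT, hY, ← Real.rpow_natCast, ← Real.rpow_natCast, ← Real.rpow_mul X0.le]
    congr 1
    push_cast
    ring
  have hTY' : T ^ (-(1 / 8) : ℝ) = 1 / Y := by
    rw [Real.rpow_neg T0.le, hTY, one_div]
  have pw : ∀ i j : ℕ, i ≤ j → X ^ i ≤ X ^ j := fun i j hij => pow_le_pow_right₀ X1 hij
  have X2T : X ^ 2 ≤ T := hXT ▸ pw _ _ (by omega)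
  have X6T : X ^ 6 ≤ T := hXT ▸ pw _ _ (by omega)
  have X2Y : X ^ 2 ≤ Y := hY ▸ pw _ _ (by omega)
  have X3Y : X ^ 3 ≤ Y := hY ▸ pw _ _ (by omega)
  have YT : Y ≤ T := by rw [hY, ← hXT]; exact pw _ _ (by omega)
  have X12T : X ^ 12 ≤ T := hXT ▸ pw _ _ (by omega)
  -- step 1
  have s1 : ∫ x, b x * ‖tr F c x‖ ^ 2 ∂tmu ≤ (X / T) ^ 2 := by
    have h1 := step1 bm b0 bM τ F c
    rw [hT, hc, Real.sqrt_one, mul_one] at h1
    have h2 : Real.sqrt (St b τ F c) ≤ X ^ 2 / T := by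
      rw [Real.sqrt_le_left (by positivity)]; exact hSt
    have h3 := h1.trans h2
    rw [div_pow, le_div_iff₀ (by positivity)]
    calc (∫ x, b x * ‖tr F c x‖ ^ 2 ∂tmu) * T ^ 2 =
        T * (T * ∫ x, b x * ‖tr F c x‖ ^ 2 ∂tmu) := by ring
      _ ≤ T * (X ^ 2 / T) := mul_le_mul_of_nonneg_left h3 T0.le
      _ = X ^ 2 := by field_simp
  -- step 2
  have s2 : ∑ k ∈ F, ((fq k : ℝ) - τ ^ 2) ^ 2 * ‖c k‖ ^ 2 ≤ 4 * M * X ^ 2 := by
    have h1 := step2 bm b0 bM τ F c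
    have h2 : 2 * M * τ ^ 2 * ∫ x, b x * ‖tr F c x‖ ^ 2 ∂tmu ≤ 2 * M * X ^ 2 := by
      calc 2 * M * τ ^ 2 * ∫ x, b x * ‖tr F c x‖ ^ 2 ∂tmu ≤ 2 * M * τ ^ 2 * (X / T) ^ 2 :=
            mul_le_mul_of_nonneg_left s1 (by positivity)
        _ = 2 * M * X ^ 2 := by rw [hτ2]; field_simp
    have h3 : (X ^ 2 / T) ^ 2 ≤ X ^ 2 := by
      rw [div_pow, div_le_iff₀ (by positivity)]
      calc (X ^ 2) ^ 2 = X ^ 2 * X ^ 2 := by ring
        _ ≤ X ^ 2 * T ^ 2 := by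
            exact mul_le_mul_of_nonneg_left (X2T.trans (n_sq T1)) (by positivity)
    have h4 : 0 ≤ X ^ 2 := by positivity
    have h5 : X ^ 2 ≤ M * X ^ 2 := le_mul_of_one_le_left h4 M1
    linarith
  have s2' : ∑ k ∈ F, ((fq k : ℝ) - T ^ 2) ^ 2 * ‖c k‖ ^ 2 ≤ 4 * M * X ^ 2 := by
    rw [← hτ2]; exact s2
  -- the error size
  have C00 : 0 < C0 := by rw [hC0]; positivity
  set e0 : ℝ := C0 / Y with he0
  have e00 : 0 < e0 := by positivity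
  have e0X : e0 ≤ C0 / X ^ 3 := div_le_div_of_nonneg_left C00.le (by positivity) X3Y
  have f1 : T ^ (-(1 / 8) : ℝ) ≤ e0 := by
    rw [hTY', he0]
    refine div_le_div_of_nonneg_right ?_ Y0.le
    rw [hC0]
    have : 0 < c0⁻¹ := by positivity
    linarith
  have f2 : ∀ (P : Z2 → Prop) [DecidablePred P], (∀ k, P k → ¬ An T k) →
      ∑ k ∈ F.filter P, ‖c k‖ ^ 2 ≤ e0 := by
    intro P _ hP
    refine (mass_out T F c Y (4 * M * X ^ 2) Y0 hTY P hP s2').trans ?_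
    rw [he0, div_le_div_iff₀ (by positivity) Y0]
    have g1 : 4 * M * X ^ 2 * Y ≤ 4 * M * Y * Y :=
      mul_le_mul_of_nonneg_right (mul_le_mul_of_nonneg_left X2Y (by linarith)) Y0.le
    have g2 : 4 * M ≤ C0 := by
      rw [hC0]
      have : 0 < c0⁻¹ := by positivity
      linarith
    have g3 : 4 * M * (Y * Y) ≤ C0 * (Y * Y) := mul_le_mul_of_nonneg_right g2 (by positivity)
    calc 4 * M * X ^ 2 * Y ≤ 4 * M * Y * Y := g1
      _ = 4 * M * (Y * Y) := by ring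
      _ ≤ C0 * (Y * Y) := g3
      _ = C0 * Y ^ 2 := by ring
  have f3 : ∫ x, χ x * ‖tr F c x‖ ^ 2 ∂tmu ≤ e0 := by
    have cu : Continuous (tr F c) := continuous_tr _ _
    obtain ⟨Cu, hu0, hu⟩ := cont_bdd cu
    have hM : 0 ≤ M := by linarith
    have ib : Integrable (fun x => b x * ‖tr F c x‖ ^ 2) tmu := by
      refine int_bdd (bm.mul (cu.norm.pow 2).measurable).aestronglyMeasurable
        (M * Cu ^ 2) fun x => ?_
      rw [Real.norm_of_nonneg (mul_nonneg (b0 x) (sq_nonneg _))]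
      exact mul_le_mul (bM x) (pow_le_pow_left₀ (norm_nonneg _) (hu x) 2) (sq_nonneg _) hM
    have g1 : ∫ x, χ x * ‖tr F c x‖ ^ 2 ∂tmu ≤ ∫ x, c0⁻¹ * (b x * ‖tr F c x‖ ^ 2) ∂tmu := by
      refine integral_mono (int_cont (cχ.mul (cu.norm.pow 2))) (ib.const_mul _) fun x => ?_
      show χ x * ‖tr F c x‖ ^ 2 ≤ c0⁻¹ * (b x * ‖tr F c x‖ ^ 2)
      rw [← mul_assoc]
      refine mul_le_mul_of_nonneg_right ?_ (sq_nonneg _)
      by_cases hx : x ∈ U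
      · refine (χ1 x).trans ?_
        have := D.low x hx
        rw [inv_mul_eq_div]
        exact (one_le_div c00).2 this
      · rw [χU x hx]
        have := b0 x
        positivity
    rw [integral_const_mul] at g1
    refine g1.trans ?_
    have g2 : (X / T) ^ 2 ≤ 1 / Y := by
      rw [div_pow, div_le_div_iff₀ (by positivity) Y0, one_mul]
      calc X ^ 2 * Y ≤ T * T := mul_le_mul X2T YT Y0.le T0.le
        _ = T ^ 2 := by ring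
    calc c0⁻¹ * ∫ x, b x * ‖tr F c x‖ ^ 2 ∂tmu ≤ c0⁻¹ * (1 / Y) :=
          mul_le_mul_of_nonneg_left (s1.trans g2) (by positivity)
      _ = c0⁻¹ / Y := by ring
      _ ≤ C0 / Y := by
          refine div_le_div_of_nonneg_right ?_ Y0.le
          rw [hC0]; linarith
  obtain ⟨q1, q2⟩ := hFr e0 f1 f2 f3
  -- constants
  have R0 : 0 < R := by rw [hR]; linarith
  have C10 : 0 < C1 := by rw [hC1]; positivity
  have K1 : 1 ≤ K := by rw [hK]; linarith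
  have K0 : 0 < K := by linarith
  have KC1 : C1 ≤ K := by rw [hK]; linarith
  have KM : 6400 * M ≤ K := by rw [hK]; linarith
  have hLs : ∀ l ∈ Lines 𝒟, l.1 ∈ 𝒟 ∧ (l.2 = 1 ∨ l.2 = -1) ∧ 1 ≤ fq l.1 := by
    intro l hl
    unfold Lines at hl
    rw [Finset.mem_product] at hl
    exact ⟨hl.1, by simpa using hl.2, fq_pos (hD.prim l.1 hl.1)⟩
  have hlip : ∀ l ∈ Lines 𝒟,
      ∑ k ∈ F.filter (onl T l), ((dt k l.1 : ℝ) ^ 2 / (fq l.1 : ℝ)) * ‖c k‖ ^ 2 ≤ R * T := by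
    intro l hl
    refine (lip_const T T1 l (hLs l hl).2.1 (hLs l hl).2.2 F c hc' _ s2').trans ?_
    rw [hR]
    have g1 : 4 * M * X ^ 2 ≤ 4 * M * T := mul_le_mul_of_nonneg_left X2T (by linarith)
    linarith
  set lam : ℝ := 1 / X ^ (25 * N) with hlam
  have lam0 : 0 < lam := by positivity
  have hlamX : lam * X ^ 10 ≤ 1 := by
    rw [hlam, one_div_mul_eq_div, div_le_one (by positivity)]
    exact pw _ _ (by omega)
  have hlam2 : lam ^ 2 = 1 / X ^ (50 * N) := by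
    rw [hlam, div_pow, one_pow, ← pow_mul]
    congr 2
    ring
  have hmu : ∀ l ∈ Lines 𝒟, tmu.real {x | (X ^ 10)⁻¹ ≤ b x ∧
      lam ≤ ‖tr (F.filter (onl T l)) c x‖} ≤ K / X ^ 10 := by
    intro l hl
    have h1 := sublevel hSL CS0 bm b0 bM hD rfl T B T0 B0 hsep F c R R0.le hlip ((X / T) ^ 2)
      (CF * e0) (X ^ 10)⁻¹ lam (by positivity) lam0 s1 q2 l hl
    set μS := tmu.real {x | (X ^ 10)⁻¹ ≤ b x ∧ lam ≤ ‖tr (F.filter (onl T l)) c x‖} with hμS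
    have hμ0 : 0 ≤ μS := measureReal_nonneg
    have h2 : 2 * (X / T) ^ 2 / (X ^ 10)⁻¹ ≤ 2 / Y := by
      have : 2 * (X / T) ^ 2 / (X ^ 10)⁻¹ = 2 * X ^ 12 / T ^ 2 := by field_simp
      rw [this, div_le_div_iff₀ (by positivity) Y0]
      have : X ^ 12 * Y ≤ T * T := mul_le_mul X12T YT Y0.le T0.le
      calc 2 * X ^ 12 * Y = 2 * (X ^ 12 * Y) := by ring
        _ ≤ 2 * (T * T) := mul_le_mul_of_nonneg_left this (by norm_num)
        _ = 2 * T ^ 2 := by ring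
    have h3 : 40 * R / (B ^ 2 * T) ≤ (40 * R / B ^ 2) / Y := by
      rw [div_div]
      exact div_le_div_of_nonneg_left (by positivity) (by positivity)
        (mul_le_mul_of_nonneg_left YT (by positivity))
    have h4 : CS * (2 * (X / T) ^ 2 / (X ^ 10)⁻¹ + 2 * (CF * e0) + 40 * R / (B ^ 2 * T)) ≤
        C1 / Y := by
      have h5 : 2 * (CF * e0) = (2 * CF * C0) / Y := by rw [he0]; ring
      rw [h5]
      calc _ ≤ CS * (2 / Y + (2 * CF * C0) / Y + (40 * R / B ^ 2) / Y) :=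
            mul_le_mul_of_nonneg_left (by linarith) CS0.le
        _ = C1 / Y := by rw [hC1]; ring
    have h6 : μS ^ N ≤ C1 / X ^ (50 * N) := by
      have h7 := h1.trans h4
      rw [hlam2, one_div_mul_eq_div, div_le_div_iff₀ (by positivity) Y0] at h7
      rw [le_div_iff₀ (by positivity)]
      have h8 : Y = X ^ (50 * N) * X ^ (50 * N) := by rw [hY, ← pow_add]; congr 1; ring
      rw [h8] at h7
      have h9 : 0 < X ^ (50 * N) := by positivity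
      have h10 : (μS ^ N * X ^ (50 * N)) * X ^ (50 * N) ≤ C1 * X ^ (50 * N) := by
        calc (μS ^ N * X ^ (50 * N)) * X ^ (50 * N) =
            μS ^ N * (X ^ (50 * N) * X ^ (50 * N)) := by ring
          _ ≤ _ := h7
      exact le_of_mul_le_mul_right h10 h9
    have h10 : μS ^ N ≤ (K / X ^ 10) ^ N := by
      refine h6.trans ?_
      rw [div_pow, ← pow_mul, div_le_div_iff₀ (by positivity) (by positivity)]
      exact mul_le_mul (KC1.trans (le_self_pow₀ K1 (by omega))) (pw _ _ (by omega))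
        (by positivity) (by positivity)
    exact le_of_pow_le_pow_left₀ (by omega) (by positivity) h10
  -- the lines
  have hG : 1600 * ∑ k ∈ F, ((fq k : ℝ) - τ ^ 2) ^ 2 * ‖c k‖ ^ 2 ≤ K * X ^ 2 := by
    have : 6400 * M * X ^ 2 ≤ K * X ^ 2 := mul_le_mul_of_nonneg_right KM (by positivity)
    linarith
  have hZ : ∀ l ∈ Lines 𝒟, ∑ k ∈ F.filter (onl T l), ‖c k‖ ^ 2 ≤
      H * (CF * C0 + K ^ 2) / X ^ 3 := by
    intro l hl
    have h1 := hH l.1 (hLs l hl).1 (l.2 * md T l.1) τ F c hc' X K lam X1 K1 (hT ▸ X6T)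
      (hT ▸ hSt) (hT ▸ s1) hG lam0 hlamX (hmu l hl) (CF * e0) (by positivity) (q1 l hl)
    refine (show ∑ k ∈ F.filter (onl T l), ‖c k‖ ^ 2 ≤ H * (CF * e0 + K ^ 2 / X ^ 3) from h1).trans ?_
    have h2 : CF * e0 ≤ CF * C0 / X ^ 3 := by
      rw [mul_div_assoc]; exact mul_le_mul_of_nonneg_left e0X CF0.le
    calc H * (CF * e0 + K ^ 2 / X ^ 3) ≤ H * (CF * C0 / X ^ 3 + K ^ 2 / X ^ 3) :=
          mul_le_mul_of_nonneg_left (by linarith) H0.le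
      _ = _ := by ring
  have h1 := sum_lines 𝒟 T F c (CF * e0) _ hc q2 hZ
  have h2 : 2 * (CF * e0) ≤ 2 * CF * C0 / X ^ 3 := by
    have := mul_le_mul_of_nonneg_left e0X (show 0 ≤ 2 * CF by linarith)
    calc 2 * (CF * e0) = 2 * CF * e0 := by ring
      _ ≤ 2 * CF * (C0 / X ^ 3) := this
      _ = _ := by ring
  have h3 : 1 ≤ C2 / X ^ 3 := by
    calc (1 : ℝ) ≤ 2 * (CF * e0) + 2 * ((Lines 𝒟).card : ℝ) ^ 2 *
          (H * (CF * C0 + K ^ 2) / X ^ 3) := h1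
      _ ≤ 2 * CF * C0 / X ^ 3 + 2 * ((Lines 𝒟).card : ℝ) ^ 2 *
          (H * (CF * C0 + K ^ 2) / X ^ 3) := by linarith
      _ = C2 / X ^ 3 := by rw [hC2]; ring
  rwa [le_div_iff₀ (by positivity), one_mul] at h3

/-- The high frequency estimate. -/
theorem taskHigh (Cut : TaskCut) (Freq : TaskFreq) (Sep : TaskSep) (SL : TaskSL)
    (L1 : TaskL1) (L2 : TaskL2) (L3 : TaskL3) (L4 : TaskL4) (L5 : TaskL5)
    (Tr1 : TaskTr1) (Tr2 : TaskTr2) (Bump : TaskBump) : TaskHigh := by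
  intro b M U c0 D
  obtain ⟨χ, cχ, χ0, χ1, χU, χi, χT⟩ := Cut U D.isOpen D.nonempty
  obtain ⟨𝒟, hD, CF, CF0, TF, TF1, hF⟩ := Freq χ cχ χ0 χ1 χi χT
  obtain ⟨B, B0, TS, TS1, hS⟩ := Sep 𝒟 hD
  obtain ⟨CS, CS0, N, N1, hSL⟩ := SL (Lines 𝒟).card
  obtain ⟨H, H0, hH⟩ : ∃ H : ℝ, 0 < H ∧ ∀ d ∈ 𝒟, LP b χ d H := by
    have h1 := fun d (hd : d ∈ 𝒟) => line_unif L1 L2 L3 L4 L5 Tr1 Tr2 Bump D.meas D.nonneg D.le
      D.one_le cχ χ0 χi (hD.prim d hd)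
    choose Hf Hf0 Hf1 using h1
    refine ⟨1 + ∑ d ∈ 𝒟.attach, Hf d.1 d.2, ?_, fun d hd => (Hf1 d hd).mono ?_⟩
    · have : 0 ≤ ∑ d ∈ 𝒟.attach, Hf d.1 d.2 := Finset.sum_nonneg fun d _ => (Hf0 d.1 d.2).le
      linarith
    · have : Hf d hd ≤ ∑ d ∈ 𝒟.attach, Hf d.1 d.2 :=
        Finset.single_le_sum (f := fun d : {x // x ∈ 𝒟} => Hf d.1 d.2)
          (fun d _ => (Hf0 d.1 d.2).le) (Finset.mem_attach _ ⟨d, hd⟩)
      linarith
  set C0 : ℝ := 1 + 4 * M + c0⁻¹ with hC0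
  set R : ℝ := 4 * M + 3 with hR
  set C1 : ℝ := CS * (2 + 2 * CF * C0 + 40 * R / B ^ 2) with hC1
  set K : ℝ := 6400 * M + C1 with hK
  set C2 : ℝ := 2 * CF * C0 + 2 * ((Lines 𝒟).card : ℝ) ^ 2 * (H * (CF * C0 + K ^ 2)) with hC2
  have M1 := D.one_le
  have c00 := D.pos
  have C00 : 0 < C0 := by rw [hC0]; positivity
  have C20 : 0 < C2 := by rw [hC2]; positivity
  have N0 : (0 : ℝ) < (N : ℝ) := by exact_mod_cast N1
  have N1' : (1 : ℝ) ≤ (N : ℝ) := by exact_mod_cast N1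
  refine ⟨1 / (400 * N), by positivity, ?_, max (max TF TS) ((C2 + 1) ^ (800 * N)), ?_, ?_⟩
  · rw [div_lt_one (by positivity)]; linarith
  · exact (TF1.trans (le_max_left _ _)).trans (le_max_left _ _)
  intro τ hτ F c'
  by_contra hcon
  rw [not_le] at hcon
  set T : ℝ := |τ| with hT
  have hTF : TF ≤ T := ((le_max_left _ _).trans (le_max_left _ _)).trans hτ
  have hTS : TS ≤ T := ((le_max_right _ _).trans (le_max_left _ _)).trans hτ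
  have hTC : (C2 + 1) ^ (800 * N) ≤ T := (le_max_right _ _).trans hτ
  have T1 : 1 ≤ T := TF1.trans hTF
  have T0 : 0 < T := by linarith
  have hP0 : 800 * N ≠ 0 := by omega
  set X : ℝ := T ^ (1 / (800 * N : ℝ)) with hX
  have hXT : X ^ (800 * N) = T := by
    rw [hX, ← Real.rpow_natCast, ← Real.rpow_mul T0.le]
    push_cast
    rw [one_div_mul_cancel (by positivity), Real.rpow_one]
  have X0 : 0 < X := Real.rpow_pos_of_pos T0 _
  have XC : C2 + 1 ≤ X := by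
    refine le_of_pow_le_pow_left₀ hP0 X0.le ?_
    rw [hXT]; exact hTC
  have X1 : 1 ≤ X := by linarith
  have hXp : T ^ (-2 * (1 - 1 / (400 * (N : ℝ)))) = (X ^ 2 / T) ^ 2 := by
    have h1 : -2 * (1 - 1 / (400 * (N : ℝ))) = (1 / (800 * N : ℝ)) * 4 + (-2) := by
      field_simp; ring
    rw [h1, Real.rpow_add T0, Real.rpow_mul T0.le, ← hX, Real.rpow_neg T0.le]
    have h2 : X ^ (4 : ℝ) = X ^ 4 := by exact_mod_cast Real.rpow_natCast X 4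
    have h3 : T ^ (2 : ℝ) = T ^ 2 := by exact_mod_cast Real.rpow_natCast T 2
    rw [h2, h3]
    field_simp
  rw [hXp] at hcon
  set m := ∑ k ∈ F, ‖c' k‖ ^ 2 with hm
  have m0 : 0 < m := by
    have h1 : 0 ≤ m := Finset.sum_nonneg fun _ _ => sq_nonneg _
    rcases h1.eq_or_lt with h | h
    · rw [← h, mul_zero] at hcon
      exact absurd (St_nonneg b τ F c') (not_le.2 hcon)
    · exact h
  set r : ℝ := (Real.sqrt m)⁻¹ with hr
  have hr2 : r ^ 2 = m⁻¹ := by rw [hr, inv_pow, Real.sq_sqrt m0.le]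
  have hc : ∑ k ∈ F, ‖(r : ℂ) * c' k‖ ^ 2 = 1 := by
    have h1 : ∀ k, ‖(r : ℂ) * c' k‖ ^ 2 = m⁻¹ * ‖c' k‖ ^ 2 := by
      intro k
      rw [norm_mul, mul_pow, Complex.norm_real, Real.norm_eq_abs, sq_abs, hr2]
    simp only [h1]
    rw [← Finset.mul_sum, ← hm, inv_mul_cancel₀ m0.ne']
  have hSt : St b τ F (fun k => (r : ℂ) * c' k) ≤ (X ^ 2 / T) ^ 2 := by
    rw [St_smul, hr2, inv_mul_le_iff₀ m0, mul_comm]
    exact hcon.le
  have h1 := core D cχ χ1 χU hD CF0 B0 CS0 N1 hSL H0 hH hC0 hR hC1 hK hC2 τ T X hT.symm X1 hXT F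
    (fun k => (r : ℂ) * c' k) hc (fun e0 g1 g2 g3 => ?_) (hS T hTS) hSt
  · have h2 : X ≤ X ^ 3 := by
      have : X ^ 1 ≤ X ^ 3 := pow_le_pow_right₀ X1 (by norm_num)
      simpa using this
    linarith
  · classical
    exact hF T hTF F (fun k => (r : ℂ) * c' k) e0 hc.le g1 (g2 _ fun k hk => hk) g3

end

end Pool.Agent.TH281.DW
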