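import Pool.Agent.TH281.DW.Stmts

/-!
# Damped waves on the flat 2-torus with rough damping: auxiliary estimates on the torus and on a line
-/

set_option autoImplicit false

open MeasureTheory Complex Filter Topology Set
open scoped ENNReal Real

namespace Pool.Agent.TH281.DW

noncomputable section

/-! ### general lemmas -/

theorem cs_gen {α : Type*} [MeasurableSpace α] (μ : Measure α) [IsFiniteMeasure μ] {f g : α → ℝ}
    (hf : ∀ x, 0 ≤ f x) (hg : ∀ x, 0 ≤ g x) (hfm : AEStronglyMeasurable f μ)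
    (hgm : AEStronglyMeasurable g μ) (Cf Cg : ℝ) (hfb : ∀ᵐ x ∂μ, f x ≤ Cf)
    (hgb : ∀ᵐ x ∂μ, g x ≤ Cg) :
    ∫ x, f x * g x ∂μ ≤ Real.sqrt (∫ x, f x ^ 2 ∂μ) * Real.sqrt (∫ x, g x ^ 2 ∂μ) := by
  have h := MeasureTheory.integral_mul_le_Lp_mul_Lq_of_nonneg (μ := μ) (f := f) (g := g)
    (p := 2) (q := 2) Real.HolderConjugate.two_two (Filter.Eventually.of_forall hf)
    (Filter.Eventually.of_forall hg)
    (MemLp.of_bound hfm Cf (by filter_upwards [hfb] with x hx; rwa [Real.norm_of_nonneg (hf x)]))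
    (MemLp.of_bound hgm Cg (by filter_upwards [hgb] with x hx; rwa [Real.norm_of_nonneg (hg x)]))
  simp only [Real.rpow_two] at h
  rwa [Real.sqrt_eq_rpow, Real.sqrt_eq_rpow]

theorem int_bdd {G : Type*} [NormedAddCommGroup G] {g : Torus → G}
    (hm : AEStronglyMeasurable g tmu) (C : ℝ) (h : ∀ x, ‖g x‖ ≤ C) : Integrable g tmu :=
  Integrable.of_bound hm C (Filter.Eventually.of_forall h)

theorem tmu_integral_le {g h : Torus → ℝ} (hg : AEStronglyMeasurable g tmu)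
    (hh : AEStronglyMeasurable h tmu) (C : ℝ) (hgb : ∀ x, |g x| ≤ C) (hhb : ∀ x, |h x| ≤ C)
    (hle : ∀ x, g x ≤ h x) : ∫ x, g x ∂tmu ≤ ∫ x, h x ∂tmu :=
  integral_mono (int_bdd hg C (by simpa using hgb)) (int_bdd hh C (by simpa using hhb)) hle

/-- Cauchy-Schwarz on `[0,1]` -/
theorem cs_I {f g : ℝ → ℝ} (hf : Continuous f) (hg : Continuous g) (hf0 : ∀ x, 0 ≤ f x)
    (hg0 : ∀ x, 0 ≤ g x) :
    ∫ s in (0 : ℝ)..1, f s * g s ≤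
      Real.sqrt (∫ s in (0 : ℝ)..1, f s ^ 2) * Real.sqrt (∫ s in (0 : ℝ)..1, g s ^ 2) := by
  obtain ⟨Cf, hCf⟩ := (isCompact_Icc (a := (0 : ℝ)) (b := 1)).exists_bound_of_continuousOn
    hf.continuousOn
  obtain ⟨Cg, hCg⟩ := (isCompact_Icc (a := (0 : ℝ)) (b := 1)).exists_bound_of_continuousOn
    hg.continuousOn
  rw [intervalIntegral.integral_of_le zero_le_one, intervalIntegral.integral_of_le zero_le_one,
    intervalIntegral.integral_of_le zero_le_one]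
  refine cs_gen _ hf0 hg0 hf.aestronglyMeasurable hg.aestronglyMeasurable Cf Cg ?_ ?_
  · refine (ae_restrict_mem measurableSet_Ioc).mono fun x hx => ?_
    exact (le_abs_self _).trans (hCf x ⟨hx.1.le, hx.2⟩)
  · refine (ae_restrict_mem measurableSet_Ioc).mono fun x hx => ?_
    exact (le_abs_self _).trans (hCg x ⟨hx.1.le, hx.2⟩)

/-- pairings on `[0,1]` -/
theorem pair_I {g y : ℝ → ℂ} (hg : Continuous g) (hy : Continuous y) :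
    |(∫ s in (0 : ℝ)..1, g s * (starRingEnd ℂ) (y s)).re| ≤
      Real.sqrt (∫ s in (0 : ℝ)..1, ‖g s‖ ^ 2) * Real.sqrt (∫ s in (0 : ℝ)..1, ‖y s‖ ^ 2) := by
  refine (Complex.abs_re_le_norm _).trans ?_
  refine (intervalIntegral.norm_integral_le_integral_norm zero_le_one).trans ?_
  simp only [norm_mul, RCLike.norm_conj]
  exact cs_I hg.norm hy.norm (fun _ => norm_nonneg _) (fun _ => norm_nonneg _)

theorem norm_I_sq {g : ℝ → ℂ} (hg : Continuous g) :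
    ∫ s in (0 : ℝ)..1, ‖g s‖ ≤ Real.sqrt (∫ s in (0 : ℝ)..1, ‖g s‖ ^ 2) := by
  have h := cs_I hg.norm (continuous_const (y := (1 : ℝ))) (fun _ => norm_nonneg _)
    (fun _ => zero_le_one)
  simpa using h

theorem int_I_mono {f g : ℝ → ℝ} (hf : Continuous f) (hg : Continuous g)
    (h : ∀ s ∈ Icc (0 : ℝ) 1, f s ≤ g s) :
    ∫ s in (0 : ℝ)..1, f s ≤ ∫ s in (0 : ℝ)..1, g s :=
  intervalIntegral.integral_mono_on zero_le_one (hf.intervalIntegrable _ _)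
    (hg.intervalIntegrable _ _) h

theorem int_I_nonneg {f : ℝ → ℝ} (h : ∀ s ∈ Icc (0 : ℝ) 1, 0 ≤ f s) :
    0 ≤ ∫ s in (0 : ℝ)..1, f s :=
  intervalIntegral.integral_nonneg zero_le_one h

/-! ### one-dimensional estimates -/

/-- The one-dimensional data: `y'' = -ν y + g` with twisted periodicity. -/
structure OD (y y1 g : ℝ → ℂ) (ν : ℝ) (ω : ℂ) : Prop where
  d0 : ∀ s, HasDerivAt y (y1 s) s
  d1 : ∀ s, HasDerivAt y1 (-(ν : ℂ) * y s + g s) s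
  cg : Continuous g
  om : ‖ω‖ = 1
  p0 : y 1 = ω * y 0
  p1 : y1 1 = ω * y1 0

namespace OD

variable {y y1 g : ℝ → ℂ} {ν : ℝ} {ω : ℂ}

theorem cy (h : OD y y1 g ν ω) : Continuous y :=
  continuous_iff_continuousAt.2 fun s => (h.d0 s).continuousAt

theorem cy1 (h : OD y y1 g ν ω) : Continuous y1 :=
  continuous_iff_continuousAt.2 fun s => (h.d1 s).continuousAt

theorem e1 (h : OD y y1 g ν ω) (L4 : TaskL4) (Q : ℝ) (hQ : 1 ≤ Q)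
    (hy : ∫ s in (0 : ℝ)..1, ‖y s‖ ^ 2 ≤ 1) (hg : ∫ s in (0 : ℝ)..1, ‖g s‖ ^ 2 ≤ Q) :
    ∫ s in (0 : ℝ)..1, ‖y1 s‖ ^ 2 ≤ max ν 0 + Q := by
  have h4 := L4 y y1 g ν ω h.d0 h.d1 h.cg h.om h.p0 h.p1
  have h5 := pair_I h.cg h.cy
  have h6 : Real.sqrt (∫ s in (0 : ℝ)..1, ‖g s‖ ^ 2) * Real.sqrt (∫ s in (0 : ℝ)..1, ‖y s‖ ^ 2) ≤
      Q := by
    have a1 : Real.sqrt (∫ s in (0 : ℝ)..1, ‖g s‖ ^ 2) ≤ Q := by
      rw [Real.sqrt_le_left (by linarith)]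
      nlinarith
    have a2 : Real.sqrt (∫ s in (0 : ℝ)..1, ‖y s‖ ^ 2) ≤ 1 := by
      rw [Real.sqrt_le_one]; exact hy
    calc _ ≤ Q * 1 := mul_le_mul a1 a2 (Real.sqrt_nonneg _) (by linarith)
      _ = Q := mul_one _
  have h7 : 0 ≤ ∫ s in (0 : ℝ)..1, ‖y s‖ ^ 2 := int_I_nonneg fun _ _ => by positivity
  have h8 : ν * (∫ s in (0 : ℝ)..1, ‖y s‖ ^ 2) ≤ max ν 0 := by
    rcases le_total ν 0 with hn | hn
    · rw [max_eq_right hn]; exact mul_nonpos_of_nonpos_of_nonneg hn h7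
    · rw [max_eq_left hn]; nlinarith
  have h9 := (abs_le.1 (h5.trans h6)).1
  linarith

theorem e2 (h : OD y y1 g ν ω) (L2 : TaskL2) (L3 : TaskL3) (L4 : TaskL4) (Q : ℝ) (hQ : 1 ≤ Q)
    (hy : ∫ s in (0 : ℝ)..1, ‖y s‖ ^ 2 ≤ 1) (hg : ∫ s in (0 : ℝ)..1, ‖g s‖ ^ 2 ≤ Q) :
    ∀ s ∈ Icc (0 : ℝ) 1, ‖y s‖ ^ 2 ≤ 8 * Q := by
  intro s hs
  have h1 := h.e1 L4 Q hQ hy hg
  rcases lt_or_ge ν 1 with hn | hn
  · have h3 := L3 y y1 h.d0 h.cy1 (fun _ => 1) continuous_const (fun _ => zero_le_one)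
      (by simp) s hs
    simp only [one_mul] at h3
    have h4 : max ν 0 ≤ 1 := max_le hn.le zero_le_one
    linarith
  · have h3 := L2 y y1 g ν h.d0 h.d1 h.cg (by linarith) s hs
    rw [max_eq_left (by linarith)] at h1
    have h5 : ∫ t in (0 : ℝ)..1, (‖y1 t‖ ^ 2 + ν * ‖y t‖ ^ 2) =
        (∫ t in (0 : ℝ)..1, ‖y1 t‖ ^ 2) + ν * ∫ t in (0 : ℝ)..1, ‖y t‖ ^ 2 := by
      rw [intervalIntegral.integral_add, intervalIntegral.integral_const_mul]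
      · exact (h.cy1.norm.pow 2).intervalIntegrable _ _
      · exact (continuous_const.mul (h.cy.norm.pow 2)).intervalIntegrable _ _
    rw [h5] at h3
    have h6 : ν * (∫ s in (0 : ℝ)..1, ‖y s‖ ^ 2) ≤ ν := by nlinarith
    have h7 : ν * ‖y s‖ ^ 2 ≤ 4 * ν + 4 * Q := by
      have := sq_nonneg ‖y1 s‖
      nlinarith
    have h8 : ν * ‖y s‖ ^ 2 ≤ ν * (8 * Q) := by nlinarith
    exact le_of_mul_le_mul_left h8 (by linarith)

theorem e3 (h : OD y y1 g ν ω) (L2 : TaskL2) (L4 : TaskL4) (Q : ℝ) (hQ : 1 ≤ Q) (hν : 0 ≤ ν)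
    (hy : ∫ s in (0 : ℝ)..1, ‖y s‖ ^ 2 ≤ 1) (hg : ∫ s in (0 : ℝ)..1, ‖g s‖ ^ 2 ≤ Q) :
    ∀ s ∈ Icc (0 : ℝ) 1, ‖y1 s‖ ^ 2 ≤ 4 * (1 + ν) * Q := by
  intro s hs
  have h1 := h.e1 L4 Q hQ hy hg
  have h3 := L2 y y1 g ν h.d0 h.d1 h.cg hν s hs
  rw [max_eq_left hν] at h1
  have h5 : ∫ t in (0 : ℝ)..1, (‖y1 t‖ ^ 2 + ν * ‖y t‖ ^ 2) =
      (∫ t in (0 : ℝ)..1, ‖y1 t‖ ^ 2) + ν * ∫ t in (0 : ℝ)..1, ‖y t‖ ^ 2 := by
    rw [intervalIntegral.integral_add, intervalIntegral.integral_const_mul]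
    · exact (h.cy1.norm.pow 2).intervalIntegrable _ _
    · exact (continuous_const.mul (h.cy.norm.pow 2)).intervalIntegrable _ _
  rw [h5] at h3
  have h6 : ν * (∫ s in (0 : ℝ)..1, ‖y s‖ ^ 2) ≤ ν := by nlinarith
  have h7 : 0 ≤ ν * ‖y s‖ ^ 2 := by positivity
  nlinarith

theorem e4 (h : OD y y1 g ν ω) (Q : ℝ) (hQ : 1 ≤ Q) (hν : 0 ≤ ν)
    (hy : ∫ s in (0 : ℝ)..1, ‖y s‖ ^ 2 ≤ 1) (hg : ∫ s in (0 : ℝ)..1, ‖g s‖ ^ 2 ≤ Q) :
    ∫ s in (0 : ℝ)..1, ‖-(ν : ℂ) * y s + g s‖ ≤ ν + Q := by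
  have c1 : Continuous fun s => ‖-(ν : ℂ) * y s + g s‖ :=
    ((continuous_const.mul h.cy).add h.cg).norm
  have c2 : Continuous fun s => ν * ‖y s‖ + ‖g s‖ :=
    (continuous_const.mul h.cy.norm).add h.cg.norm
  have h1 : ∫ s in (0 : ℝ)..1, ‖-(ν : ℂ) * y s + g s‖ ≤
      ∫ s in (0 : ℝ)..1, (ν * ‖y s‖ + ‖g s‖) := by
    refine int_I_mono c1 c2 fun s _ => ?_
    refine (norm_add_le _ _).trans ?_
    rw [norm_mul, norm_neg, Complex.norm_real, Real.norm_of_nonneg hν]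
  have h2 : ∫ s in (0 : ℝ)..1, (ν * ‖y s‖ + ‖g s‖) =
      ν * (∫ s in (0 : ℝ)..1, ‖y s‖) + ∫ s in (0 : ℝ)..1, ‖g s‖ := by
    rw [← intervalIntegral.integral_const_mul]
    exact intervalIntegral.integral_add
      ((continuous_const.mul h.cy.norm).intervalIntegrable _ _)
      (h.cg.norm.intervalIntegrable _ _)
  rw [h2] at h1
  have a1 : Real.sqrt (∫ s in (0 : ℝ)..1, ‖g s‖ ^ 2) ≤ Q := by
    rw [Real.sqrt_le_left (by linarith)]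
    nlinarith
  have a2 : Real.sqrt (∫ s in (0 : ℝ)..1, ‖y s‖ ^ 2) ≤ 1 := by
    rw [Real.sqrt_le_one]; exact hy
  have a3 := norm_I_sq h.cg
  have a4 := norm_I_sq h.cy
  nlinarith

/-- The final estimate on a line. -/
theorem final (h : OD y y1 g ν ω) (L3 : TaskL3) (L4 : TaskL4) (L5 : TaskL5)
    {a θ θ1 θ2 : ℝ → ℝ} (ha : ∀ s, HasDerivAt a (1 - θ s) s) (hθ : ∀ s, HasDerivAt θ (θ1 s) s)
    (hθ1 : ∀ s, HasDerivAt θ1 (θ2 s) s) (hθ2 : Continuous θ2) (pa : a 1 = a 0) (pθ : θ 1 = θ 0)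
    (pθ1 : θ1 1 = θ1 0) (θ0 : ∀ s, 0 ≤ θ s) (θi : ∫ s in (0 : ℝ)..1, θ s = 1) (p e : ℝ)
    (hp : 0 ≤ p) (he : 0 ≤ e)
    (hb : ∫ s in (0 : ℝ)..1, (θ s + |θ2 s|) * ‖y s‖ ^ 2 ≤ e)
    (hP0 : |(∫ s in (0 : ℝ)..1, g s * (starRingEnd ℂ) (y s)).re| ≤ p)
    (hP1 : |(∫ s in (0 : ℝ)..1, g s * (starRingEnd ℂ) ((θ s : ℂ) * y s)).re| ≤ p)
    (hP2 : 0 ≤ ν → |(∫ s in (0 : ℝ)..1, g s * (starRingEnd ℂ) ((a s : ℂ) * y1 s)).re| ≤
      p * (1 + ν)) :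
    ∫ s in (0 : ℝ)..1, ‖y s‖ ^ 2 ≤ 12 * (e + p) := by
  have cθ : Continuous θ := continuous_iff_continuousAt.2 fun s => (hθ s).continuousAt
  have cy := h.cy
  have cy1 := h.cy1
  have hb1 : ∫ s in (0 : ℝ)..1, θ s * ‖y s‖ ^ 2 ≤ e := by
    refine le_trans (int_I_mono (cθ.mul (cy.norm.pow 2))
      ((cθ.add hθ2.abs).mul (cy.norm.pow 2)) fun s _ => ?_) hb
    exact mul_le_mul_of_nonneg_right
      (show θ s ≤ θ s + |θ2 s| from le_add_of_nonneg_right (abs_nonneg _)) (sq_nonneg _)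
  have hb2 : ∫ s in (0 : ℝ)..1, θ2 s * ‖y s‖ ^ 2 ≤ e := by
    refine le_trans (int_I_mono (hθ2.mul (cy.norm.pow 2))
      ((cθ.add hθ2.abs).mul (cy.norm.pow 2)) fun s _ => ?_) hb
    exact mul_le_mul_of_nonneg_right
      (show θ2 s ≤ θ s + |θ2 s| by linarith [θ0 s, le_abs_self (θ2 s)]) (sq_nonneg _)
  have hY : 0 ≤ ∫ s in (0 : ℝ)..1, ‖y s‖ ^ 2 := int_I_nonneg fun _ _ => by positivity
  have hY1 : 0 ≤ ∫ s in (0 : ℝ)..1, ‖y1 s‖ ^ 2 := int_I_nonneg fun _ _ => by positivity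
  -- Poincaré
  have hPo : ∫ s in (0 : ℝ)..1, ‖y s‖ ^ 2 ≤ 2 * e + 2 * ∫ s in (0 : ℝ)..1, ‖y1 s‖ ^ 2 := by
    have h1 : ∀ s ∈ Icc (0 : ℝ) 1, ‖y s‖ ^ 2 ≤ 2 * e + 2 * ∫ s in (0 : ℝ)..1, ‖y1 s‖ ^ 2 := by
      intro s hs
      have := L3 y y1 h.d0 cy1 θ cθ θ0 θi s hs
      linarith
    have h2 := int_I_mono (cy.norm.pow 2) continuous_const h1
    simpa using h2
  have i1 : ∫ s in (0 : ℝ)..1, (‖y1 s‖ ^ 2 + ν * ‖y s‖ ^ 2) =
      (∫ s in (0 : ℝ)..1, ‖y1 s‖ ^ 2) + ν * ∫ s in (0 : ℝ)..1, ‖y s‖ ^ 2 := by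
    rw [intervalIntegral.integral_add, intervalIntegral.integral_const_mul]
    · exact (cy1.norm.pow 2).intervalIntegrable _ _
    · exact (continuous_const.mul (cy.norm.pow 2)).intervalIntegrable _ _
  rcases le_or_gt ν 0 with hn | hn
  · have h4 := L4 y y1 g ν ω h.d0 h.d1 h.cg h.om h.p0 h.p1
    have h5 := (abs_le.1 hP0).1
    have h6 : ν * (∫ s in (0 : ℝ)..1, ‖y s‖ ^ 2) ≤ 0 := mul_nonpos_of_nonpos_of_nonneg hn hY
    linarith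
  · have h5 := L5 y y1 g ν ω a θ θ1 θ2 h.d0 h.d1 h.cg h.om h.p0 h.p1 ha hθ hθ1 hθ2 pa pθ pθ1
    rw [i1] at h5
    have h6 := (abs_le.1 hP1).1
    have h7 := (abs_le.1 (hP2 hn.le)).1
    have h8 : ν * (∫ s in (0 : ℝ)..1, θ s * ‖y s‖ ^ 2) ≤ ν * e :=
      mul_le_mul_of_nonneg_left hb1 hn.le
    have h9 : (∫ s in (0 : ℝ)..1, ‖y1 s‖ ^ 2) + ν * (∫ s in (0 : ℝ)..1, ‖y s‖ ^ 2) ≤
        (1 + ν) * (2 * e + 3 * p) := by
      have : 0 ≤ ν * e := by positivity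
      have : 0 ≤ ν * p := by positivity
      nlinarith
    rcases le_total ν 1 with h1 | h1
    · have h10 : 0 ≤ ν * ∫ s in (0 : ℝ)..1, ‖y s‖ ^ 2 := by positivity
      have h11 : (1 + ν) * (2 * e + 3 * p) ≤ 2 * (2 * e + 3 * p) :=
        mul_le_mul_of_nonneg_right (by linarith) (by positivity)
      linarith
    · have h10 : ν * (∫ s in (0 : ℝ)..1, ‖y s‖ ^ 2) ≤ ν * (2 * (2 * e + 3 * p)) := by
        have : (1 + ν) * (2 * e + 3 * p) ≤ (2 * ν) * (2 * e + 3 * p) :=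
          mul_le_mul_of_nonneg_right (by linarith) (by positivity)
        linarith
      have h11 := le_of_mul_le_mul_left h10 (by linarith)
      linarith

end OD

end

end Pool.Agent.TH281.DW
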