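import Pool.Agent.TH281.DW.Tor

/-!
# Damped waves on the flat 2-torus with rough damping: the estimate on one line
-/

set_option autoImplicit false

open MeasureTheory Complex Filter Topology Set
open scoped ENNReal Real

namespace Pool.Agent.TH281.DW

noncomputable section

variable {b : Torus → ℝ} {M : ℝ}

theorem int_b_le (bm : Measurable b) (b0 : ∀ x, 0 ≤ b x) (bM : ∀ x, b x ≤ M) {H L : Torus → ℂ}
    (hH : Continuous H) (hL : Continuous L) (h : ℝ) (hle : ∀ x, ‖H x‖ ≤ h * ‖L x‖) :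
    ∫ x, b x * ‖H x‖ ^ 2 ∂tmu ≤ h ^ 2 * ∫ x, b x * ‖L x‖ ^ 2 ∂tmu := by
  have hM : 0 ≤ M := (b0 0).trans (bM 0)
  obtain ⟨C1, h10, h1⟩ := cont_bdd hH
  obtain ⟨C2, h20, h2⟩ := cont_bdd hL
  have i1 : Integrable (fun x => b x * ‖H x‖ ^ 2) tmu := by
    refine int_bdd (bm.mul (hH.norm.pow 2).measurable).aestronglyMeasurable
      (M * C1 ^ 2) fun x => ?_
    rw [Real.norm_of_nonneg (mul_nonneg (b0 x) (sq_nonneg _))]
    exact mul_le_mul (bM x) (pow_le_pow_left₀ (norm_nonneg _) (h1 x) 2) (sq_nonneg _) hM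
  have i2 : Integrable (fun x => b x * ‖L x‖ ^ 2) tmu := by
    refine int_bdd (bm.mul (hL.norm.pow 2).measurable).aestronglyMeasurable
      (M * C2 ^ 2) fun x => ?_
    rw [Real.norm_of_nonneg (mul_nonneg (b0 x) (sq_nonneg _))]
    exact mul_le_mul (bM x) (pow_le_pow_left₀ (norm_nonneg _) (h2 x) 2) (sq_nonneg _) hM
  rw [← integral_const_mul]
  refine integral_mono i1 (i2.const_mul _) fun x => ?_
  show b x * ‖H x‖ ^ 2 ≤ h ^ 2 * (b x * ‖L x‖ ^ 2)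
  have h3 : ‖H x‖ ^ 2 ≤ (h * ‖L x‖) ^ 2 := pow_le_pow_left₀ (norm_nonneg _) (hle x) 2
  calc b x * ‖H x‖ ^ 2 ≤ b x * (h * ‖L x‖) ^ 2 := mul_le_mul_of_nonneg_left h3 (b0 x)
    _ = _ := by ring

theorem int_sq_le {H L : Torus → ℂ} (hH : Continuous H) (hL : Continuous L) (h : ℝ)
    (hle : ∀ x, ‖H x‖ ≤ h * ‖L x‖) :
    ∫ x, ‖H x‖ ^ 2 ∂tmu ≤ h ^ 2 * ∫ x, ‖L x‖ ^ 2 ∂tmu := by
  rw [← integral_const_mul]
  refine integral_mono (int_cont (hH.norm.pow 2)) ((int_cont (hL.norm.pow 2)).const_mul _)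
    fun x => ?_
  show ‖H x‖ ^ 2 ≤ h ^ 2 * ‖L x‖ ^ 2
  rw [← mul_pow]
  exact pow_le_pow_left₀ (norm_nonneg _) (hle x) 2

/-! ### numeric lemmas -/

theorem n_pi : 4 * π ^ 2 ≤ 40 := by
  have h3 : π < 3.15 := Real.pi_lt_d2
  have h4 : 0 < π := Real.pi_pos
  nlinarith

theorem n_one {A B : ℝ} (hA : 1 ≤ A) (hB : 1 ≤ B) : 1 ≤ A * B := by nlinarith

theorem n_sq {A : ℝ} (hA : 1 ≤ A) : A ≤ A ^ 2 := by nlinarith

theorem n_1600 {A : ℝ} (h0 : 0 ≤ A) (hA : A ≤ 40) : A ^ 2 ≤ 1600 := by nlinarith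

theorem n_a {M K : ℝ} (hM : 1 ≤ M) (hK : 1 ≤ K ^ 2) :
    1 + M + 8 * M * K ^ 2 ≤ 10 * M * K ^ 2 := by nlinarith

theorem n_b {M K : ℝ} (h : 1 ≤ M * K ^ 2) : 10 * M * K ^ 2 ≤ (4 * M * K ^ 2) ^ 2 := by
  have h1 : M * K ^ 2 ≤ (M * K ^ 2) ^ 2 := n_sq h
  have h2 : (4 * M * K ^ 2) ^ 2 = 16 * (M * K ^ 2) ^ 2 := by ring
  rw [h2]; linarith

theorem n_c {ν Q : ℝ} (hν : 0 ≤ ν) (hQ : 1 ≤ Q) : ν + Q ≤ (1 + ν) * Q := by nlinarith

theorem n_d {M K : ℝ} (hM : 1 ≤ M) (hK : 1 ≤ K) : K ≤ M * K ^ 2 := by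
  have h1 : K ≤ K ^ 2 := n_sq hK
  nlinarith

theorem n_e {A : ℝ} (h : 1 ≤ A) : 8 * A ≤ 9 * A ^ 2 := by nlinarith

theorem n_f {M K ν : ℝ} (hM : 1 ≤ M) (hK : 1 ≤ K) (hν : 0 ≤ ν) :
    (1 + ν) * K + 3 * M * K ^ 2 * (1 + ν) ≤ 4 * M * K ^ 2 * (1 + ν) := by
  have h1 := n_d hM hK
  nlinarith

/-- pairing on a line -/
theorem pair_line (Tr2 : TaskTr2) (bm : Measurable b) (b0 : ∀ x, 0 ≤ b x) (bM : ∀ x, b x ≤ M)
    {d : Z2} (hd : IsCoprime (d 0) (d 1)) (m : ℤ) (τ : ℝ) (F : Finset Z2) (c cc : Z2 → ℂ)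
    {ϑ : ℝ → ℝ} (hϑ : Continuous ϑ) (pϑ : ∀ s, ϑ (s + 1) = ϑ s) (h : ℝ) (h0 : 0 ≤ h)
    (hh : ∀ s ∈ Icc (0 : ℝ) 1, |ϑ s| ≤ h) :
    ‖∫ s in (0 : ℝ)..1, yv (F.filter (fun k => cr k d = m)) (cg τ c) d s *
        (starRingEnd ℂ) ((ϑ s : ℂ) * yv (F.filter (fun k => cr k d = m)) cc d s)‖ ≤
      h * (Real.sqrt (St b τ F c) *
        Real.sqrt (∫ x, ‖tr (F.filter (fun k => cr k d = m)) cc x‖ ^ 2 ∂tmu) +
      |τ| * (Real.sqrt (∫ x, b x * ‖tr F c x‖ ^ 2 ∂tmu) *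
        Real.sqrt (∫ x, b x * ‖tr (F.filter (fun k => cr k d = m)) cc x‖ ^ 2 ∂tmu))) := by
  obtain ⟨Θ, hΘ, hΘ1, hΘ2⟩ := Tr2 d hd ϑ hϑ pϑ
  have h1 := hΘ2 m (F.filter (fun k => cr k d = m)) F cc (cg τ c)
    (fun k hk => (Finset.mem_filter.1 hk).2)
  rw [← h1]
  set V := tr (F.filter (fun k => cr k d = m)) cc with hV
  have cV : Continuous V := continuous_tr _ _
  have cH : Continuous fun x => (Θ x : ℂ) * V x :=
    (Complex.continuous_ofReal.comp hΘ).mul cV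
  have hle : ∀ x, ‖(Θ x : ℂ) * V x‖ ≤ h * ‖V x‖ := by
    intro x
    obtain ⟨s, hs, hs1⟩ := hΘ1 x
    rw [norm_mul, Complex.norm_real, hs1]
    exact mul_le_mul_of_nonneg_right (hh s hs) (norm_nonneg _)
  refine (pairing bm b0 bM τ F c cH).trans ?_
  have a1 := int_sq_le cH cV h hle
  have a2 := int_b_le bm b0 bM cH cV h hle
  have a3 : Real.sqrt (∫ x, ‖(Θ x : ℂ) * V x‖ ^ 2 ∂tmu) ≤
      h * Real.sqrt (∫ x, ‖V x‖ ^ 2 ∂tmu) := by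
    refine (Real.sqrt_le_sqrt a1).trans (le_of_eq ?_)
    rw [Real.sqrt_mul (sq_nonneg _), Real.sqrt_sq h0]
  have a4 : Real.sqrt (∫ x, b x * ‖(Θ x : ℂ) * V x‖ ^ 2 ∂tmu) ≤
      h * Real.sqrt (∫ x, b x * ‖V x‖ ^ 2 ∂tmu) := by
    refine (Real.sqrt_le_sqrt a2).trans (le_of_eq ?_)
    rw [Real.sqrt_mul (sq_nonneg _), Real.sqrt_sq h0]
  calc _ ≤ Real.sqrt (St b τ F c) * (h * Real.sqrt (∫ x, ‖V x‖ ^ 2 ∂tmu)) +
      |τ| * (Real.sqrt (∫ x, b x * ‖tr F c x‖ ^ 2 ∂tmu) *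
        (h * Real.sqrt (∫ x, b x * ‖V x‖ ^ 2 ∂tmu))) := by
        refine add_le_add (mul_le_mul_of_nonneg_left a3 (Real.sqrt_nonneg _))
          (mul_le_mul_of_nonneg_left (mul_le_mul_of_nonneg_left a4 (Real.sqrt_nonneg _))
            (abs_nonneg _))
    _ = _ := by ring

/-- The estimate on one line. -/
theorem line_est (L1 : TaskL1) (L2 : TaskL2) (L3 : TaskL3) (L4 : TaskL4) (L5 : TaskL5)
    (Tr1 : TaskTr1) (Tr2 : TaskTr2)
    (bm : Measurable b) (b0 : ∀ x, 0 ≤ b x) (bM : ∀ x, b x ≤ M) (M1 : 1 ≤ M)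
    {d : Z2} (hd : IsCoprime (d 0) (d 1)) (m : ℤ) (τ : ℝ) (F : Finset Z2) (c : Z2 → ℂ)
    (hc : ∑ k ∈ F, ‖c k‖ ^ 2 ≤ 1)
    (X K lam : ℝ) (hX : 1 ≤ X) (hK : 1 ≤ K) (hXτ : X ^ 6 ≤ |τ|)
    (hSt : St b τ F c ≤ (X ^ 2 / |τ|) ^ 2)
    (hbu : ∫ x, b x * ‖tr F c x‖ ^ 2 ∂tmu ≤ (X / |τ|) ^ 2)
    (hG : 1600 * ∑ k ∈ F, ((fq k : ℝ) - τ ^ 2) ^ 2 * ‖c k‖ ^ 2 ≤ K * X ^ 2)
    (hlam : 0 < lam) (hlamX : lam * X ^ 10 ≤ 1)
    (hS : tmu.real {x | (X ^ 10)⁻¹ ≤ b x ∧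
      lam ≤ ‖tr (F.filter (fun k => cr k d = m)) c x‖} ≤ K / X ^ 10)
    {a θ θ1 θ2 : ℝ → ℝ} (ha : ∀ s, HasDerivAt a (1 - θ s) s) (hθ : ∀ s, HasDerivAt θ (θ1 s) s)
    (hθ1 : ∀ s, HasDerivAt θ1 (θ2 s) s) (hθ2 : Continuous θ2) (pa : ∀ s, a (s + 1) = a s)
    (pθ : ∀ s, θ (s + 1) = θ s) (pθ1 : ∀ s, θ1 (s + 1) = θ1 s)
    (θ0 : ∀ s, 0 ≤ θ s) (θi : ∫ s in (0 : ℝ)..1, θ s = 1) (h : ℝ) (h1 : 1 ≤ h)
    (hah : ∀ s ∈ Icc (0 : ℝ) 1, |a s| ≤ h) (hθh : ∀ s ∈ Icc (0 : ℝ) 1, |θ s| ≤ h)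
    (e : ℝ) (he : 0 ≤ e)
    (hb : ∫ s in (0 : ℝ)..1, (θ s + |θ2 s|) *
      ‖yv (F.filter (fun k => cr k d = m)) c d s‖ ^ 2 ≤ e) :
    ∑ k ∈ F.filter (fun k => cr k d = m), ‖c k‖ ^ 2 ≤
      12 * (e + 200 * h * M * K ^ 2 / X ^ 3) := by
  set Fl := F.filter (fun k => cr k d = m) with hFl
  have hFlm : ∀ k ∈ Fl, cr k d = m := fun k hk => (Finset.mem_filter.1 hk).2
  obtain ⟨ω, od⟩ := line_od hd m Fl hFlm τ c
  obtain ⟨pt, tint⟩ := Tr1 d hd m Fl hFlm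
  set q : ℝ := (fq d : ℝ) with hq
  set ν : ℝ := nu τ d m with hν
  set y := yv Fl c d with hy
  set y1 := yv Fl (c1 d c) d with hy1
  set V := tr Fl c with hV
  set V1 := tr Fl (c1 d c) with hV1
  have cV : Continuous V := continuous_tr _ _
  have cV1 : Continuous V1 := continuous_tr _ _
  have X0 : 0 < X := by linarith
  have K0 : 0 < K := by linarith
  have M0 : 0 < M := by linarith
  have t0 : 0 < |τ| := lt_of_lt_of_le (by positivity) hXτ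
  have q1 : (1 : ℝ) ≤ q := by rw [hq]; exact_mod_cast fq_pos hd
  have hpi : 4 * π ^ 2 ≤ 40 := n_pi
  have hpq : 4 * π ^ 2 / q ≤ 40 := (div_le_self (by positivity) q1).trans hpi
  have hpq0 : 0 ≤ 4 * π ^ 2 / q := by positivity
  -- masses on the circle
  have hN : ∀ cc : Z2 → ℂ, ∫ s in (0 : ℝ)..1, ‖yv Fl cc d s‖ ^ 2 = ∫ x, ‖tr Fl cc x‖ ^ 2 ∂tmu := by
    intro cc
    exact (tint cc cc (fun p => p.1 ^ 2) (by fun_prop)).symm
  have hy0 : ∫ s in (0 : ℝ)..1, ‖y s‖ ^ 2 = ∑ k ∈ Fl, ‖c k‖ ^ 2 := by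
    rw [hy, hN, integral_norm_sq_tr]
  have hFle : ∑ k ∈ Fl, ‖c k‖ ^ 2 ≤ 1 :=
    (Finset.sum_le_sum_of_subset_of_nonneg (Finset.filter_subset _ _)
      fun _ _ _ => sq_nonneg _).trans hc
  have hy1' : ∫ s in (0 : ℝ)..1, ‖y s‖ ^ 2 ≤ 1 := hy0 ▸ hFle
  have hV2 : ∫ x, ‖V x‖ ^ 2 ∂tmu ≤ 1 := by rw [hV, integral_norm_sq_tr]; exact hFle
  set Q : ℝ := K * X ^ 2 with hQ
  have X2 : 1 ≤ X ^ 2 := one_le_pow₀ hX
  have hQ1 : 1 ≤ Q := n_one hK X2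
  have hg : ∫ s in (0 : ℝ)..1,
      ‖((-(4 * π ^ 2 / q) : ℝ) : ℂ) * yv Fl (cg τ c) d s‖ ^ 2 ≤ Q := by
    have e1 : ∀ s, ‖((-(4 * π ^ 2 / q) : ℝ) : ℂ) * yv Fl (cg τ c) d s‖ ^ 2 =
        (4 * π ^ 2 / q) ^ 2 * ‖yv Fl (cg τ c) d s‖ ^ 2 := by
      intro s
      rw [norm_mul, mul_pow, Complex.norm_real, Real.norm_eq_abs, sq_abs, neg_sq]
    simp only [e1]
    rw [intervalIntegral.integral_const_mul, hN, integral_norm_sq_tr]
    have e2 : ∑ k ∈ Fl, ‖cg τ c k‖ ^ 2 ≤ ∑ k ∈ F, ((fq k : ℝ) - τ ^ 2) ^ 2 * ‖c k‖ ^ 2 := by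
      have e3 : ∀ k, ‖cg τ c k‖ ^ 2 = ((fq k : ℝ) - τ ^ 2) ^ 2 * ‖c k‖ ^ 2 := by
        intro k
        unfold cg
        rw [norm_mul, mul_pow, Complex.norm_real, Real.norm_eq_abs, sq_abs]
      simp only [e3]
      exact Finset.sum_le_sum_of_subset_of_nonneg (Finset.filter_subset _ _)
        fun _ _ _ => by positivity
    have e4 : (4 * π ^ 2 / q) ^ 2 ≤ 1600 := n_1600 hpq0 hpq
    have e5 : 0 ≤ ∑ k ∈ Fl, ‖cg τ c k‖ ^ 2 := Finset.sum_nonneg fun _ _ => sq_nonneg _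
    calc (4 * π ^ 2 / q) ^ 2 * ∑ k ∈ Fl, ‖cg τ c k‖ ^ 2 ≤ 1600 * ∑ k ∈ Fl, ‖cg τ c k‖ ^ 2 :=
          mul_le_mul_of_nonneg_right e4 e5
      _ ≤ 1600 * ∑ k ∈ F, ((fq k : ℝ) - τ ^ 2) ^ 2 * ‖c k‖ ^ 2 :=
          mul_le_mul_of_nonneg_left e2 (by norm_num)
      _ ≤ Q := hG
  have E1 := od.e1 L4 Q hQ1 hy1' hg
  have E2 := od.e2 L2 L3 L4 Q hQ1 hy1' hg
  -- damped mass of `V`
  have lam1 : lam ≤ 1 / X ^ 10 := by rwa [le_div_iff₀ (by positivity)]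
  have X8 : 1 / X ^ 10 ≤ 1 / X ^ 8 :=
    one_div_le_one_div_of_le (by positivity) (pow_le_pow_right₀ hX (by norm_num))
  have X10 : 1 / X ^ 10 ≤ 1 := by
    rw [div_le_one (by positivity)]; exact one_le_pow₀ hX
  have supV : ∀ x, ‖V x‖ ^ 2 ≤ 8 * Q := by
    intro x
    obtain ⟨s, hs, hs1⟩ := pt x
    rw [hV, hs1 c]
    exact E2 s hs
  have hBV : ∫ x, b x * ‖V x‖ ^ 2 ∂tmu ≤ 10 * M * K ^ 2 / X ^ 8 := by
    have m1 := mass_b bm b0 bM cV cV (X ^ 10)⁻¹ lam (8 * Q) (by positivity) supV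
    have m2 : ∫ x, (if ‖V x‖ < lam then ‖V x‖ ^ 2 else 0) ∂tmu ≤ lam ^ 2 := by
      have hT : MeasurableSet {x | ‖V x‖ < lam} :=
        measurableSet_lt cV.norm.measurable measurable_const
      have m2 : Measurable fun x => (if ‖V x‖ < lam then ‖V x‖ ^ 2 else 0) :=
        Measurable.ite hT (cV.norm.pow 2).measurable measurable_const
      have hle : ∀ x, (if ‖V x‖ < lam then ‖V x‖ ^ 2 else 0) ≤ lam ^ 2 := by
        intro x
        split_ifs with hx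
        · exact pow_le_pow_left₀ (norm_nonneg _) hx.le 2
        · positivity
      have i1 : Integrable (fun x => (if ‖V x‖ < lam then ‖V x‖ ^ 2 else 0)) tmu := by
        refine int_bdd m2.aestronglyMeasurable (lam ^ 2) fun x => ?_
        rw [Real.norm_of_nonneg (by split_ifs <;> positivity)]
        exact hle x
      have := integral_mono i1 (integrable_const (lam ^ 2)) hle
      simpa using this
    have m3 : (X ^ 10)⁻¹ * (∫ x, ‖V x‖ ^ 2 ∂tmu) ≤ 1 / X ^ 8 := by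
      rw [← one_div]
      calc 1 / X ^ 10 * (∫ x, ‖V x‖ ^ 2 ∂tmu) ≤ 1 / X ^ 10 * 1 :=
            mul_le_mul_of_nonneg_left hV2 (by positivity)
        _ ≤ _ := by rw [mul_one]; exact X8
    have m4 : lam ^ 2 ≤ 1 / X ^ 8 := by
      calc lam ^ 2 = lam * lam := sq lam
        _ ≤ (1 / X ^ 10) * 1 := mul_le_mul lam1 (lam1.trans X10) hlam.le (by positivity)
        _ ≤ _ := by rw [mul_one]; exact X8
    have m5 : M * (8 * Q) * tmu.real {x | (X ^ 10)⁻¹ ≤ b x ∧ lam ≤ ‖V x‖} ≤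
        8 * M * K ^ 2 / X ^ 8 := by
      calc M * (8 * Q) * tmu.real {x | (X ^ 10)⁻¹ ≤ b x ∧ lam ≤ ‖V x‖} ≤
          M * (8 * Q) * (K / X ^ 10) := mul_le_mul_of_nonneg_left hS (by positivity)
        _ = _ := by rw [hQ]; field_simp
    have m6 : (1 : ℝ) / X ^ 8 + M * (1 / X ^ 8) + 8 * M * K ^ 2 / X ^ 8 ≤
        10 * M * K ^ 2 / X ^ 8 := by
      rw [mul_one_div, ← add_div, ← add_div]
      exact div_le_div_of_nonneg_right (n_a M1 (one_le_pow₀ hK)) (by positivity)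
    have m7 : M * (∫ x, (if ‖V x‖ < lam then ‖V x‖ ^ 2 else 0) ∂tmu) ≤ M * (1 / X ^ 8) :=
      mul_le_mul_of_nonneg_left (m2.trans m4) M0.le
    linarith
  -- elementary bounds
  have sSt : Real.sqrt (St b τ F c) ≤ X ^ 2 / |τ| := by
    rw [Real.sqrt_le_left (by positivity)]; exact hSt
  have sbu : |τ| * Real.sqrt (∫ x, b x * ‖tr F c x‖ ^ 2 ∂tmu) ≤ X := by
    have : Real.sqrt (∫ x, b x * ‖tr F c x‖ ^ 2 ∂tmu) ≤ X / |τ| := by
      rw [Real.sqrt_le_left (by positivity)]; exact hbu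
    calc _ ≤ |τ| * (X / |τ|) := mul_le_mul_of_nonneg_left this t0.le
      _ = X := by field_simp
  have hXt : X ^ 2 / |τ| ≤ 1 / X ^ 4 := by
    rw [div_le_div_iff₀ t0 (by positivity)]
    calc X ^ 2 * X ^ 4 = X ^ 6 := by ring
      _ ≤ 1 * |τ| := by rw [one_mul]; exact hXτ
  have X34 : 1 / X ^ 4 ≤ 1 / X ^ 3 :=
    one_div_le_one_div_of_le (by positivity) (pow_le_pow_right₀ hX (by norm_num))
  have K2 : 1 ≤ K ^ 2 := one_le_pow₀ hK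
  have MK : 1 ≤ M * K ^ 2 := n_one M1 K2
  -- the pairing constant for `V`
  have R0 : Real.sqrt (St b τ F c) * Real.sqrt (∫ x, ‖V x‖ ^ 2 ∂tmu) +
      |τ| * (Real.sqrt (∫ x, b x * ‖tr F c x‖ ^ 2 ∂tmu) *
        Real.sqrt (∫ x, b x * ‖V x‖ ^ 2 ∂tmu)) ≤ 5 * M * K ^ 2 / X ^ 3 := by
    have r1 : Real.sqrt (∫ x, ‖V x‖ ^ 2 ∂tmu) ≤ 1 := by rw [Real.sqrt_le_one]; exact hV2
    have r2 : Real.sqrt (∫ x, b x * ‖V x‖ ^ 2 ∂tmu) ≤ 4 * M * K ^ 2 / X ^ 4 := by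
      rw [Real.sqrt_le_left (by positivity)]
      refine hBV.trans ?_
      rw [div_pow, ← pow_mul]
      exact div_le_div_of_nonneg_right (n_b MK) (by positivity)
    have r3 : Real.sqrt (St b τ F c) * Real.sqrt (∫ x, ‖V x‖ ^ 2 ∂tmu) ≤ 1 / X ^ 3 := by
      calc _ ≤ X ^ 2 / |τ| * 1 := mul_le_mul sSt r1 (Real.sqrt_nonneg _) (by positivity)
        _ ≤ 1 / X ^ 3 := by rw [mul_one]; exact hXt.trans X34
    have r4 : |τ| * (Real.sqrt (∫ x, b x * ‖tr F c x‖ ^ 2 ∂tmu) *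
        Real.sqrt (∫ x, b x * ‖V x‖ ^ 2 ∂tmu)) ≤ 4 * M * K ^ 2 / X ^ 3 := by
      rw [← mul_assoc]
      calc _ ≤ X * (4 * M * K ^ 2 / X ^ 4) :=
            mul_le_mul sbu r2 (Real.sqrt_nonneg _) X0.le
        _ = _ := by field_simp
    have r5 : 1 / X ^ 3 + 4 * M * K ^ 2 / X ^ 3 ≤ 5 * M * K ^ 2 / X ^ 3 := by
      rw [← add_div]
      refine div_le_div_of_nonneg_right ?_ (by positivity)
      linarith
    linarith
  have R0' : ∀ ϑ : ℝ → ℝ, Continuous ϑ → (∀ s, ϑ (s + 1) = ϑ s) →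
      (∀ s ∈ Icc (0 : ℝ) 1, |ϑ s| ≤ h) →
      |(∫ s in (0 : ℝ)..1, (((-(4 * π ^ 2 / q) : ℝ) : ℂ) * yv Fl (cg τ c) d s) *
        (starRingEnd ℂ) ((ϑ s : ℂ) * y s)).re| ≤ 200 * h * M * K ^ 2 / X ^ 3 := by
    intro ϑ cϑ pϑ bϑ
    have s1 := pair_line Tr2 bm b0 bM hd m τ F c c cϑ pϑ h (by linarith) bϑ
    refine (Complex.abs_re_le_norm _).trans ?_
    simp only [mul_assoc ((-(4 * π ^ 2 / q) : ℝ) : ℂ)]
    rw [intervalIntegral.integral_const_mul, norm_mul, Complex.norm_real, norm_neg,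
      Real.norm_of_nonneg hpq0]
    calc _ ≤ 40 * (h * (5 * M * K ^ 2 / X ^ 3)) := by
          refine mul_le_mul hpq (s1.trans (mul_le_mul_of_nonneg_left R0 (by linarith)))
            (norm_nonneg _) (by norm_num)
      _ = _ := by ring
  have P0 : |(∫ s in (0 : ℝ)..1, (((-(4 * π ^ 2 / q) : ℝ) : ℂ) * yv Fl (cg τ c) d s) *
        (starRingEnd ℂ) (y s)).re| ≤ 200 * h * M * K ^ 2 / X ^ 3 := by
    have := R0' (fun _ => 1) continuous_const (fun _ => rfl) (fun _ _ => by simpa using h1)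
    simpa using this
  have cθ : Continuous θ := continuous_iff_continuousAt.2 fun s => (hθ s).continuousAt
  have ca : Continuous a := continuous_iff_continuousAt.2 fun s => (ha s).continuousAt
  have P1 := R0' θ cθ pθ hθh
  have P2 : 0 ≤ ν → |(∫ s in (0 : ℝ)..1, (((-(4 * π ^ 2 / q) : ℝ) : ℂ) * yv Fl (cg τ c) d s) *
        (starRingEnd ℂ) ((a s : ℂ) * y1 s)).re| ≤ 200 * h * M * K ^ 2 / X ^ 3 * (1 + ν) := by
    intro hν0
    have E3 := od.e3 L2 L4 Q hQ1 hν0 hy1' hg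
    have E4 := od.e4 Q hQ1 hν0 hy1' hg
    rw [max_eq_left hν0] at E1
    have hνQ : ν + Q ≤ (1 + ν) * Q := n_c hν0 hQ1
    have hV12 : ∫ x, ‖V1 x‖ ^ 2 ∂tmu ≤ (1 + ν) * Q := by
      rw [hV1, ← hN]; exact E1.trans hνQ
    have supV1 : ∀ x, ‖V1 x‖ ^ 2 ≤ 4 * (1 + ν) * Q := by
      intro x
      obtain ⟨s, hs, hs1⟩ := pt x
      rw [hV1, hs1 (c1 d c)]
      exact E3 s hs
    have hBV1 : ∫ x, b x * ‖V1 x‖ ^ 2 ∂tmu ≤ 8 * M * K ^ 2 * (1 + ν) / X ^ 8 := by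
      have m1 := mass_b bm b0 bM cV cV1 (X ^ 10)⁻¹ lam (4 * (1 + ν) * Q) (by positivity) supV1
      have m2 : ∫ x, (if ‖V x‖ < lam then ‖V1 x‖ ^ 2 else 0) ∂tmu =
          ∫ s in (0 : ℝ)..1, (if ‖y s‖ < lam then ‖y1 s‖ ^ 2 else 0) :=
        tint c (c1 d c) (fun p => if p.1 < lam then p.2 ^ 2 else 0)
          (Measurable.ite (measurableSet_lt measurable_fst measurable_const)
            (measurable_snd.pow_const 2) measurable_const)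
      have m3 := L1 y y1 (fun s => -(ν : ℂ) * y s +
        ((-(4 * π ^ 2 / q) : ℝ) : ℂ) * yv Fl (cg τ c) d s) ω lam od.d0 od.d1
        ((continuous_const.mul od.cy).add od.cg) od.om od.p0 od.p1 hlam
      rw [← m2] at m3
      have m4 : M * (∫ x, (if ‖V x‖ < lam then ‖V1 x‖ ^ 2 else 0) ∂tmu) ≤
          3 * M * K * (1 + ν) / X ^ 8 := by
        calc _ ≤ M * (3 * lam * ((1 + ν) * Q)) := by
              refine mul_le_mul_of_nonneg_left (m3.trans ?_) M0.le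
              exact mul_le_mul_of_nonneg_left (E4.trans hνQ) (by positivity)
          _ ≤ M * (3 * (1 / X ^ 10) * ((1 + ν) * Q)) := by
              refine mul_le_mul_of_nonneg_left (mul_le_mul_of_nonneg_right
                (mul_le_mul_of_nonneg_left lam1 (by norm_num)) (by positivity)) M0.le
          _ = _ := by rw [hQ]; field_simp
      have m5 : (X ^ 10)⁻¹ * (∫ x, ‖V1 x‖ ^ 2 ∂tmu) ≤ K * (1 + ν) / X ^ 8 := by
        calc (X ^ 10)⁻¹ * (∫ x, ‖V1 x‖ ^ 2 ∂tmu) ≤ (X ^ 10)⁻¹ * ((1 + ν) * Q) :=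
              mul_le_mul_of_nonneg_left hV12 (by positivity)
          _ = _ := by rw [hQ]; field_simp
      have m6 : M * (4 * (1 + ν) * Q) * tmu.real {x | (X ^ 10)⁻¹ ≤ b x ∧ lam ≤ ‖V x‖} ≤
          4 * M * K ^ 2 * (1 + ν) / X ^ 8 := by
        calc M * (4 * (1 + ν) * Q) * tmu.real {x | (X ^ 10)⁻¹ ≤ b x ∧ lam ≤ ‖V x‖} ≤
            M * (4 * (1 + ν) * Q) * (K / X ^ 10) :=
              mul_le_mul_of_nonneg_left hS (by positivity)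
          _ = _ := by rw [hQ]; field_simp
      have m7 : K * (1 + ν) / X ^ 8 + 3 * M * K * (1 + ν) / X ^ 8 +
          4 * M * K ^ 2 * (1 + ν) / X ^ 8 ≤ 8 * M * K ^ 2 * (1 + ν) / X ^ 8 := by
        rw [← add_div, ← add_div]
        refine div_le_div_of_nonneg_right ?_ (by positivity)
        have k1 : K ≤ K ^ 2 := n_sq hK
        have k2 : K ≤ M * K ^ 2 := n_d M1 hK
        have k3 : M * K ≤ M * K ^ 2 := mul_le_mul_of_nonneg_left k1 M0.le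
        have k4 : K + 3 * M * K + 4 * M * K ^ 2 ≤ 8 * M * K ^ 2 := by linarith
        have := mul_le_mul_of_nonneg_right k4 (show 0 ≤ 1 + ν by linarith)
        linarith
      linarith
    have R1 : Real.sqrt (St b τ F c) * Real.sqrt (∫ x, ‖V1 x‖ ^ 2 ∂tmu) +
        |τ| * (Real.sqrt (∫ x, b x * ‖tr F c x‖ ^ 2 ∂tmu) *
          Real.sqrt (∫ x, b x * ‖V1 x‖ ^ 2 ∂tmu)) ≤ 4 * M * K ^ 2 * (1 + ν) / X ^ 3 := by
      have r1 : Real.sqrt (∫ x, ‖V1 x‖ ^ 2 ∂tmu) ≤ (1 + ν) * (K * X) := by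
        rw [Real.sqrt_le_left (by positivity)]
        refine hV12.trans ?_
        rw [hQ]
        have k1 : K ≤ K ^ 2 := n_sq hK
        have k2 : 1 + ν ≤ (1 + ν) ^ 2 := n_sq (by linarith)
        calc (1 + ν) * (K * X ^ 2) ≤ (1 + ν) ^ 2 * (K ^ 2 * X ^ 2) :=
              mul_le_mul k2 (mul_le_mul_of_nonneg_right k1 (by positivity)) (by positivity)
                (by positivity)
          _ = _ := by ring
      have r2 : Real.sqrt (∫ x, b x * ‖V1 x‖ ^ 2 ∂tmu) ≤ 3 * M * K ^ 2 * (1 + ν) / X ^ 4 := by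
        rw [Real.sqrt_le_left (by positivity)]
        refine hBV1.trans ?_
        rw [div_pow, ← pow_mul]
        refine div_le_div_of_nonneg_right ?_ (by positivity)
        have k2 : 1 + ν ≤ (1 + ν) ^ 2 := n_sq (by linarith)
        have k3 : 8 * (M * K ^ 2) ≤ 9 * (M * K ^ 2) ^ 2 := n_e MK
        calc 8 * M * K ^ 2 * (1 + ν) = 8 * (M * K ^ 2) * (1 + ν) := by ring
          _ ≤ 9 * (M * K ^ 2) ^ 2 * (1 + ν) ^ 2 := by
              exact mul_le_mul k3 k2 (by positivity) (by positivity)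
          _ = _ := by ring
      have r3 : Real.sqrt (St b τ F c) * Real.sqrt (∫ x, ‖V1 x‖ ^ 2 ∂tmu) ≤
          (1 + ν) * K / X ^ 3 := by
        calc _ ≤ X ^ 2 / |τ| * ((1 + ν) * (K * X)) :=
              mul_le_mul sSt r1 (Real.sqrt_nonneg _) (by positivity)
          _ ≤ 1 / X ^ 4 * ((1 + ν) * (K * X)) :=
              mul_le_mul_of_nonneg_right hXt (by positivity)
          _ = (1 + ν) * K / X ^ 3 := by field_simp
      have r4 : |τ| * (Real.sqrt (∫ x, b x * ‖tr F c x‖ ^ 2 ∂tmu) *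
          Real.sqrt (∫ x, b x * ‖V1 x‖ ^ 2 ∂tmu)) ≤ 3 * M * K ^ 2 * (1 + ν) / X ^ 3 := by
        rw [← mul_assoc]
        calc _ ≤ X * (3 * M * K ^ 2 * (1 + ν) / X ^ 4) :=
              mul_le_mul sbu r2 (Real.sqrt_nonneg _) X0.le
          _ = _ := by field_simp
      have r5 : (1 + ν) * K / X ^ 3 + 3 * M * K ^ 2 * (1 + ν) / X ^ 3 ≤
          4 * M * K ^ 2 * (1 + ν) / X ^ 3 := by
        rw [← add_div]
        exact div_le_div_of_nonneg_right (n_f M1 hK hν0) (by positivity)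
      linarith
    have s1 := pair_line Tr2 bm b0 bM hd m τ F c (c1 d c) ca pa h (by linarith) hah
    refine (Complex.abs_re_le_norm _).trans ?_
    simp only [mul_assoc ((-(4 * π ^ 2 / q) : ℝ) : ℂ)]
    rw [intervalIntegral.integral_const_mul, norm_mul, Complex.norm_real, norm_neg,
      Real.norm_of_nonneg hpq0]
    calc _ ≤ 40 * (h * (4 * M * K ^ 2 * (1 + ν) / X ^ 3)) := by
          refine mul_le_mul hpq (s1.trans (mul_le_mul_of_nonneg_left R1 (by linarith)))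
            (norm_nonneg _) (by norm_num)
      _ = 160 * h * M * K ^ 2 / X ^ 3 * (1 + ν) := by ring
      _ ≤ _ := by
          refine mul_le_mul_of_nonneg_right (div_le_div_of_nonneg_right ?_ (by positivity))
            (by linarith)
          have : 0 ≤ h * M * K ^ 2 := by positivity
          linarith
  have key := od.final L3 L4 L5 ha hθ hθ1 hθ2 (by simpa using pa 0) (by simpa using pθ 0)
    (by simpa using pθ1 0) θ0 θi (200 * h * M * K ^ 2 / X ^ 3) e (by positivity) he hb P0 P1 P2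
  rwa [hy0] at key

end

end Pool.Agent.TH281.DW
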