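import Pool.Agent.TH281.DW.Line

/-!
# Damped waves on the flat 2-torus with rough damping: estimates on the torus
-/

set_option autoImplicit false

open MeasureTheory Complex Filter Topology Set
open scoped ENNReal Real

namespace Pool.Agent.TH281.DW

noncomputable section

theorem tr_bdd (F : Finset Z2) (c : Z2 → ℂ) (x : Torus) : ‖tr F c x‖ ≤ ∑ k ∈ F, ‖c k‖ := by
  unfold tr
  refine (norm_sum_le _ _).trans (Finset.sum_le_sum fun k _ => ?_)
  rw [norm_mul, norm_E, mul_one]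

theorem cont_bdd {H : Torus → ℂ} (hH : Continuous H) : ∃ C, 0 ≤ C ∧ ∀ x, ‖H x‖ ≤ C := by
  obtain ⟨C, hC⟩ := isCompact_univ.exists_bound_of_continuousOn hH.continuousOn
  exact ⟨C, (norm_nonneg _).trans (hC 0 (mem_univ _)), fun x => hC x (mem_univ x)⟩

/-- splitting of a damped mass -/
theorem mass_b {b : Torus → ℝ} {M : ℝ} (bm : Measurable b) (b0 : ∀ x, 0 ≤ b x)
    (bM : ∀ x, b x ≤ M) {V H : Torus → ℂ} (hV : Continuous V) (hH : Continuous H) (β lam A : ℝ)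
    (hβ : 0 ≤ β) (hA : ∀ x, ‖H x‖ ^ 2 ≤ A) :
    ∫ x, b x * ‖H x‖ ^ 2 ∂tmu ≤ β * (∫ x, ‖H x‖ ^ 2 ∂tmu) +
      M * (∫ x, (if ‖V x‖ < lam then ‖H x‖ ^ 2 else 0) ∂tmu) +
      M * A * tmu.real {x | β ≤ b x ∧ lam ≤ ‖V x‖} := by
  have hM : 0 ≤ M := (b0 0).trans (bM 0)
  have hA0 : 0 ≤ A := (sq_nonneg _).trans (hA 0)
  obtain ⟨C, hC0, hC⟩ := cont_bdd hH
  have hS : MeasurableSet {x | β ≤ b x ∧ lam ≤ ‖V x‖} :=
    (measurableSet_le measurable_const bm).inter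
      (measurableSet_le measurable_const hV.norm.measurable)
  have hT : MeasurableSet {x | ‖V x‖ < lam} :=
    measurableSet_lt hV.norm.measurable measurable_const
  have m1 : Measurable fun x => ‖H x‖ ^ 2 := (hH.norm.pow 2).measurable
  have m2 : Measurable fun x => (if ‖V x‖ < lam then ‖H x‖ ^ 2 else 0) :=
    Measurable.ite hT m1 measurable_const
  have m3 : Measurable ({x | β ≤ b x ∧ lam ≤ ‖V x‖}.indicator fun _ => (1 : ℝ)) :=
    measurable_const.indicator hS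
  have i1 : Integrable (fun x => ‖H x‖ ^ 2) tmu := int_cont (hH.norm.pow 2)
  have i2 : Integrable (fun x => (if ‖V x‖ < lam then ‖H x‖ ^ 2 else 0)) tmu := by
    refine int_bdd m2.aestronglyMeasurable A fun x => ?_
    split_ifs
    · rw [Real.norm_of_nonneg (sq_nonneg _)]; exact hA x
    · simpa using hA0
  have i3 : Integrable ({x | β ≤ b x ∧ lam ≤ ‖V x‖}.indicator fun _ => (1 : ℝ)) tmu := by
    refine int_bdd m3.aestronglyMeasurable 1 fun x => ?_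
    by_cases hx : x ∈ {x | β ≤ b x ∧ lam ≤ ‖V x‖}
    · rw [indicator_of_mem hx]; simp
    · rw [indicator_of_notMem hx]; simp
  have e1 : tmu.real {x | β ≤ b x ∧ lam ≤ ‖V x‖} =
      ∫ x, ({x | β ≤ b x ∧ lam ≤ ‖V x‖}.indicator fun _ => (1 : ℝ)) x ∂tmu := by
    rw [integral_indicator hS]; simp
  have i12 : Integrable (fun x => β * ‖H x‖ ^ 2 + M * (if ‖V x‖ < lam then ‖H x‖ ^ 2 else 0))
      tmu := (i1.const_mul _).add (i2.const_mul _)
  have i123 : Integrable (fun x => β * ‖H x‖ ^ 2 + M * (if ‖V x‖ < lam then ‖H x‖ ^ 2 else 0) +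
      M * A * ({x | β ≤ b x ∧ lam ≤ ‖V x‖}.indicator fun _ => (1 : ℝ)) x) tmu :=
    i12.add (i3.const_mul _)
  have e2 : ∫ x, (β * ‖H x‖ ^ 2 + M * (if ‖V x‖ < lam then ‖H x‖ ^ 2 else 0) +
      M * A * ({x | β ≤ b x ∧ lam ≤ ‖V x‖}.indicator fun _ => (1 : ℝ)) x) ∂tmu =
      β * (∫ x, ‖H x‖ ^ 2 ∂tmu) +
      M * (∫ x, (if ‖V x‖ < lam then ‖H x‖ ^ 2 else 0) ∂tmu) +
      M * A * ∫ x, ({x | β ≤ b x ∧ lam ≤ ‖V x‖}.indicator fun _ => (1 : ℝ)) x ∂tmu := by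
    rw [integral_add i12 (i3.const_mul _), integral_add (i1.const_mul _) (i2.const_mul _),
      integral_const_mul, integral_const_mul, integral_const_mul]
  rw [e1, ← e2]
  refine integral_mono ?_ i123 fun x => ?_
  · refine int_bdd (bm.mul m1).aestronglyMeasurable (M * A) fun x => ?_
    rw [Real.norm_of_nonneg (mul_nonneg (b0 x) (sq_nonneg _))]
    exact mul_le_mul (bM x) (hA x) (sq_nonneg _) hM
  · have n1 : 0 ≤ ‖H x‖ ^ 2 := sq_nonneg _
    show b x * ‖H x‖ ^ 2 ≤ β * ‖H x‖ ^ 2 + M * (if ‖V x‖ < lam then ‖H x‖ ^ 2 else 0) +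
      M * A * ({x | β ≤ b x ∧ lam ≤ ‖V x‖}.indicator fun _ => (1 : ℝ)) x
    by_cases h1 : β ≤ b x
    · by_cases h2 : ‖V x‖ < lam
      · rw [if_pos h2]
        have : 0 ≤ ({x | β ≤ b x ∧ lam ≤ ‖V x‖}.indicator fun _ => (1 : ℝ)) x :=
          indicator_nonneg (fun _ _ => zero_le_one) _
        have h3 : b x * ‖H x‖ ^ 2 ≤ M * ‖H x‖ ^ 2 := mul_le_mul_of_nonneg_right (bM x) n1
        have h4 : 0 ≤ M * A * ({x | β ≤ b x ∧ lam ≤ ‖V x‖}.indicator fun _ => (1 : ℝ)) x := by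
          positivity
        have h5 : 0 ≤ β * ‖H x‖ ^ 2 := by positivity
        linarith
      · rw [if_neg h2, indicator_of_mem (show x ∈ {x | β ≤ b x ∧ lam ≤ ‖V x‖} from
          ⟨h1, not_lt.1 h2⟩)]
        have h3 : b x * ‖H x‖ ^ 2 ≤ M * A := mul_le_mul (bM x) (hA x) n1 hM
        have h5 : 0 ≤ β * ‖H x‖ ^ 2 := by positivity
        linarith
    · have h3 : b x * ‖H x‖ ^ 2 ≤ β * ‖H x‖ ^ 2 :=
        mul_le_mul_of_nonneg_right (not_le.1 h1).le n1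
      have h4 : 0 ≤ M * A * ({x | β ≤ b x ∧ lam ≤ ‖V x‖}.indicator fun _ => (1 : ℝ)) x := by
        have : 0 ≤ ({x | β ≤ b x ∧ lam ≤ ‖V x‖}.indicator fun _ => (1 : ℝ)) x :=
          indicator_nonneg (fun _ _ => zero_le_one) _
        positivity
      have h5 : 0 ≤ M * (if ‖V x‖ < lam then ‖H x‖ ^ 2 else 0) := by
        split_ifs <;> positivity
      linarith

/-- coefficients of `(-Δ - τ²) u` -/
def cg (τ : ℝ) (c : Z2 → ℂ) (k : Z2) : ℂ := (((fq k : ℝ) - τ ^ 2 : ℝ) : ℂ) * c k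

/-- the right-hand side -/
def ff (b : Torus → ℝ) (τ : ℝ) (F : Finset Z2) (c : Z2 → ℂ) (x : Torus) : ℂ :=
  tr F (cg τ c) x + (((τ * b x : ℝ) : ℂ) * I) * tr F c x

theorem St_eq (b : Torus → ℝ) (τ : ℝ) (F : Finset Z2) (c : Z2 → ℂ) :
    St b τ F c = ∫ x, ‖ff b τ F c x‖ ^ 2 ∂tmu := rfl

theorem St_nonneg (b : Torus → ℝ) (τ : ℝ) (F : Finset Z2) (c : Z2 → ℂ) : 0 ≤ St b τ F c :=
  integral_nonneg fun _ => sq_nonneg _

variable {b : Torus → ℝ} {M : ℝ}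

theorem ff_meas (bm : Measurable b) (τ : ℝ) (F : Finset Z2) (c : Z2 → ℂ) :
    Measurable (ff b τ F c) := by
  unfold ff
  exact (continuous_tr F _).measurable.add
    (((Complex.measurable_ofReal.comp (bm.const_mul τ)).mul_const I).mul
      (continuous_tr F c).measurable)

theorem ff_bdd (b0 : ∀ x, 0 ≤ b x) (bM : ∀ x, b x ≤ M) (τ : ℝ) (F : Finset Z2) (c : Z2 → ℂ) :
    ∃ C, 0 ≤ C ∧ ∀ x, ‖ff b τ F c x‖ ≤ C := by
  have hM : 0 ≤ M := (b0 0).trans (bM 0)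
  refine ⟨(∑ k ∈ F, ‖cg τ c k‖) + |τ| * M * (∑ k ∈ F, ‖c k‖), ?_, fun x => ?_⟩
  · positivity
  · unfold ff
    refine (norm_add_le _ _).trans (add_le_add (tr_bdd _ _ _) ?_)
    rw [norm_mul, norm_mul, Complex.norm_I, mul_one, Complex.norm_real, norm_mul,
      Real.norm_of_nonneg (b0 x), Real.norm_eq_abs]
    exact mul_le_mul (mul_le_mul_of_nonneg_left (bM x) (abs_nonneg _)) (tr_bdd _ _ _)
      (norm_nonneg _) (by positivity)

theorem bsq_meas (bm : Measurable b) {H : Torus → ℂ} (hH : Continuous H) :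
    Measurable fun x => Real.sqrt (b x) * ‖H x‖ :=
  (Real.continuous_sqrt.measurable.comp bm).mul hH.norm.measurable

theorem cs_b (bm : Measurable b) (b0 : ∀ x, 0 ≤ b x) (bM : ∀ x, b x ≤ M) {H L : Torus → ℂ}
    (hH : Continuous H) (hL : Continuous L) :
    ∫ x, (Real.sqrt (b x) * ‖L x‖) * (Real.sqrt (b x) * ‖H x‖) ∂tmu ≤
      Real.sqrt (∫ x, b x * ‖L x‖ ^ 2 ∂tmu) * Real.sqrt (∫ x, b x * ‖H x‖ ^ 2 ∂tmu) := by
  obtain ⟨C1, h10, h1⟩ := cont_bdd hH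
  obtain ⟨C2, h20, h2⟩ := cont_bdd hL
  have h := cs_gen tmu (f := fun x => Real.sqrt (b x) * ‖L x‖)
    (g := fun x => Real.sqrt (b x) * ‖H x‖) (fun x => by positivity) (fun x => by positivity)
    (bsq_meas bm hL).aestronglyMeasurable (bsq_meas bm hH).aestronglyMeasurable
    (Real.sqrt M * C2) (Real.sqrt M * C1)
    (Filter.Eventually.of_forall fun x =>
      mul_le_mul (Real.sqrt_le_sqrt (bM x)) (h2 x) (norm_nonneg _) (Real.sqrt_nonneg _))
    (Filter.Eventually.of_forall fun x =>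
      mul_le_mul (Real.sqrt_le_sqrt (bM x)) (h1 x) (norm_nonneg _) (Real.sqrt_nonneg _))
  simpa only [mul_pow, Real.sq_sqrt (b0 _)] using h

/-- pairing of `(-Δ-τ²)u` with a function -/
theorem pairing (bm : Measurable b) (b0 : ∀ x, 0 ≤ b x) (bM : ∀ x, b x ≤ M) (τ : ℝ)
    (F : Finset Z2) (c : Z2 → ℂ) {H : Torus → ℂ} (hH : Continuous H) :
    ‖∫ x, tr F (cg τ c) x * (starRingEnd ℂ) (H x) ∂tmu‖ ≤
      Real.sqrt (St b τ F c) * Real.sqrt (∫ x, ‖H x‖ ^ 2 ∂tmu) +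
      |τ| * (Real.sqrt (∫ x, b x * ‖tr F c x‖ ^ 2 ∂tmu) *
        Real.sqrt (∫ x, b x * ‖H x‖ ^ 2 ∂tmu)) := by
  have hM : 0 ≤ M := (b0 0).trans (bM 0)
  obtain ⟨C1, h10, h1⟩ := cont_bdd hH
  obtain ⟨C2, h20, h2⟩ := cont_bdd (continuous_tr F c)
  obtain ⟨C3, h30, h3⟩ := ff_bdd b0 bM τ F c
  have fm := ff_meas bm τ F c
  have i1 : Integrable (fun x => ‖ff b τ F c x‖ * ‖H x‖) tmu := by
    refine int_bdd (fm.norm.mul hH.norm.measurable).aestronglyMeasurable (C3 * C1) fun x => ?_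
    rw [norm_mul, norm_norm, norm_norm]
    exact mul_le_mul (h3 x) (h1 x) (norm_nonneg _) h30
  have i2 : Integrable (fun x => (Real.sqrt (b x) * ‖tr F c x‖) * (Real.sqrt (b x) * ‖H x‖))
      tmu := by
    refine int_bdd ((bsq_meas bm (continuous_tr F c)).mul (bsq_meas bm hH)).aestronglyMeasurable
      ((Real.sqrt M * C2) * (Real.sqrt M * C1)) fun x => ?_
    rw [Real.norm_of_nonneg (by positivity)]
    exact mul_le_mul (mul_le_mul (Real.sqrt_le_sqrt (bM x)) (h2 x) (norm_nonneg _)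
      (Real.sqrt_nonneg _)) (mul_le_mul (Real.sqrt_le_sqrt (bM x)) (h1 x) (norm_nonneg _)
      (Real.sqrt_nonneg _)) (by positivity) (by positivity)
  calc ‖∫ x, tr F (cg τ c) x * (starRingEnd ℂ) (H x) ∂tmu‖
      ≤ ∫ x, ‖tr F (cg τ c) x * (starRingEnd ℂ) (H x)‖ ∂tmu := norm_integral_le_integral_norm _
    _ ≤ ∫ x, (‖ff b τ F c x‖ * ‖H x‖ +
          |τ| * ((Real.sqrt (b x) * ‖tr F c x‖) * (Real.sqrt (b x) * ‖H x‖))) ∂tmu := by
        refine integral_mono ?_ (i1.add (i2.const_mul _)) fun x => ?_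
        · exact (int_cont ((continuous_tr F _).mul (Complex.continuous_conj.comp hH))).norm
        · have e1 : tr F (cg τ c) x = ff b τ F c x - (((τ * b x : ℝ) : ℂ) * I) * tr F c x := by
            unfold ff; ring
          show ‖tr F (cg τ c) x * (starRingEnd ℂ) (H x)‖ ≤ ‖ff b τ F c x‖ * ‖H x‖ +
            |τ| * ((Real.sqrt (b x) * ‖tr F c x‖) * (Real.sqrt (b x) * ‖H x‖))
          rw [norm_mul, RCLike.norm_conj]
          have e2 : ‖tr F (cg τ c) x‖ ≤ ‖ff b τ F c x‖ + |τ| * b x * ‖tr F c x‖ := by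
            rw [e1]
            refine (norm_sub_le _ _).trans (le_of_eq ?_)
            rw [norm_mul, norm_mul, Complex.norm_I, mul_one, Complex.norm_real, norm_mul,
              Real.norm_of_nonneg (b0 x), Real.norm_eq_abs]
          have e3 : Real.sqrt (b x) * Real.sqrt (b x) = b x := Real.mul_self_sqrt (b0 x)
          calc ‖tr F (cg τ c) x‖ * ‖H x‖ ≤ (‖ff b τ F c x‖ + |τ| * b x * ‖tr F c x‖) * ‖H x‖ :=
                mul_le_mul_of_nonneg_right e2 (norm_nonneg _)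
            _ = ‖ff b τ F c x‖ * ‖H x‖ + |τ| * (b x * (‖tr F c x‖ * ‖H x‖)) := by ring
            _ = ‖ff b τ F c x‖ * ‖H x‖ + |τ| *
                ((Real.sqrt (b x) * Real.sqrt (b x)) * (‖tr F c x‖ * ‖H x‖)) := by rw [e3]
            _ = _ := by ring
    _ = (∫ x, ‖ff b τ F c x‖ * ‖H x‖ ∂tmu) +
          |τ| * ∫ x, (Real.sqrt (b x) * ‖tr F c x‖) * (Real.sqrt (b x) * ‖H x‖) ∂tmu := by
        rw [integral_add i1 (i2.const_mul _), integral_const_mul]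
    _ ≤ _ := by
        refine add_le_add ?_ (mul_le_mul_of_nonneg_left (cs_b bm b0 bM hH (continuous_tr F c))
          (abs_nonneg _))
        rw [St_eq]
        exact cs_gen tmu (fun _ => norm_nonneg _) (fun _ => norm_nonneg _)
          fm.norm.aestronglyMeasurable hH.norm.aestronglyMeasurable C3 C1
          (Filter.Eventually.of_forall h3) (Filter.Eventually.of_forall h1)

/-- Step 1: the damping estimate. -/
theorem step1 (bm : Measurable b) (b0 : ∀ x, 0 ≤ b x) (bM : ∀ x, b x ≤ M) (τ : ℝ)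
    (F : Finset Z2) (c : Z2 → ℂ) :
    |τ| * ∫ x, b x * ‖tr F c x‖ ^ 2 ∂tmu ≤
      Real.sqrt (St b τ F c) * Real.sqrt (∑ k ∈ F, ‖c k‖ ^ 2) := by
  obtain ⟨C2, h20, h2⟩ := cont_bdd (continuous_tr F c)
  obtain ⟨C3, h30, h3⟩ := ff_bdd b0 bM τ F c
  have fm := ff_meas bm τ F c
  have um := (continuous_tr F c).measurable
  have hM : 0 ≤ M := (b0 0).trans (bM 0)
  have hbi : 0 ≤ ∫ x, b x * ‖tr F c x‖ ^ 2 ∂tmu :=
    integral_nonneg fun x => mul_nonneg (b0 x) (sq_nonneg _)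
  have ib : Integrable (fun x => b x * ‖tr F c x‖ ^ 2) tmu := by
    refine int_bdd (bm.mul ((continuous_tr F c).norm.pow 2).measurable).aestronglyMeasurable
      (M * C2 ^ 2) fun x => ?_
    rw [Real.norm_of_nonneg (mul_nonneg (b0 x) (sq_nonneg _))]
    exact mul_le_mul (bM x) (pow_le_pow_left₀ (norm_nonneg _) (h2 x) 2) (sq_nonneg _) hM
  -- the pairing
  have h4 : ∫ x, ff b τ F c x * (starRingEnd ℂ) (tr F c x) ∂tmu =
      (((∑ k ∈ F, ((fq k : ℝ) - τ ^ 2) * ‖c k‖ ^ 2 : ℝ)) : ℂ) +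
        ((τ * ∫ x, b x * ‖tr F c x‖ ^ 2 ∂tmu : ℝ) : ℂ) * I := by
    have e1 : ∀ x, ff b τ F c x * (starRingEnd ℂ) (tr F c x) =
        tr F (cg τ c) x * (starRingEnd ℂ) (tr F c x) +
          ((b x * ‖tr F c x‖ ^ 2 : ℝ) : ℂ) * ((τ : ℂ) * I) := by
      intro x
      unfold ff
      have : tr F c x * (starRingEnd ℂ) (tr F c x) = ((‖tr F c x‖ ^ 2 : ℝ) : ℂ) := by
        rw [Complex.mul_conj, Complex.normSq_eq_norm_sq]
      rw [add_mul, mul_assoc (((τ * b x : ℝ) : ℂ) * I), this]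
      push_cast; ring
    simp only [e1]
    have j1 : Integrable (fun x => tr F (cg τ c) x * (starRingEnd ℂ) (tr F c x)) tmu :=
      int_cont ((continuous_tr F _).mul (Complex.continuous_conj.comp (continuous_tr F c)))
    have j2 : Integrable (fun x => ((b x * ‖tr F c x‖ ^ 2 : ℝ) : ℂ) * ((τ : ℂ) * I)) tmu :=
      ib.ofReal.mul_const _
    have j3 : ∫ x, ((b x * ‖tr F c x‖ ^ 2 : ℝ) : ℂ) ∂tmu =
        ((∫ x, b x * ‖tr F c x‖ ^ 2 ∂tmu : ℝ) : ℂ) := integral_ofReal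
    rw [integral_add j1 j2, integral_tr_mul, integral_mul_const, j3]
    congr 1
    · push_cast
      refine Finset.sum_congr rfl fun k hk => ?_
      rw [Finset.sum_ite_eq, if_pos hk]
      unfold cg
      rw [mul_assoc, Complex.mul_conj, Complex.normSq_eq_norm_sq]
      push_cast; ring
    · push_cast; ring
  have h5 : |τ * ∫ x, b x * ‖tr F c x‖ ^ 2 ∂tmu| ≤
      ‖∫ x, ff b τ F c x * (starRingEnd ℂ) (tr F c x) ∂tmu‖ := by
    have h6 := Complex.abs_im_le_norm (∫ x, ff b τ F c x * (starRingEnd ℂ) (tr F c x) ∂tmu)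
    have h7 : (∫ x, ff b τ F c x * (starRingEnd ℂ) (tr F c x) ∂tmu).im =
        τ * ∫ x, b x * ‖tr F c x‖ ^ 2 ∂tmu := by
      rw [h4, Complex.add_im, Complex.ofReal_im, Complex.mul_im, Complex.ofReal_re,
        Complex.ofReal_im]
      simp
    rwa [h7] at h6
  rw [abs_mul, abs_of_nonneg hbi] at h5
  refine h5.trans ?_
  refine (norm_integral_le_integral_norm _).trans ?_
  simp only [norm_mul, RCLike.norm_conj]
  have h6 := cs_gen tmu (f := fun x => ‖ff b τ F c x‖) (g := fun x => ‖tr F c x‖)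
    (fun _ => norm_nonneg _) (fun _ => norm_nonneg _) fm.norm.aestronglyMeasurable
    um.norm.aestronglyMeasurable C3 C2 (Filter.Eventually.of_forall h3)
    (Filter.Eventually.of_forall h2)
  rwa [integral_norm_sq_tr, ← St_eq] at h6

/-- Step 2. -/
theorem step2 (bm : Measurable b) (b0 : ∀ x, 0 ≤ b x) (bM : ∀ x, b x ≤ M) (τ : ℝ)
    (F : Finset Z2) (c : Z2 → ℂ) :
    ∑ k ∈ F, ((fq k : ℝ) - τ ^ 2) ^ 2 * ‖c k‖ ^ 2 ≤
      2 * St b τ F c + 2 * M * τ ^ 2 * ∫ x, b x * ‖tr F c x‖ ^ 2 ∂tmu := by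
  obtain ⟨C2, h20, h2⟩ := cont_bdd (continuous_tr F c)
  obtain ⟨C3, h30, h3⟩ := ff_bdd b0 bM τ F c
  have fm := ff_meas bm τ F c
  have hM : 0 ≤ M := (b0 0).trans (bM 0)
  have ib : Integrable (fun x => b x * ‖tr F c x‖ ^ 2) tmu := by
    refine int_bdd (bm.mul ((continuous_tr F c).norm.pow 2).measurable).aestronglyMeasurable
      (M * C2 ^ 2) fun x => ?_
    rw [Real.norm_of_nonneg (mul_nonneg (b0 x) (sq_nonneg _))]
    exact mul_le_mul (bM x) (pow_le_pow_left₀ (norm_nonneg _) (h2 x) 2) (sq_nonneg _) hM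
  have i3 : Integrable (fun x => ‖ff b τ F c x‖ ^ 2) tmu := by
    refine int_bdd (fm.norm.pow_const 2).aestronglyMeasurable (C3 ^ 2) fun x => ?_
    rw [Real.norm_of_nonneg (sq_nonneg _)]
    exact pow_le_pow_left₀ (norm_nonneg _) (h3 x) 2
  have h4 : ∑ k ∈ F, ((fq k : ℝ) - τ ^ 2) ^ 2 * ‖c k‖ ^ 2 = ∫ x, ‖tr F (cg τ c) x‖ ^ 2 ∂tmu := by
    rw [integral_norm_sq_tr]
    refine Finset.sum_congr rfl fun k _ => ?_
    unfold cg
    rw [norm_mul, mul_pow, Complex.norm_real, Real.norm_eq_abs, sq_abs]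
  rw [h4, St_eq, ← integral_const_mul, ← integral_const_mul,
    ← integral_add (i3.const_mul _) (ib.const_mul _)]
  refine integral_mono (int_cont ((continuous_tr F _).norm.pow 2))
    ((i3.const_mul _).add (ib.const_mul _)) fun x => ?_
  show ‖tr F (cg τ c) x‖ ^ 2 ≤ 2 * ‖ff b τ F c x‖ ^ 2 + 2 * M * τ ^ 2 * (b x * ‖tr F c x‖ ^ 2)
  have e1 : tr F (cg τ c) x = ff b τ F c x - (((τ * b x : ℝ) : ℂ) * I) * tr F c x := by
    unfold ff; ring
  have e2 : ‖tr F (cg τ c) x‖ ≤ ‖ff b τ F c x‖ + |τ| * b x * ‖tr F c x‖ := by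
    rw [e1]
    refine (norm_sub_le _ _).trans (le_of_eq ?_)
    rw [norm_mul, norm_mul, Complex.norm_I, mul_one, Complex.norm_real, norm_mul,
      Real.norm_of_nonneg (b0 x), Real.norm_eq_abs]
  have e3 : ‖tr F (cg τ c) x‖ ^ 2 ≤ (‖ff b τ F c x‖ + |τ| * b x * ‖tr F c x‖) ^ 2 :=
    pow_le_pow_left₀ (norm_nonneg _) e2 2
  have e4 : (|τ| * b x * ‖tr F c x‖) ^ 2 ≤ M * τ ^ 2 * (b x * ‖tr F c x‖ ^ 2) := by
    have : (|τ| * b x * ‖tr F c x‖) ^ 2 = b x * (τ ^ 2 * (b x * ‖tr F c x‖ ^ 2)) := by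
      rw [mul_pow, mul_pow, sq_abs]; ring
    rw [this, mul_assoc M]
    exact mul_le_mul_of_nonneg_right (bM x)
      (mul_nonneg (sq_nonneg _) (mul_nonneg (b0 x) (sq_nonneg _)))
  nlinarith [sq_nonneg (‖ff b τ F c x‖ - |τ| * b x * ‖tr F c x‖)]

/-! ### the differential equation on a line -/

/-- the frequency on the line of height `m` -/
def nu (τ : ℝ) (d : Z2) (m : ℤ) : ℝ :=
  4 * π ^ 2 * (τ ^ 2 - (m : ℝ) ^ 2 / (fq d : ℝ)) / (fq d : ℝ)

/-- coefficients of the derivative along `d` -/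
def c1 (d : Z2) (c : Z2 → ℂ) (k : Z2) : ℂ := (2 * π * I * ((dt k d : ℝ) / (fq d : ℝ) : ℝ)) * c k

theorem fq_pos {d : Z2} (hd : IsCoprime (d 0) (d 1)) : 1 ≤ fq d := by
  unfold fq
  by_contra h
  push Not at h
  have h0 : d 0 = 0 := by nlinarith [sq_nonneg (d 0), sq_nonneg (d 1)]
  have h1 : d 1 = 0 := by nlinarith [sq_nonneg (d 0), sq_nonneg (d 1)]
  rw [h0, h1] at hd
  exact not_isCoprime_zero_zero hd

theorem yv_deriv (F : Finset Z2) (c : Z2 → ℂ) (d : Z2) (s : ℝ) :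
    HasDerivAt (yv F c d) (yv F (c1 d c) d s) s := by
  unfold yv
  refine HasDerivAt.fun_sum fun k _ => ?_
  have h1 : HasDerivAt (fun s : ℝ => (2 * π * I * (((dt k d : ℝ) / (fq d : ℝ) * s : ℝ) : ℂ)))
      (2 * π * I * ((dt k d : ℝ) / (fq d : ℝ) : ℝ)) s := by
    have h2 : HasDerivAt (fun s : ℝ => (((dt k d : ℝ) / (fq d : ℝ) * s : ℝ) : ℂ))
        (((dt k d : ℝ) / (fq d : ℝ) : ℝ) : ℂ) s := by
      have := ((hasDerivAt_id s).const_mul ((dt k d : ℝ) / (fq d : ℝ))).ofReal_comp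
      simpa using this
    exact h2.const_mul _
  have h3 := h1.cexp.const_mul (c k)
  have h4 : c1 d c k * cexp (2 * π * I * (((dt k d : ℝ) / (fq d : ℝ) * s : ℝ) : ℂ)) =
      c k * (cexp (2 * π * I * (((dt k d : ℝ) / (fq d : ℝ) * s : ℝ) : ℂ)) *
        (2 * π * I * ((dt k d : ℝ) / (fq d : ℝ) : ℝ))) := by
    unfold c1
    ring
  rw [h4]
  exact h3

theorem line_od {d : Z2} (hd : IsCoprime (d 0) (d 1)) (m : ℤ) (F : Finset Z2)
    (hF : ∀ k ∈ F, cr k d = m) (τ : ℝ) (c : Z2 → ℂ) :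
    ∃ ω : ℂ, OD (yv F c d) (yv F (c1 d c) d)
      (fun s => ((-(4 * π ^ 2 / (fq d : ℝ)) : ℝ) : ℂ) * yv F (cg τ c) d s) (nu τ d m) ω := by
  have hq : (0 : ℝ) < (fq d : ℝ) := by exact_mod_cast (fq_pos hd)
  have hqc : ((fq d : ℝ) : ℂ) ≠ 0 := by exact_mod_cast hq.ne'
  have hcy : ∀ cc : Z2 → ℂ, Continuous (yv F cc d) := fun cc =>
    continuous_iff_continuousAt.2 fun s => (yv_deriv F cc d s).continuousAt
  -- the multiplier
  obtain ⟨ω, hω1, hω⟩ : ∃ ω : ℂ, ‖ω‖ = 1 ∧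
      ∀ k ∈ F, cexp (2 * π * I * (((dt k d : ℝ) / (fq d : ℝ) * 1 : ℝ) : ℂ)) = ω := by
    rcases F.eq_empty_or_nonempty with he | ⟨k0, hk0⟩
    · exact ⟨1, by simp, by simp [he]⟩
    · refine ⟨cexp (2 * π * I * (((dt k0 d : ℝ) / (fq d : ℝ) * 1 : ℝ) : ℂ)), ?_, fun k hk => ?_⟩
      · have : (2 * π * I * (((dt k0 d : ℝ) / (fq d : ℝ) * 1 : ℝ) : ℂ)) =
            ((2 * π * ((dt k0 d : ℝ) / (fq d : ℝ) * 1) : ℝ) : ℂ) * I := by push_cast; ring
        rw [this, Complex.norm_exp_ofReal_mul_I]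
      · obtain ⟨u, v, huv⟩ := hd
        have h1 := hF k hk
        have h2 := hF k0 hk0
        unfold cr at h1 h2
        set n : ℤ := u * (k 0 - k0 0) + v * (k 1 - k0 1) with hn
        have h3 : dt k d = dt k0 d + n * fq d := by
          unfold dt fq
          have e1 : (k 0 - k0 0) * d 1 = (k 1 - k0 1) * d 0 := by linarith
          have e2 : n * d 0 = k 0 - k0 0 := by
            rw [hn]
            linear_combination (k 0 - k0 0) * huv - v * e1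
          have e3 : n * d 1 = k 1 - k0 1 := by
            rw [hn]
            linear_combination (k 1 - k0 1) * huv + u * e1
          linear_combination -(d 0) * e2 - d 1 * e3
        have h4 : (2 * π * I * (((dt k d : ℝ) / (fq d : ℝ) * 1 : ℝ) : ℂ)) =
            2 * π * I * (((dt k0 d : ℝ) / (fq d : ℝ) * 1 : ℝ) : ℂ) + n * (2 * π * I) := by
          rw [h3]; push_cast
          have : ((fq d : ℤ) : ℂ) ≠ 0 := by exact_mod_cast hqc
          field_simp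
        rw [h4, Complex.exp_add, Complex.exp_int_mul_two_pi_mul_I, mul_one]
  have hper : ∀ cc : Z2 → ℂ, yv F cc d 1 = ω * yv F cc d 0 := by
    intro cc
    unfold yv
    rw [Finset.mul_sum]
    refine Finset.sum_congr rfl fun k hk => ?_
    rw [hω k hk]
    simp; ring
  refine ⟨ω, ⟨yv_deriv F c d, fun s => ?_, continuous_const.mul (hcy _), hω1, hper _, hper _⟩⟩
  have h1 := yv_deriv F (c1 d c) d s
  have key : -((nu τ d m : ℝ) : ℂ) * yv F c d s + ((-(4 * π ^ 2 / (fq d : ℝ)) : ℝ) : ℂ) *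
      yv F (cg τ c) d s = yv F (c1 d (c1 d c)) d s := ?_
  · rw [key]; exact h1
  unfold yv
  rw [Finset.mul_sum, Finset.mul_sum, ← Finset.sum_add_distrib]
  refine Finset.sum_congr rfl fun k hk => ?_
  have h2 : ((dt k d : ℝ)) ^ 2 + (m : ℝ) ^ 2 = (fq k : ℝ) * (fq d : ℝ) := by
    have := dt_cr k d
    rw [hF k hk] at this
    exact_mod_cast this
  have h3 : -(nu τ d m) - 4 * π ^ 2 / (fq d : ℝ) * ((fq k : ℝ) - τ ^ 2) =
      -(2 * π * ((dt k d : ℝ) / (fq d : ℝ))) ^ 2 := by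
    unfold nu
    have h4 : (fq k : ℝ) = ((dt k d : ℝ) ^ 2 + (m : ℝ) ^ 2) / (fq d : ℝ) := by
      rw [h2]; field_simp
    rw [h4]
    field_simp
    ring
  have h5 : -((nu τ d m : ℝ) : ℂ) + ((-(4 * π ^ 2 / (fq d : ℝ)) : ℝ) : ℂ) *
      (((fq k : ℝ) - τ ^ 2 : ℝ) : ℂ) =
      (2 * π * I * (((dt k d : ℝ) / (fq d : ℝ) : ℝ) : ℂ)) ^ 2 := by
    have h6 : (2 * π * I * (((dt k d : ℝ) / (fq d : ℝ) : ℝ) : ℂ)) ^ 2 =
        ((-(2 * π * ((dt k d : ℝ) / (fq d : ℝ))) ^ 2 : ℝ) : ℂ) := by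
      push_cast
      rw [mul_pow, mul_pow, I_sq]; ring
    rw [h6, ← h3]
    push_cast; ring
  unfold cg c1
  linear_combination (c k * cexp (2 * π * I * (((dt k d : ℝ) / (fq d : ℝ) * s : ℝ) : ℂ))) * h5

end

end Pool.Agent.TH281.DW
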